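import Pool.Agent.Work.MP_8c604c_gt.H.Dist
import Pool.Agent.Work.MP_8c604c_gt.T.OutS

-- merged part: Pool.Agent.Work.MP_8c604c_gt.H.Jac
section
/-!
The unit speed flow and Jacobi fields.
Hints. psi t x = phi (t / spd x) x; vel (psi t x) is the t-derivative of Z. var: differentiate el in x (swap the t and x
derivatives with ContDiffAt.isSymmSndFDerivAt for the jointly smooth functions of (t,x)), use D2_apply.
al_inv: the t-derivative of the left side is the x-derivative of the constant energy 1/2.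
om_inv: by var and D2_symm the t-derivative vanishes. star: J = JH + c Z, use PP_apply, fderiv_vert, fderiv_vert_arg.
-/

set_option maxSynthPendingDepth 3

open Set Filter Topology MeasureTheory
open scoped ContDiff Quaternion

noncomputable section
namespace Pool.Agent.Work.MP_8c604c_gt.H

variable {n : ℕ} {g : Met n}

namespace Geo
variable (G : Geo g) (h : IsMetric g)
include h

theorem jac_JJ_zero {x : VV n} (hx : x ∈ OO n) (δ : VV n) : G.JJ 0 x δ = δ.1 := by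
  have := G.jac_zero h hx Prod.fst
  rw [fderiv_fst] at this
  exact congrArg (fun L => L δ) this

theorem jac_PP_zero {x : VV n} (hx : x ∈ OO n) :
    G.PP 0 x = fderiv ℝ (fun y : VV n => g y.1 (vel g y)) x :=
  G.jac_zero h hx fun y : VV n => g y.1 (vel g y)

theorem jac_JJ_Bdir (t : ℝ) {x : VV n} (hx : x ∈ OO n) (l c : ℍ) (a : ℝ) :
    G.JJ t x (l • x.1, l • x.2 + c • x.1 + a • x.2) = l • G.Z t x :=
  jac_eqv (G.Z_eqv h t) hx (G.jac_dZ h t hx) l c a

theorem hasDerivAt_JJ (t : ℝ) {x : VV n} (hx : x ∈ OO n) (δ : VV n) :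
    HasDerivAt (fun s => G.JJ s x δ) (G.JD t x δ) t := by
  exact jac_swap isOpen_OO (G.contDiffOn_Z h) hx (fun y hy => G.hasDerivAt_Z h t hy) δ

theorem PP_apply (t : ℝ) {x : VV n} (hx : x ∈ OO n) (δ : VV n) (η : E n) :
    G.PP t x δ η = fderiv ℝ g (G.Z t x) (G.JJ t x δ) (vel g (G.psi t x)) η +
      g (G.Z t x) (G.JD t x δ) η := by
  have h1 := (((h.contDiffAt (G.Z_ne h t hx)).differentiableAt (by simp)).hasFDerivAt.comp x
    (G.jac_dZ h t hx).hasFDerivAt).clm_apply (G.jac_dV h t hx).hasFDerivAt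
  refine (congrArg (fun L => L δ η) h1.fderiv).trans ?_
  simp [JJ, JD, add_comm]

/-- The Jacobi equation in weak form. -/
theorem var (t : ℝ) {x : VV n} (hx : x ∈ OO n) (δ : VV n) {η : ℝ → E n} {η' : E n}
    (hη : HasDerivAt η η' t) :
    HasDerivAt (fun s => G.PP s x δ (η s))
      (D2 g (G.Z t x, vel g (G.psi t x)) (G.JJ t x δ, G.JD t x δ) (η t, η')) t := by
  obtain ⟨P', hP⟩ : ∃ P', HasDerivAt (fun s => G.PP s x δ) P' t :=
    ⟨_, (jac_fst ((jac_at isOpen_OO (G.contDiffOn_PP h) t hx).differentiableAt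
      (by simp))).clm_apply (hasDerivAt_const t δ)⟩
  have h1 : ∀ s, G.PP s x δ (η t) =
      fderiv ℝ (fun y => g (G.Z s y) (vel g (G.psi s y)) (η t)) x δ := by
    intro s
    rw [((G.jac_dP h s hx).hasFDerivAt.clm_apply (hasFDerivAt_const (η t) x)).fderiv]
    simp [PP]
  have h2 := jac_swap (F := fun s y => g (G.Z s y) (vel g (G.psi s y)) (η t)) isOpen_OO
    ((G.jac_cP h).clm_apply contDiffOn_const) hx
    (fun y hy => G.first_var h t hy (hasDerivAt_const t (η t))) δ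
  rw [G.jac_D2 h t hx] at h2
  have h3 := (hP.clm_apply (hasDerivAt_const t (η t))).unique (by simpa only [h1] using h2)
  refine (hP.clm_apply hη).congr_deriv ?_
  rw [map_zero, add_zero] at h3
  have hz : (G.Z t x, vel g (G.psi t x)).1 ≠ 0 := G.Z_ne h t hx
  rw [h3, G.PP_apply h t hx, h.D2_apply hz, h.D2_apply hz]
  simp only [map_zero]
  ring

/-- Gauss lemma. -/
theorem al_inv (t : ℝ) {x : VV n} (hx : x ∈ OO n) (δ : VV n) :
    g (G.Z t x) (vel g (G.psi t x)) (G.JJ t x δ) = al g x δ := by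
  have h1 : ∀ s, HasDerivAt (fun s => g (G.Z s x) (vel g (G.psi s x)) (G.JJ s x δ)) 0 s := by
    intro s
    refine (G.first_var h s hx (G.hasDerivAt_JJ h s hx δ)).congr_deriv ?_
    have h2 := (((G.jac_Lg h s hx).differentiableAt (by simp)).hasFDerivAt.comp x
      (G.jac_pair h s hx)).fderiv
    have h3 : (Lg g ∘ fun y => (G.Z s y, vel g (G.psi s y))) =ᶠ[𝓝 x] fun _ => 1 / 2 := by
      filter_upwards [isOpen_OO.mem_nhds hx] with y hy
      have := h.vel_unit (G.psi_mem h s hy)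
      simp only [Function.comp_apply, Lg, Z, this, mul_one]
    rw [h3.fderiv_eq, fderiv_fun_const] at h2
    exact (congrArg (fun L => L δ) h2).symm
  have h2 := is_const_of_deriv_eq_zero (fun s => (h1 s).differentiableAt)
    (fun s => (h1 s).deriv) t 0
  simp only [G.jac_JJ_zero h hx] at h2
  rw [h2, Z, G.psi_zero h hx]
  rfl

theorem om_inv (t : ℝ) {x : VV n} (hx : x ∈ OO n) (δ₁ δ₂ : VV n) :
    G.PP t x δ₁ (G.JJ t x δ₂) - G.PP t x δ₂ (G.JJ t x δ₁) = om g x δ₁ δ₂ := by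
  have h1 : ∀ s, HasDerivAt
      (fun s => G.PP s x δ₁ (G.JJ s x δ₂) - G.PP s x δ₂ (G.JJ s x δ₁)) 0 s := by
    intro s
    refine ((G.var h s hx δ₁ (G.hasDerivAt_JJ h s hx δ₂)).sub
      (G.var h s hx δ₂ (G.hasDerivAt_JJ h s hx δ₁))).congr_deriv ?_
    rw [h.D2_symm (p := (G.Z s x, vel g (G.psi s x))) (G.Z_ne h s hx), sub_self]
  have h2 := is_const_of_deriv_eq_zero (fun s => (h1 s).differentiableAt)
    (fun s => (h1 s).deriv) t 0
  simp only [G.jac_JJ_zero h hx, G.jac_PP_zero h hx] at h2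
  exact h2

theorem fst_fderiv_psi (t : ℝ) {x : VV n} (hx : x ∈ OO n) (δ : VV n) :
    (fderiv ℝ (G.psi t) x δ).1 = G.JJ t x δ := by
  exact (congrArg (fun L => L δ) (G.jac_dpsi h t hx).hasFDerivAt.fst.fderiv).symm

theorem JJ_add (s t : ℝ) {x : VV n} (hx : x ∈ OO n) (δ : VV n) :
    G.JJ (s + t) x δ = G.JJ s (G.psi t x) (fderiv ℝ (G.psi t) x δ) := by
  exact G.jac_chain h t hx (G.jac_dZ h s (G.psi_mem h t hx))
    (fun y hy => by rw [Z, G.psi_add h s t hy, Z]) δ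

theorem JD_add (s t : ℝ) {x : VV n} (hx : x ∈ OO n) (δ : VV n) :
    G.JD (s + t) x δ = G.JD s (G.psi t x) (fderiv ℝ (G.psi t) x δ) := by
  exact G.jac_chain h t hx (G.jac_dV h s (G.psi_mem h t hx))
    (fun y hy => by rw [G.psi_add h s t hy]) δ

theorem PP_add (s t : ℝ) {x : VV n} (hx : x ∈ OO n) (δ : VV n) :
    G.PP (s + t) x δ = G.PP s (G.psi t x) (fderiv ℝ (G.psi t) x δ) := by
  exact G.jac_chain h t hx (G.jac_dP h s (G.psi_mem h t hx))
    (fun y hy => by rw [Z, G.psi_add h s t hy, Z]) δ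

theorem fderiv_psi_neg (t : ℝ) {x : VV n} (hx : x ∈ OO n) (δ : VV n) :
    fderiv ℝ (G.psi (-t)) (G.psi t x) (fderiv ℝ (G.psi t) x δ) = δ := by
  rw [← G.jac_chain h t hx (f' := id) (G.jac_dpsi h (-t) (G.psi_mem h t hx))
    (fun y hy => by rw [← G.psi_add h _ _ hy, neg_add_cancel, G.psi_zero h hy, id]) δ, fderiv_id]
  rfl

theorem om_psi (t : ℝ) {x : VV n} (hx : x ∈ OO n) (δ₁ δ₂ : VV n) :
    om g (G.psi t x) (fderiv ℝ (G.psi t) x δ₁) (fderiv ℝ (G.psi t) x δ₂) = om g x δ₁ δ₂ := by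
  rw [← G.om_inv h 0 (G.psi_mem h t hx), ← G.PP_add h 0 t hx, ← G.PP_add h 0 t hx,
    ← G.JJ_add h 0 t hx, ← G.JJ_add h 0 t hx, zero_add, G.om_inv h t hx]

theorem al_psi (t : ℝ) {x : VV n} (hx : x ∈ OO n) (δ : VV n) :
    al g (G.psi t x) (fderiv ℝ (G.psi t) x δ) = al g x δ := by
  rw [← G.al_inv h t hx, ← G.fst_fderiv_psi h t hx]
  rfl

theorem JJ_zero {x : VV n} (hx : x ∈ OO n) (δ : VV n) : G.JJ 0 x δ = δ.1 := by
  exact G.jac_JJ_zero h hx δ

/-- Initial derivative of the fields vanishing at time zero. -/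
theorem JD_zero {x : VV n} (hx : x ∈ OO n) (u : E n) :
    G.JD 0 x (0, u) = (spd g x)⁻¹ • (hor x.1 u - g x.1 (vel g x) u • vel g x) := by
  rw [← h.jac_vel hx, ← G.jac_zero h hx (vel g)]
  rfl

theorem JJ_gauge (t : ℝ) {x : VV n} (hx : x ∈ OO n) (c : ℍ) : G.JJ t x (c • x) = c • G.Z t x := by
  rw [← G.jac_JJ_Bdir h t hx c 0 0]
  simp only [zero_smul, add_zero]
  rfl

theorem JJ_Bs (t : ℝ) {x : VV n} (hx : x ∈ OO n) {u : E n} (hu : u ∈ Bs x) :
    G.JJ t x (0, u) = 0 := by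
  obtain ⟨c, a, rfl⟩ := mem_Bs.1 hu
  simpa using G.jac_JJ_Bdir h t hx 0 c a

theorem JH_Bdir (t : ℝ) {x : VV n} (hx : x ∈ OO n) {v : VV n} (hv : v ∈ Bdir x) :
    G.JH t x v = 0 := by
  obtain ⟨l, c, a, rfl⟩ := mem_Bdir.1 hv
  rw [JH, ContinuousLinearMap.comp_apply, G.jac_JJ_Bdir h t hx, horL_apply]
  exact (hor_eq_zero_iff (G.Z_ne h t hx) _).2 ⟨l, rfl⟩

theorem fderiv_psi_Bdir (t : ℝ) {x : VV n} (hx : x ∈ OO n) {v : VV n} (hv : v ∈ Bdir x) :
    fderiv ℝ (G.psi t) x v ∈ Bdir (G.psi t x) := by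
  obtain ⟨l, c, a, rfl⟩ := mem_Bdir.1 hv
  refine mem_Bdir.2 ⟨l, c, a, (jac_curve (G.jac_dpsi h t hx) (jac_act l c a x)
    (jac_act0 l c a x)).unique ?_⟩
  simp only [G.psi_act h t _ (qe_ne _ _) (Real.exp_pos _) hx]
  exact jac_act l c a _

theorem JJ_act (t : ℝ) {l : ℍ} {m : ℝ} (c : ℍ) {x : VV n} (hl : l ≠ 0) (hm : 0 < m)
    (hx : x ∈ OO n) (δ : VV n) : G.JJ t (act l m c x) (act l m c δ) = l • G.JJ t x δ := by
  have h1 : HasDerivAt (fun s : ℝ => act l m c (x + s • δ)) (act l m c δ) 0 := by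
    refine (jac_line (act l m c x) (act l m c δ)).congr_of_eventuallyEq
      (Eventually.of_forall fun s => ?_)
    simp only [act, Prod.fst_add, Prod.snd_add, Prod.smul_fst, Prod.smul_snd, Prod.smul_mk,
      Prod.mk_add_mk, smul_add, smul_comm s l, smul_comm s m, smul_comm s c]
    congr 1
    abel
  refine (jac_curve (G.jac_dZ h t (act_mem c hl hm hx)) h1 (by simp)).unique ?_
  have h2 := (jac_curve (G.jac_dZ h t hx) (jac_line x δ) (by simp)).const_smul l
  refine h2.congr_of_eventuallyEq ?_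
  have h3 : ∀ᶠ s : ℝ in 𝓝 0, x + s • δ ∈ OO n :=
    (jac_line x δ).continuousAt.eventually (isOpen_OO.mem_nhds (by simpa using hx))
  filter_upwards [h3] with s hs
  exact G.Z_eqv h t l m c _ hl hm hs

omit G in
theorem _root_.Pool.Agent.Work.MP_8c604c_gt.H.om_Bdir {x : VV n} (hx : x ∈ OO n) {v : VV n}
    (hv : v ∈ Bdir x) (δ : VV n) : om g x v δ = 0 := by
  obtain ⟨l, c, a, rfl⟩ := mem_Bdir.1 hv
  rw [om, h.jac_DP hx, h.jac_DP hx, jac_eqv h.vel_eqv hx (h.jac_dvel hx), h.fderiv_vert l hx.1,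
    h.fderiv_vert_arg l hx.1, h.vert' l _ hx.1]
  ring

omit G in
theorem _root_.Pool.Agent.Work.MP_8c604c_gt.H.al_Bdir {x : VV n} (hx : x ∈ OO n) {v : VV n}
    (hv : v ∈ Bdir x) : al g x v = 0 := by
  obtain ⟨l, c, a, rfl⟩ := mem_Bdir.1 hv
  exact h.vert' l _ hx.1

omit G in
theorem _root_.Pool.Agent.Work.MP_8c604c_gt.H.om_fibre {x : VV n} (hx : x ∈ OO n) (u : E n)
    (δ : VV n) : om g x (0, u) δ =
      (spd g x)⁻¹ * (g x.1 u δ.1 - g x.1 (vel g x) u * g x.1 (vel g x) δ.1) := by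
  rw [om, h.jac_DP hx, h.jac_vel hx]
  simp [h.hor_left hx.1]

/-- At a zero of a horizontal Jacobi field its derivative represents the symplectic form. -/
theorem star (t : ℝ) {x : VV n} (hx : x ∈ OO n) {ξ : VV n} (hξ : G.JH t x ξ = 0) (η : VV n) :
    g (G.Z t x) (deriv (fun s => G.JH s x ξ) t) (G.JJ t x η) = om g x ξ η := by
  have hz := G.Z_ne h t hx
  obtain ⟨c', hc⟩ := jac_nu (G.hasDerivAt_Z h t hx) (G.hasDerivAt_JJ h t hx ξ) hz
  have h1 : HasDerivAt (fun s => G.JH s x ξ) _ t :=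
    ((G.hasDerivAt_JJ h t hx ξ).sub (hc.smul (G.hasDerivAt_Z h t hx))).congr_of_eventuallyEq
      (Eventually.of_forall fun s => hor_def _ _)
  have h2 : G.JJ t x ξ = nu (G.Z t x) (G.JJ t x ξ) • G.Z t x :=
    sub_eq_zero.1 ((hor_def _ _).symm.trans hξ)
  generalize nu (G.Z t x) (G.JJ t x ξ) = c at h1 h2
  rw [h1.deriv, ← G.om_inv h t hx, G.PP_apply h t hx, G.PP_apply h t hx, h2, h.fderiv_vert c hz,
    h.fderiv_vert_arg c hz, h.vert' c _ hz, map_sub, map_add, sub_apply, add_apply,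
    h.vert c' _ _ hz]
  ring

/-- If the only fields from the fibre vanishing at time `t` are trivial, they fill the normal space. -/
theorem JH_surj (t : ℝ) {x : VV n} (hx : x ∈ OO n) (hi : ∀ u, G.JH t x (0, u) = 0 → u ∈ Bs x)
    {y : E n} (hy : nu (G.Z t x) y = 0) (hy' : g (G.Z t x) (vel g (G.psi t x)) y = 0) :
    ∃ u, G.JH t x (0, u) = y := by
  have hz := G.Z_ne h t hx
  have hp := G.psi_mem h t hx
  let T : E n →ₗ[ℝ] E n := (G.JH t x : VV n →ₗ[ℝ] E n).comp (LinearMap.inr ℝ (E n) (E n))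
  let S : E n →ₗ[ℝ] ℍ × ℝ := (nuL (G.Z t x) : E n →ₗ[ℝ] ℍ).prod
    (g (G.Z t x) (vel g (G.psi t x)) : E n →ₗ[ℝ] ℝ)
  have hS : ∀ y, S y = (nu (G.Z t x) y, g (G.Z t x) (vel g (G.psi t x)) y) := fun _ => rfl
  have hT : ∀ u, T u = G.JH t x (0, u) := fun _ => rfl
  have h1 : LinearMap.ker T = Bs x := by
    ext u
    rw [LinearMap.mem_ker, hT]
    refine ⟨hi u, fun hu => ?_⟩
    rw [JH, ContinuousLinearMap.comp_apply, G.JJ_Bs h t hx hu, map_zero]
  have h2 : LinearMap.range S = ⊤ := by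
    refine LinearMap.range_eq_top.2 fun p => ⟨p.1 • G.Z t x + p.2 • vel g (G.psi t x), ?_⟩
    have e1 : nu (G.Z t x) (vel g (G.psi t x)) = 0 := h.nu_vel hp.1
    have e2 : g (G.Z t x) (vel g (G.psi t x)) (vel g (G.psi t x)) = 1 := h.vel_unit hp
    rw [map_add, map_smul S p.2, hS, hS, nu_smul, nu_self hz, h.vert' _ _ hz, e1, e2]
    simp
  have h3 : LinearMap.range T ≤ LinearMap.ker S := by
    rintro _ ⟨u, rfl⟩
    rw [LinearMap.mem_ker, hS, hT, JH, ContinuousLinearMap.comp_apply, horL_apply, nu_hor hz,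
      h.hor_right hz, G.al_inv h t hx]
    simp [al]
  have h4 := T.finrank_range_add_finrank_ker
  have h5 := S.finrank_range_add_finrank_ker
  rw [h1, finrank_Bs hx] at h4
  rw [h2, finrank_top, Module.finrank_prod, Quaternion.finrank_eq_four,
    Module.finrank_self] at h5
  have h6 := Submodule.eq_of_le_of_finrank_eq h3 (by omega)
  have h7 : y ∈ LinearMap.range T := by
    rw [h6, LinearMap.mem_ker, hS, hy, hy']
    rfl
  exact h7

/-- Derivative of the exponential map along a ray. -/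
theorem fderiv_ex (τ : ℝ) {x : VV n} (hx : x ∈ OO n) (hτ : 0 < τ) (u : E n) :
    fderiv ℝ (G.ex x.1) (τ • vel g x) u =
      g x.1 (vel g x) u • vel g (G.psi τ x) + (spd g x / τ) • G.JJ τ x (0, u) := by
  have hp := h.spd_pos hx
  have hm : 0 < τ / spd g x := div_pos hτ hp
  set c : ℍ := -((τ / spd g x) • nu x.1 x.2) with hc
  have e0 : act 1 (τ / spd g x) c x = (x.1, τ • vel g x) := by
    rw [act, one_smul, one_smul]
    congr 1
    conv_lhs => rw [h.snd_eq hx]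
    rw [smul_add, smul_smul, div_mul_cancel₀ _ hp.ne', hc, neg_smul, smul_assoc,
      add_neg_cancel_right]
  have hx0 : (x.1, τ • vel g x) ∈ OO n := e0 ▸ act_mem c one_ne_zero hm hx
  have e1 : spd g (x.1, τ • vel g x) = τ := by
    rw [← e0, h.spd_act c one_ne_zero hm hx.1, div_mul_cancel₀ _ hp.ne']
  have e2 : vel g (x.1, τ • vel g x) = vel g x := by
    rw [← e0, h.vel_eqv _ _ _ _ one_ne_zero hm hx, one_smul]
  have e3 : vel g (G.psi τ (x.1, τ • vel g x)) = vel g (G.psi τ x) := by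
    rw [← e0, G.psi_act h τ c one_ne_zero hm hx,
      h.vel_eqv _ _ _ _ one_ne_zero hm (G.psi_mem h τ hx), one_smul]
  have e4 : G.JJ τ (x.1, τ • vel g x) (0, u) = (spd g x / τ) • G.JJ τ x (0, u) := by
    have := G.JJ_act h τ c one_ne_zero hm hx ((spd g x / τ) • (0, u))
    rw [e0, one_smul, map_smul] at this
    rw [← this]
    congr 1
    simp only [act, Prod.smul_mk, smul_zero, one_smul, add_zero, smul_smul]
    rw [div_mul_div_comm, mul_comm τ, div_self (by positivity), one_smul]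
  have hd : DifferentiableAt ℝ (G.ex x.1) (τ • vel g x) :=
    ((G.contDiffOn_ex.contDiffAt (x := (x.1, τ • vel g x))
      ((isOpen_ne.preimage continuous_fst).mem_nhds hx.1)).differentiableAt (by simp)).comp
        (τ • vel g x) (hasFDerivAt_prodMk_right x.1 _).differentiableAt
  have hl := (hasDerivAt_const (0 : ℝ) x.1).prodMk (jac_line (τ • vel g x) u)
  have hZ := (jac_at isOpen_OO (G.contDiffOn_Z h) τ hx0).differentiableAt (by simp)
  have h1 := jac_curve hZ ((h.jac_spd hx0 u).prodMk hl) (by simp [e1])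
  rw [jac_total hZ (G.hasDerivAt_Z h τ hx0), e2, e3] at h1
  rw [← e4]
  refine (jac_curve hd (jac_line (τ • vel g x) u) (by simp)).unique (h1.congr_of_eventuallyEq ?_)
  have h3 : ∀ᶠ s : ℝ in 𝓝 0, (x.1, τ • vel g x + s • u) ∈ OO n :=
    hl.continuousAt.eventually (isOpen_OO.mem_nhds (by simpa using hx0))
  filter_upwards [h3] with s hs
  exact G.ex_eq_Z h hs

end Geo

namespace Bl
variable {G : Geo g} (B : Bl g G)
include B

/-- Holonomy of the closed geodesics. -/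
theorem psi_pi {x : VV n} (hx : x ∈ OO n) :
    (∃ c, G.psi Real.pi x = act (nu x.1 (G.Z Real.pi x)) 1 c x) ∧ ‖nu x.1 (G.Z Real.pi x)‖ = 1 := by
  have h := B.met
  have e : ∀ t, G.Z (t + Real.pi) x = nu (G.Z t x) (G.Z (t + Real.pi) x) • G.Z t x := by
    intro t
    obtain ⟨c, hc⟩ := B.per x hx t
    rw [hc, nu_smul, nu_self (G.Z_ne h t hx), mul_one]
  have z0 : G.Z 0 x = x.1 := by rw [Geo.Z, G.psi_zero h hx]
  have h1 : HasDerivAt (fun s => G.Z (s + Real.pi) x) (vel g (G.psi (0 + Real.pi) x)) 0 :=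
    HasDerivAt.comp_add_const 0 Real.pi (G.hasDerivAt_Z h _ hx)
  obtain ⟨c', hc⟩ := jac_nu (G.hasDerivAt_Z h 0 hx) h1 (G.Z_ne h 0 hx)
  have h2 := h1.unique ((hc.smul (G.hasDerivAt_Z h 0 hx)).congr_of_eventuallyEq
    (Eventually.of_forall e))
  have e0 := e 0
  rw [zero_add, z0] at e0
  rw [zero_add, z0, G.psi_zero h hx] at h2
  generalize nu x.1 (G.Z Real.pi x) = c at e0 h2 ⊢
  have hn : ‖c‖ = 1 := by
    have := G.norm_Z h Real.pi hx
    rw [e0, norm_smul] at this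
    exact mul_right_cancel₀ (norm_ne_zero_iff.2 hx.1) (this.trans (one_mul _).symm)
  have hc0 : c ≠ 0 := by
    rintro rfl
    simp at hn
  have hp := G.psi_mem h Real.pi hx
  have h3 : c' = 0 := by
    have h4 : nu (G.Z Real.pi x) (vel g (G.psi Real.pi x)) = 0 := h.nu_vel hp.1
    rw [h2, e0, nu_smul_left, nu_add, nu_smul, nu_smul,
      h.nu_vel hx.1, mul_zero, zero_add, nu_self hx.1, mul_one] at h4
    exact (mul_eq_zero.1 h4).resolve_right (inv_ne_zero hc0)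
  refine ⟨⟨c⁻¹ * nu x.1 x.2 * c - nu x.1 x.2, Prod.ext e0 ?_⟩, hn⟩
  have e1 : (G.psi Real.pi x).1 = c • x.1 := e0
  rw [h.snd_eq hp, G.spd_psi h _ hx, G.nu_psi h _ hx, h2, h3, zero_smul, add_zero, e1]
  simp only [act]
  nth_rewrite 2 [h.snd_eq hx]
  rw [one_smul, sub_smul, add_add_sub_cancel, smul_add, smul_comm c, smul_smul c, ← mul_assoc,
    mul_inv_cancel_left₀ hc0, mul_smul]

theorem hol_ne {x : VV n} (hx : x ∈ OO n) : nu x.1 (G.Z Real.pi x) ≠ 0 :=
  norm_ne_zero_iff.1 ((B.psi_pi hx).2 ▸ one_ne_zero)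

theorem psi_add_pi (t : ℝ) {x : VV n} (hx : x ∈ OO n) :
    ∃ c, G.psi (t + Real.pi) x = act (nu x.1 (G.Z Real.pi x)) 1 c (G.psi t x) := by
  obtain ⟨⟨c, h1⟩, -⟩ := B.psi_pi hx
  exact ⟨c, by rw [G.psi_add B.met _ _ hx, h1, G.psi_act B.met t c (B.hol_ne hx) one_pos hx]⟩

theorem Z_add_pi (t : ℝ) {x : VV n} (hx : x ∈ OO n) :
    G.Z (t + Real.pi) x = nu x.1 (G.Z Real.pi x) • G.Z t x := by
  obtain ⟨c, h1⟩ := B.psi_add_pi t hx
  exact congrArg Prod.fst h1

theorem vel_add_pi (t : ℝ) {x : VV n} (hx : x ∈ OO n) :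
    vel g (G.psi (t + Real.pi) x) = nu x.1 (G.Z Real.pi x) • vel g (G.psi t x) := by
  obtain ⟨c, h1⟩ := B.psi_add_pi t hx
  rw [h1, B.met.vel_eqv _ _ _ _ (B.hol_ne hx) one_pos (G.psi_mem B.met t hx)]

theorem JH_add_pi (t : ℝ) {x : VV n} (hx : x ∈ OO n) (δ : VV n) :
    G.JH (t + Real.pi) x δ = nu x.1 (G.Z Real.pi x) • G.JH t x δ := by
  have h := B.met
  have hc0 := norm_ne_zero_iff.1 ((B.psi_pi hx).2 ▸ one_ne_zero)
  have e : ∀ y ∈ OO n, G.Z (t + Real.pi) y = nu y.1 (G.Z Real.pi y) • G.Z t y := fun y hy =>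
    B.Z_add_pi t hy
  have hl := jac_line x δ
  have h0 : x + (0 : ℝ) • δ = x := by simp
  obtain ⟨c', hc⟩ := jac_nu hl.fst (jac_curve (G.jac_dZ h Real.pi hx) hl h0)
    (by simpa using hx.1)
  have h3 : ∀ᶠ s : ℝ in 𝓝 0, x + s • δ ∈ OO n :=
    hl.continuousAt.eventually (isOpen_OO.mem_nhds (by simpa using hx))
  have h1 := (jac_curve (G.jac_dZ h (t + Real.pi) hx) hl h0).unique
    ((hc.smul (jac_curve (G.jac_dZ h t hx) hl h0)).congr_of_eventuallyEq
      (h3.mono fun s hs => e _ hs))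
  rw [h0] at h1
  have h2 := (hor_eq_zero_iff (G.Z_ne h t hx) (c' • G.Z t x)).2 ⟨c', rfl⟩
  change hor (G.Z (t + Real.pi) x) (fderiv ℝ (G.Z (t + Real.pi)) x δ) =
    _ • hor (G.Z t x) (fderiv ℝ (G.Z t) x δ)
  rw [h1, e x hx, hor_smul_left hc0, ← horL_apply, map_add, horL_apply, horL_apply, h2, add_zero,
    hor_smul]

end Bl

end Pool.Agent.Work.MP_8c604c_gt.H
end
end

-- merged part: Pool.Agent.Work.MP_8c604c_gt.C.Chart
section
/-!
The affine charts of the tangent bundle and the changes of chart.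
Plan. Coordinates: ext i : 1, Fin.cases, simp [aff, aff0]. sc_tau: sc i (tau i y) = sw2 i (sc0 (rho (sc i y))), use sc0_rho, sw2_act, sw2_sw2.
tau_tau: rho of sc_tau, rho_act, rho_sc0. contDiffOn_tau: the coordinate x.1 0 is a continuous linear map (PiLp.proj), ContDiffOn.inv for the division ring
(contDiffAt_inv, or q_inv), smul. det_block: matrix in the basis b.prod b is fromBlocks A 0 C A (see ../NVolAux.lean, nvol_legendre, e2), det = (det A)^2.
det_tau: tau (a, b) = (t a, M a b) with M a linear in b (z = sw i (aff a), w = sw i (aff0 b), M a b = tl (z0^-1 (w - w0 z0^-1 z))), and the derivative of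
t a = tl (z0^-1 z) in the direction b is M a b (hasFDerivAt_inv' : D(x^-1) h = - x^-1 h x^-1); compare along lines (HasFDerivAt.comp with inl / inr, unique).
Dm_ae: (sc i y).1 0 = aff y.1 i; i = 0: everything; i = succ j: the complement is the kernel of y -> y.1 j, Measure.addHaar_submodule.
-/

set_option maxSynthPendingDepth 3

open Set Filter Topology MeasureTheory
open scoped ContDiff Quaternion

noncomputable section
namespace Pool.Agent.Work.MP_8c604c_gt.C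

open H T TopologicalSpace Lam Om

variable {n : ℕ}

theorem aff_zero (a : EA n) : aff a 0 = 1 := rfl

theorem aff0_zero (b : EA n) : aff0 b 0 = 0 := rfl

theorem aff_ne (a : EA n) : aff a ≠ 0 := by
  intro h
  simpa [aff] using congrArg (fun z : E n => z 0) h

theorem tl_aff (a : EA n) : tl n (aff a) = a := by
  ext j : 1
  rfl

theorem tl_aff0 (b : EA n) : tl n (aff0 b) = b := by
  ext j : 1
  rfl

theorem tl_smul (c : ℍ) (z : E n) : tl n (c • z) = c • tl n z := by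
  rfl

theorem aff0_smul (c : ℍ) (b : EA n) : aff0 (c • b) = c • aff0 b := by
  ext i : 1
  refine Fin.cases ?_ (fun j => ?_) i <;> simp [aff0]

theorem aff_tl {z : E n} (h : z 0 = 1) : aff (tl n z) = z := by
  ext i : 1
  refine Fin.cases ?_ (fun j => ?_) i
  · exact h.symm
  · rfl

theorem aff0_tl {z : E n} (h : z 0 = 0) : aff0 (tl n z) = z := by
  ext i : 1
  refine Fin.cases ?_ (fun j => ?_) i
  · exact h.symm
  · rfl

theorem norm_aff (a : EA n) : ‖aff a‖ ^ 2 = 1 + ‖a‖ ^ 2 := by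
  rw [PiLp.norm_sq_eq_of_L2, PiLp.norm_sq_eq_of_L2, Fin.sum_univ_succ]
  simp [aff]

theorem norm_sw (i : Fin (n + 1)) (z : E n) : ‖sw i z‖ = ‖z‖ := by
  have h : ‖sw i z‖ ^ 2 = ‖z‖ ^ 2 := by
    rw [PiLp.norm_sq_eq_of_L2, PiLp.norm_sq_eq_of_L2]
    exact Equiv.sum_comp (Equiv.swap 0 i) fun j => ‖z j‖ ^ 2
  exact (pow_left_inj₀ (norm_nonneg _) (norm_nonneg _) two_ne_zero).1 h

theorem sw_zero (i : Fin (n + 1)) (z : E n) : sw i z 0 = z i := by
  change z (Equiv.swap 0 i 0) = z i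
  rw [Equiv.swap_apply_left]

theorem sw_self (i : Fin (n + 1)) (z : E n) : sw i z i = z 0 := by
  change z (Equiv.swap 0 i i) = z 0
  rw [Equiv.swap_apply_right]

theorem sw2_sw2 (i : Fin (n + 1)) (x : VV n) : sw2 i (sw2 i x) = x := by
  exact Prod.ext (sw_sw i x.1) (sw_sw i x.2)

theorem sw2_act (i : Fin (n + 1)) (l : ℍ) (m : ℝ) (c : ℍ) (x : VV n) :
    sw2 i (act l m c x) = act l m c (sw2 i x) := by
  rfl

theorem sc0_rho {x : VV n} (h : x.1 0 ≠ 0) :
    sc0 (rho x) = act (x.1 0)⁻¹ 1 (-(x.2 0 * (x.1 0)⁻¹)) x := by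
  refine Prod.ext ?_ ?_
  · exact aff_tl (z := (x.1 0)⁻¹ • x.1) (by
      rw [PiLp.smul_apply, smul_eq_mul, inv_mul_cancel₀ h])
  · have e : (act (x.1 0)⁻¹ 1 (-(x.2 0 * (x.1 0)⁻¹)) x).2 =
        (x.1 0)⁻¹ • (x.2 - (x.2 0 * (x.1 0)⁻¹) • x.1) := by
      simp only [act, one_smul, neg_smul, sub_eq_add_neg]
    rw [e]
    exact aff0_tl (z := (x.1 0)⁻¹ • (x.2 - (x.2 0 * (x.1 0)⁻¹) • x.1)) (by
      rw [PiLp.smul_apply, PiLp.sub_apply, PiLp.smul_apply, smul_eq_mul, smul_eq_mul,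
        inv_mul_cancel_right₀ h, sub_self, mul_zero])

theorem rho_sc0 (y : CH n) : rho (sc0 y) = y := by
  refine Prod.ext ?_ ?_
  · simp only [rho, sc0, aff_zero, inv_one, one_smul, tl_aff]
  · simp only [rho, sc0, aff_zero, aff0_zero, inv_one, one_smul, zero_mul, zero_smul, sub_zero,
      tl_aff0]

theorem rho_act {l : ℍ} (hl : l ≠ 0) (c : ℍ) {x : VV n} (h : x.1 0 ≠ 0) :
    rho (act l 1 c x) = rho x := by
  have e1 : (act l 1 c x).1 0 = l * x.1 0 := rfl
  have e2 : (act l 1 c x).2 0 = l * (x.2 0 + c * x.1 0) := by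
    simp only [act, one_smul, PiLp.smul_apply, PiLp.add_apply, smul_eq_mul]
  refine Prod.ext ?_ ?_
  · simp only [rho]
    rw [e1]
    simp only [act, smul_smul, mul_inv_rev, inv_mul_cancel_right₀ hl]
  · simp only [rho]
    rw [e1, e2]
    refine congrArg (tl n) ?_
    have e3 : l * (x.2 0 + c * x.1 0) * (l * x.1 0)⁻¹ * l = l * (x.2 0 * (x.1 0)⁻¹ + c) := by
      rw [mul_inv_rev, ← mul_assoc, inv_mul_cancel_right₀ hl, mul_assoc, add_mul,
        mul_inv_cancel_right₀ h]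
    simp only [act, one_smul]
    rw [smul_smul, e3, mul_smul l, ← smul_sub, smul_smul, mul_inv_rev, inv_mul_cancel_right₀ hl,
      add_smul]
    congr 1
    abel

theorem sc0_not_mem {y : CH n} (hy : y.2 = 0) : sc0 y ∉ OO n := by
  intro h
  refine h.2 0 ?_
  rw [zero_smul]
  change aff0 y.2 = 0
  rw [hy, ← a0L_apply, map_zero]

theorem rho_ne {x : VV n} (hx : x ∈ OO n) (h : x.1 0 ≠ 0) : (rho x).2 ≠ 0 := by
  intro h0
  refine sc0_not_mem h0 ?_
  rw [sc0_rho h]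
  exact act_mem _ (inv_ne_zero h) one_pos hx

theorem sc_tau {i : Fin (n + 1)} {y : CH n} (hy : y ∈ Dm i) :
    sc i (tau i y) = act ((sc i y).1 0)⁻¹ 1 (-((sc i y).2 0 * ((sc i y).1 0)⁻¹)) (sc0 y) := by
  change sw2 i (sc0 (rho (sc i y))) = _
  rw [sc0_rho hy, sw2_act]
  congr 1
  exact sw2_sw2 i _

theorem tau_mem {i : Fin (n + 1)} {y : CH n} (hy : y ∈ Dm i) : tau i y ∈ Dm i := by
  change (sc i (tau i y)).1 0 ≠ 0
  rw [sc_tau hy]
  change ((sc i y).1 0)⁻¹ * aff y.1 0 ≠ 0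
  rw [aff_zero, mul_one]
  exact inv_ne_zero hy

theorem tau_tau {i : Fin (n + 1)} {y : CH n} (hy : y ∈ Dm i) : tau i (tau i y) = y := by
  change rho (sc i (tau i y)) = y
  rw [sc_tau hy, rho_act (inv_ne_zero hy) _ (by
    change aff y.1 0 ≠ 0
    rw [aff_zero]
    exact one_ne_zero), rho_sc0]

theorem tau_ne {i : Fin (n + 1)} {y : CH n} (hy : y ∈ Dm i) (h : y.2 ≠ 0) : (tau i y).2 ≠ 0 := by
  exact rho_ne (sw2_mem i (sc0_mem h)) hy

theorem chart_inv {q : ℍ} (hq : q ≠ 0) : ContDiffAt ℝ ∞ (fun x : ℍ => x⁻¹) q := by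
  have h := contDiffAt_ringInverse ℝ (n := ∞) (Units.mk0 q hq)
  rwa [Ring.inverse_eq_inv'] at h

theorem chart_sc (i : Fin (n + 1)) : ContDiff ℝ ∞ (sc i : CH n → VV n) :=
  (sw2 i).contDiff.comp contDiff_sc0

theorem chart_c1 (i : Fin (n + 1)) : ContDiff ℝ ∞ fun y : CH n => (sc i y).1 0 :=
  (PiLp.proj (𝕜 := ℝ) 2 (fun _ : Fin (n + 1) => ℍ) 0).contDiff.comp (chart_sc i).fst

theorem chart_c2 (i : Fin (n + 1)) : ContDiff ℝ ∞ fun y : CH n => (sc i y).2 0 :=
  (PiLp.proj (𝕜 := ℝ) 2 (fun _ : Fin (n + 1) => ℍ) 0).contDiff.comp (chart_sc i).snd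

theorem isOpen_Dm (i : Fin (n + 1)) : IsOpen (Dm i) := by
  exact isOpen_ne_fun (chart_c1 i).continuous continuous_const

theorem contDiffOn_tau (i : Fin (n + 1)) : ContDiffOn ℝ ∞ (tau i) (Dm i) := by
  have h1 : ContDiffOn ℝ ∞ (fun y : CH n => ((sc i y).1 0)⁻¹) (Dm i) := fun y hy =>
    ((chart_inv hy).comp y (chart_c1 i).contDiffAt).contDiffWithinAt
  have h2 := (chart_sc i).fst.contDiffOn (s := Dm i)
  have h3 := (chart_sc i).snd.contDiffOn (s := Dm i)
  exact ((tl n).contDiff.comp_contDiffOn (h1.smul h2)).prodMk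
    ((tl n).contDiff.comp_contDiffOn
      (h1.smul (h3.sub (((chart_c2 i).contDiffOn.mul h1).smul h2))))

theorem det_block (L : CH n →L[ℝ] CH n) (h : ∀ u, L (0, u) = (0, (L (u, 0)).1)) : 0 ≤ L.det := by
  classical
  let b := Module.finBasis ℝ (EA n)
  have hM : LinearMap.toMatrix (b.prod b) (b.prod b) (L : CH n →ₗ[ℝ] CH n) =
      Matrix.fromBlocks (Matrix.of fun i j => b.repr (L (b j, 0)).1 i) 0
        (Matrix.of fun i j => b.repr (L (b j, 0)).2 i)
        (Matrix.of fun i j => b.repr (L (b j, 0)).1 i) := by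
    ext (i | i) (j | j)
    · simp [LinearMap.toMatrix_apply]
    · simp [LinearMap.toMatrix_apply, h]
    · simp [LinearMap.toMatrix_apply]
    · simp [LinearMap.toMatrix_apply, h]
  rw [ContinuousLinearMap.det, ← LinearMap.det_toMatrix (b.prod b), hM,
    Matrix.det_fromBlocks_zero₁₂]
  exact mul_self_nonneg _

theorem det_tau {i : Fin (n + 1)} {y : CH n} (hy : y ∈ Dm i) : 0 ≤ (fderiv ℝ (tau i) y).det := by
  have hd : HasFDerivAt (tau i) (fderiv ℝ (tau i) y) y :=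
    (((contDiffOn_tau i).contDiffAt ((isOpen_Dm i).mem_nhds hy)).differentiableAt
      (by simp)).hasFDerivAt
  refine det_block _ fun u => ?_
  obtain ⟨a, b⟩ := y
  obtain ⟨z, hz⟩ : ∃ z : E n, z = sw i (aff a) := ⟨_, rfl⟩
  obtain ⟨v, hv⟩ : ∃ v : E n, v = sw i (aff0 b) := ⟨_, rfl⟩
  obtain ⟨w, hw⟩ : ∃ w : E n, w = sw i (aff0 u) := ⟨_, rfl⟩
  have hz0 : z 0 ≠ 0 := by rw [hz]; exact hy
  have l1 : HasDerivAt (fun s : ℝ => ((a, b) : CH n) + s • ((0, u) : CH n)) (0, u) 0 := by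
    simpa using ((hasDerivAt_id (0 : ℝ)).smul_const ((0, u) : CH n)).const_add ((a, b) : CH n)
  have l2 : HasDerivAt (fun s : ℝ => ((a, b) : CH n) + s • ((u, 0) : CH n)) (u, 0) 0 := by
    simpa using ((hasDerivAt_id (0 : ℝ)).smul_const ((u, 0) : CH n)).const_add ((a, b) : CH n)
  have d1 := hd.comp_hasDerivAt_of_eq 0 l1 (by simp)
  have d2 := (ContinuousLinearMap.fst ℝ (EA n) (EA n)).hasFDerivAt.comp_hasDerivAt 0
    (hd.comp_hasDerivAt_of_eq 0 l2 (by simp))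
  have e1 : (tau i ∘ fun s : ℝ => ((a, b) : CH n) + s • ((0, u) : CH n)) = fun s : ℝ =>
      rho (z, v) + s • ((0, tl n ((z 0)⁻¹ • (w - (w 0 * (z 0)⁻¹) • z))) : CH n) := by
    funext s
    have e : sc i (((a, b) : CH n) + s • ((0, u) : CH n)) = (z, v + s • w) := by
      refine Prod.ext ?_ ?_
      · change sw i (aff (a + s • (0 : EA n))) = z
        rw [smul_zero, add_zero, hz]
      · change sw i (a0L n (b + s • u)) = v + s • w
        rw [map_add, map_smul, map_add, map_smul, hv, hw, a0L_apply, a0L_apply]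
    change rho (sc i _) = _
    rw [e]
    refine Prod.ext ?_ ?_
    · simp [rho]
    · simp only [rho, Prod.snd_add, Prod.smul_snd]
      rw [← map_smul, ← map_add, ← smul_comm ((z 0)⁻¹) s, ← smul_add]
      congr 2
      rw [PiLp.add_apply, PiLp.smul_apply, add_mul, add_smul, smul_mul_assoc, smul_assoc, smul_sub]
      abel
  have e2 : (ContinuousLinearMap.fst ℝ (EA n) (EA n) ∘ tau i ∘
      fun s : ℝ => ((a, b) : CH n) + s • ((u, 0) : CH n)) = fun s : ℝ =>
      tl n ((z 0 + s • w 0)⁻¹ • (z + s • w)) := by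
    funext s
    have e : (sc i (((a, b) : CH n) + s • ((u, 0) : CH n))).1 = z + s • w := by
      change sw i (aff (a + s • u)) = z + s • w
      have e0 : aff (a + s • u) = aff a + s • aff0 u := by
        rw [aff_eq, aff_eq a, ← a0L_apply, map_add, map_smul, add_assoc, a0L_apply, a0L_apply]
      rw [e0, map_add, map_smul, hz, hw]
    change tl n (((sc i _).1 0)⁻¹ • (sc i _).1) = _
    rw [e]
    rfl
  rw [e1] at d1
  rw [e2] at d2
  have f1 : HasDerivAt (fun s : ℝ =>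
      rho (z, v) + s • ((0, tl n ((z 0)⁻¹ • (w - (w 0 * (z 0)⁻¹) • z))) : CH n))
      ((0, tl n ((z 0)⁻¹ • (w - (w 0 * (z 0)⁻¹) • z))) : CH n) 0 := by
    simpa only [id, one_smul] using ((hasDerivAt_id (0 : ℝ)).smul_const
      ((0, tl n ((z 0)⁻¹ • (w - (w 0 * (z 0)⁻¹) • z))) : CH n)).const_add (rho (z, v))
  have g1 : HasDerivAt (fun s : ℝ => z 0 + s • w 0) (w 0) 0 := by
    simpa only [id, one_smul] using ((hasDerivAt_id (0 : ℝ)).smul_const (w 0)).const_add (z 0)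
  have g2 : HasDerivAt (fun s : ℝ => z + s • w) w 0 := by
    simpa only [id, one_smul] using ((hasDerivAt_id (0 : ℝ)).smul_const w).const_add z
  have g3 := (hasFDerivAt_inv' (𝕜 := ℝ) hz0).comp_hasDerivAt_of_eq 0 g1 (by simp)
  have g4 := (tl n).hasFDerivAt.comp_hasDerivAt 0 (g3.smul g2)
  have f2 := d2.unique g4
  rw [d1.unique f1]
  refine Prod.ext rfl ?_
  change _ = (ContinuousLinearMap.fst ℝ (EA n) (EA n)) _
  rw [f2]
  refine congrArg (tl n) ?_
  rw [smul_sub, smul_smul]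
  simp only [Function.comp, zero_smul, add_zero, neg_apply,
    ContinuousLinearMap.mulLeftRight_apply, neg_smul, mul_assoc, sub_eq_add_neg]

theorem Dm_ae (i : Fin (n + 1)) : ∀ᵐ y : CH n, y ∈ Dm i := by
  have e : ∀ y : CH n, (sc i y).1 0 = aff y.1 i := fun y => sw_zero i _
  simp only [Dm, mem_ofPred_eq, e]
  refine Fin.cases ?_ (fun j => ?_) i
  · exact Eventually.of_forall fun y => by rw [aff_zero]; exact one_ne_zero
  · let f : CH n →ₗ[ℝ] ℍ :=
      { toFun := fun y => y.1 j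
        map_add' := fun _ _ => rfl
        map_smul' := fun _ _ => rfl }
    have h1 : LinearMap.ker f ≠ ⊤ := by
      intro h
      have h2 : ((WithLp.toLp 2 fun _ => (1 : ℍ), 0) : CH n) ∈ LinearMap.ker f := by
        rw [h]; trivial
      exact one_ne_zero (LinearMap.mem_ker.1 h2)
    have h3 := Measure.addHaar_submodule (volume : Measure (CH n)) _ h1
    rw [ae_iff]
    refine measure_mono_null (fun y hy => ?_) h3
    exact not_not.1 hy

end Pool.Agent.Work.MP_8c604c_gt.C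
end
end

-- merged part: Pool.Agent.Work.MP_8c604c_gt.C.Change
section
/-!
Basic forms, change of chart for their densities.
Plan. basic_horizontal, one1_basic, fn_basic: port of ../StokesA.lean lines 75-160 (complex scalars replaced by quaternions; the order of the products matters, mem_Bdir).
basic_le: Act.gauge of actB with f = SMap.snd, f' = (actC n).a, beta (p, x) = (p.1, 1, p.2). sg_basic: Act.d_mem, Act.fn_mem, Adm.hom with m = 1.
den_eq: on the open set W = U0 and Dm i put t : SMap W (U0 n) = tau i, j : SMap W (U0 n) = id; Act.gauge with sc_tau gives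
pull ((sec i).comp t) gamma = pull ((sec0 n).comp j) gamma; evaluate (pull_comp, ev_pull, lmap_id, top_lmap).
change: integral_image_eq_integral_abs_det_fderiv_smul and integrableOn_image_iff_integrableOn_abs_det_fderiv_smul on W, tau i '' W = W (tau_mem, tau_ne, tau_tau),
det_tau removes the absolute value; den and deni vanish for y.2 = 0 (ev_of_not_mem), Dm_ae.
-/

set_option maxSynthPendingDepth 3

open Set Filter Topology MeasureTheory
open scoped ContDiff Quaternion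

noncomputable section
namespace Pool.Agent.Work.MP_8c604c_gt.C

open H T TopologicalSpace Lam Om

variable {n : ℕ}

/-- The derivative of the action. -/
def ChangeD (p : (ℍ × ℝ × ℍ) × VV n) : (ℍ × ℝ × ℍ) × VV n →L[ℝ] VV n :=
  fderiv ℝ (fun p : (ℍ × ℝ × ℍ) × VV n => act p.1.1 p.1.2.1 p.1.2.2 p.2) p

theorem Change_D (p : (ℍ × ℝ × ℍ) × VV n) : fderiv ℝ (actB n).a.toFun p = ChangeD p := rfl

theorem Change_apply (p v : (ℍ × ℝ × ℍ) × VV n) : ChangeD p v = act p.1.1 p.1.2.1 p.1.2.2 v.2 +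
    (v.1.1 • p.2.1, v.1.1 • (p.1.2.1 • p.2.2 + p.1.2.2 • p.2.1) +
      p.1.1 • (v.1.2.1 • p.2.2 + v.1.2.2 • p.2.1)) := by
  have a1 := (hasFDerivAt_fst (𝕜 := ℝ) (p := p)).fst
  have a2 := (hasFDerivAt_fst (𝕜 := ℝ) (p := p)).snd.fst
  have a3 := (hasFDerivAt_fst (𝕜 := ℝ) (p := p)).snd.snd
  have b1 := (hasFDerivAt_snd (𝕜 := ℝ) (p := p)).fst
  have b2 := (hasFDerivAt_snd (𝕜 := ℝ) (p := p)).snd
  have h : ChangeD p = _ := ((a1.smul b1).prodMk (a1.smul ((a2.smul b2).add (a3.smul b1)))).fderiv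
  rw [h]
  refine Prod.ext rfl ?_
  change p.1.1 • (p.1.2.1 • v.2.2 + v.1.2.1 • p.2.2 + (p.1.2.2 • v.2.1 + v.1.2.2 • p.2.1)) +
    v.1.1 • (p.1.2.1 • p.2.2 + p.1.2.2 • p.2.1) = p.1.1 • (p.1.2.1 • v.2.2 + p.1.2.2 • v.2.1) +
      (v.1.1 • (p.1.2.1 • p.2.2 + p.1.2.2 • p.2.1) + p.1.1 • (v.1.2.1 • p.2.2 + v.1.2.2 • p.2.1))
  simp only [smul_add]
  abel

theorem Change_e (x : VV n) (l c : ℍ) (a : ℝ) : ChangeD ((actB n).e, x) ((l, a, c), 0) =
    (l • x.1, l • x.2 + c • x.1 + a • x.2) := by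
  rw [Change_apply]
  simp [actB, act, add_comm, add_left_comm]

theorem basic_horizontal {γ : Om (UO n)} (h : γ ∈ (actB n).Basic) {x : VV n} (hx : x ∈ OO n)
    {v : VV n} (hv : v ∈ Bdir x) : ctr v (ev γ x) = 0 := by
  obtain ⟨l, c, a, rfl⟩ := mem_Bdir.1 hv
  have := (actB n).horizontal h hx (l, a, c)
  rwa [Change_D, Change_e] at this

theorem one1_basic {θ : VV n → VV n →L[ℝ] ℝ} (hθ : ContDiffOn ℝ ∞ θ (UO n))
    (h1 : ∀ l m c x δ, l ≠ 0 → 0 < m → x ∈ OO n → θ (act l m c x) (act l m c δ) = θ x δ)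
    (h2 : ∀ x ∈ OO n, ∀ v ∈ Bdir x, θ x v = 0) : one1 θ hθ ∈ (actB n).Basic := by
  refine (actB n).one1_mem hθ fun p hp x hx v => ?_
  rw [Change_D, Change_apply, map_add]
  have hl : p.1 ≠ 0 := hp.1
  have hm : p.2.1 ≠ 0 := ne_of_gt hp.2
  have h3 := h2 _ (act_mem p.2.2 hp.1 hp.2 hx) _ (mem_Bdir.2 ⟨v.1.1 * p.1⁻¹,
    p.1 * (v.1.2.2 - (v.1.2.1 / p.2.1) • p.2.2) * p.1⁻¹, v.1.2.1 / p.2.1, rfl⟩)
  have h4 := h1 p.1 p.2.1 p.2.2 x v.2 hp.1 hp.2 hx
  refine Eq.trans ?_ ((congrArg₂ (· + ·) h4 h3).trans (add_zero _))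
  congr 2
  have e : ∀ (a : ℍ) (u : E n), (a * p.1⁻¹) • p.1 • u = a • u := fun a u => by
    rw [smul_smul, inv_mul_cancel_right₀ hl]
  simp only [act]
  rw [e, e, e, mul_smul, smul_comm (v.1.2.1 / p.2.1) p.1, add_assoc, ← smul_add p.1, smul_add (_ / _),
    smul_smul, div_mul_cancel₀ _ hm, sub_smul, smul_assoc]
  congr 3
  abel

theorem fn_basic {f : VV n → ℝ} (hf : ContDiffOn ℝ ∞ f (UO n)) (h : H.Inv f) :
    fn f hf ∈ (actB n).Basic := by
  exact (actB n).fn_mem hf fun p hp x hx => h _ _ _ x hp.1 hp.2 hx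

theorem alF_basic {g : Met n} (h : IsMetric g) : alF h ∈ (actB n).Basic := by
  refine one1_basic _ (fun l m c x δ hl hm hx => ?_) fun x hx v hv => ?_
  · change g (l • x.1) (vel g (act l m c x)) (l • δ.1) = g x.1 (vel g x) δ.1
    rw [h.vel_eqv l m c x hl hm hx, h.inv l _ _ _ hl hx.1]
  · obtain ⟨l, c, a, rfl⟩ := mem_Bdir.1 hv
    exact h.vert' l _ hx.1

theorem FD.alP_basic {g : Met n} (D : FD g) : D.alP ∈ (actB n).Basic := by
  exact (actB n).pull_mem_of_inv D.fM (fun p hp x hx => D.f_inv _ _ _ x hp.1 hp.2 hx) _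

theorem basic_le {γ : Om (UO n)} (h : γ ∈ (actB n).Basic) : γ ∈ (actC n).Basic := by
  exact (actB n).gauge h (SMap.snd WC (UO n)) (actC n).a
    ⟨fun q => (q.1.1, 1, q.1.2), by fun_prop, fun _ hq => ⟨hq.1, one_pos⟩⟩ fun _ _ => rfl

theorem sg_basic {s : VV n → ℝ} (hs : Adm s) : sg hs ∈ (actC n).Basic := by
  refine (actC n).d_mem ((actC n).fn_mem _ fun p hp x hx => ?_)
  change Real.smoothTransition (Real.log (s (act p.1 1 p.2 x))) = _
  rw [hs.hom _ _ _ x hp one_pos hx, one_mul]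

theorem sg_one {s : VV n → ℝ} (hs : Adm s) : IsOne (sg hs) := (isFn_fn _ _).d

theorem d_sg {s : VV n → ℝ} (hs : Adm s) : d (sg hs) = 0 := d_d _

theorem ev_sg {s : VV n → ℝ} (hs : Adm s) {x : VV n} (hx : x ∈ OO n) :
    ev (sg hs) x = (wt (Real.log (s x)) / s x) • io (fderiv ℝ s x) := by
  have h1 : HasFDerivAt s (fderiv ℝ s x) x :=
    ((hs.smooth.contDiffAt (isOpen_OO.mem_nhds hx)).differentiableAt (by simp)).hasFDerivAt
  have h2 : HasDerivAt Real.smoothTransition (wt (Real.log (s x))) (Real.log (s x)) :=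
    ((Real.smoothTransition.contDiff (n := 1)).differentiable one_ne_zero _).hasDerivAt
  have h3 := h2.comp_hasFDerivAt x (h1.log (hs.pos x hx).ne')
  rw [sg, ev_d_fn _ _ hx, ← map_smul, div_eq_mul_inv, mul_smul]
  exact congrArg _ h3.fderiv

/-- The common domain of two charts. -/
def ChangeW (i : Fin (n + 1)) : Opens (CH n) :=
  ⟨{y | y ∈ Dm i ∧ y.2 ≠ 0}, (isOpen_Dm i).inter (U0 n).isOpen⟩

theorem Change_co (i : Fin (n + 1)) :
    ContDiff ℝ ∞ (fun y : CH n => (sc i y).1 0) ∧ ContDiff ℝ ∞ fun y : CH n => (sc i y).2 0 := by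
  have h : ContDiff ℝ ∞ (sc i : CH n → VV n) := (sw2 i).contDiff.comp contDiff_sc0
  exact ⟨(PiLp.proj 2 (𝕜 := ℝ) (fun _ : Fin (n + 1) => ℍ) 0).contDiff.comp h.fst,
    (PiLp.proj 2 (𝕜 := ℝ) (fun _ : Fin (n + 1) => ℍ) 0).contDiff.comp h.snd⟩

theorem Change_inv (i : Fin (n + 1)) :
    ContDiffOn ℝ ∞ (fun y : CH n => ((sc i y).1 0)⁻¹) (ChangeW i) := fun y hy => by
  have h := contDiffAt_ringInverse ℝ (n := ∞) (Units.mk0 _ hy.1)
  rw [Ring.inverse_eq_inv'] at h
  exact (h.comp y (Change_co i).1.contDiffAt).contDiffWithinAt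

theorem den_eq {γ : Om (UO n)} (h : γ ∈ (actC n).Basic) {i : Fin (n + 1)} {y : CH n}
    (hy : y ∈ Dm i) (h2 : y.2 ≠ 0) :
    den γ y = (fderiv ℝ (tau i) y).det * deni i γ (tau i y) := by
  have hW : y ∈ ChangeW i := ⟨hy, h2⟩
  let t : SMap (ChangeW i) (U0 n) :=
    ⟨tau i, (contDiffOn_tau i).mono fun _ hz => hz.1, fun _ hz => tau_ne hz.1 hz.2⟩
  let j : SMap (ChangeW i) (U0 n) := ⟨id, contDiffOn_id, fun _ hz => hz.2⟩
  have h1 := (actC n).gauge h ((sec0 n).comp j) ((sec i).comp t)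
    ⟨fun z => (((sc i z).1 0)⁻¹, -((sc i z).2 0 * ((sc i z).1 0)⁻¹)),
      (Change_inv i).prodMk ((Change_co i).2.contDiffOn.mul (Change_inv i)).neg,
      fun _ hz => inv_ne_zero hz.1⟩ fun _ hz => sc_tau hz.1
  have h3 := congrArg (fun η => top (ev η y)) h1
  simp only [pull_comp, ev_pull t _ hW, ev_pull j _ hW, top_lmap] at h3
  have h4 : (fderiv ℝ j.toFun y).det = 1 := by
    rw [show fderiv ℝ j.toFun y = ContinuousLinearMap.id ℝ _ from fderiv_id]
    exact LinearMap.det_id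
  rw [h4, one_mul] at h3
  exact h3.symm

theorem change {γ : Om (UO n)} (h : γ ∈ (actC n).Basic) {i : Fin (n + 1)}
    (hi : Integrable (deni i γ)) : Integrable (den γ) ∧ ∫ y, den γ y = ∫ y, deni i γ y := by
  have hm : MeasurableSet (ChangeW i : Set (CH n)) := (ChangeW i).isOpen.measurableSet
  have hd : ∀ y ∈ (ChangeW i : Set (CH n)),
      HasFDerivWithinAt (tau i) (fderiv ℝ (tau i) y) (ChangeW i) y := fun y hy =>
    ((((contDiffOn_tau i).contDiffAt ((isOpen_Dm i).mem_nhds hy.1)).differentiableAt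
      (by simp)).hasFDerivAt).hasFDerivWithinAt
  have hj : InjOn (tau i) (ChangeW i) := fun y hy z hz e => by
    rw [← tau_tau hy.1, e, tau_tau hz.1]
  have hI : tau i '' (ChangeW i) = ChangeW i := by
    refine Subset.antisymm ?_ fun y hy => ⟨tau i y, ⟨tau_mem hy.1, tau_ne hy.1 hy.2⟩, tau_tau hy.1⟩
    rintro _ ⟨y, hy, rfl⟩
    exact ⟨tau_mem hy.1, tau_ne hy.1 hy.2⟩
  have hE : EqOn (fun y => |(fderiv ℝ (tau i) y).det| • deni i γ (tau i y)) (den γ) (ChangeW i) :=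
    fun y hy => by
      rw [den_eq h hy.1 hy.2]
      simp only [abs_of_nonneg (det_tau hy.1), smul_eq_mul]
  have hz : ∀ η : Om (U0 n), ∀ᵐ y : CH n, y ∉ (ChangeW i : Set (CH n)) → top (ev η y) = 0 := fun η => by
    filter_upwards [Dm_ae i] with y hy h1
    rw [ev_of_not_mem _ fun h2 => h1 ⟨hy, h2⟩, map_zero]
  have h1 := (integrableOn_image_iff_integrableOn_abs_det_fderiv_smul volume hm hd hj (deni i γ)).1
    hi.integrableOn
  have h2 := integral_image_eq_integral_abs_det_fderiv_smul volume hm hd hj (deni i γ)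
  rw [hI, setIntegral_congr_fun hm hE,
    setIntegral_eq_integral_of_ae_compl_eq_zero (f := deni i γ) (hz _),
    setIntegral_eq_integral_of_ae_compl_eq_zero (f := den γ) (hz _)] at h2
  refine ⟨?_, h2.symm⟩
  have h3 := (h1.congr_fun hE hm).integrable_indicator hm
  refine h3.congr ?_
  filter_upwards [hz (pull (sec0 n) γ)] with y hy
  by_cases h4 : y ∈ (ChangeW i : Set (CH n))
  · exact indicator_of_mem h4 _
  · rw [indicator_of_notMem h4]
    exact (hy h4).symm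

end Pool.Agent.Work.MP_8c604c_gt.C
end
end
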