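import Pool.Agent.Work.MP_8c604c_gt.H.Dist
import Pool.Agent.Work.MP_8c604c_gt.C.Change
import Pool.Agent.Work.MP_8c604c_gt.ODE
import Pool.Agent.Work.MP_8c604c_gt.H.Base
import Pool.Agent.Work.MP_8c604c_gt.OB.Lp
import Pool.Agent.Work.MP_8c604c_gt.OS.Saw
import Pool.Agent.Work.MP_8c604c_gt.B.Ctr
import Pool.Agent.Work.MP_8c604c_gt.T.OutS

-- merged part: Pool.Agent.Work.MP_8c604c_gt.H.NCAux
section
/-!
Second variation estimate for one smooth piece of a varied geodesic.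
-/

set_option maxSynthPendingDepth 3

open Set Filter Topology MeasureTheory
open scoped ContDiff Quaternion

noncomputable section
namespace Pool.Agent.Work.MP_8c604c_gt.H

variable {n : ℕ} {g : Met n}

theorem nc_open : IsOpen {p : VV n | p.1 ≠ 0} :=
  isOpen_ne_fun continuous_fst continuous_const

theorem IsMetric.nc_cont_D1 (h : IsMetric g) :
    ContinuousOn (fderiv ℝ (Lg g)) {p : VV n | p.1 ≠ 0} :=
  h.contDiffOn_Lg.continuousOn_fderiv_of_isOpen nc_open (by simp)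

theorem IsMetric.nc_cont_D2 (h : IsMetric g) :
    ContinuousOn (fderiv ℝ (fderiv ℝ (Lg g))) {p : VV n | p.1 ≠ 0} := by
  have h1 : ContDiffOn ℝ ∞ (fderiv ℝ (Lg g)) {p : VV n | p.1 ≠ 0} :=
    h.contDiffOn_Lg.fderiv_of_isOpen nc_open (by simp)
  exact h1.continuousOn_fderiv_of_isOpen nc_open (by simp)

namespace Geo
variable (G : Geo g) (h : IsMetric g)
include h

theorem nc_cont_Z {x : VV n} (hx : x ∈ OO n) : Continuous fun t => G.Z t x :=
  continuous_iff_continuousAt.2 fun t => (G.hasDerivAt_Z h t hx).continuousAt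

theorem nc_cont_vel {x : VV n} (hx : x ∈ OO n) : Continuous fun t => vel g (G.psi t x) := by
  have h1 : Continuous fun t => G.psi t x :=
    (G.contDiffOn_psi h).continuousOn.comp_continuous (f := fun t : ℝ => (t, x)) (by fun_prop)
      (fun _ => hx)
  exact h.contDiffOn_vel.continuousOn.comp_continuous h1 (fun t => G.psi_mem h t hx)

theorem nc_cont_JD {x : VV n} (hx : x ∈ OO n) (ξ : VV n) : Continuous fun t => G.JD t x ξ := by
  have h1 : Continuous fun t => G.JD t x :=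
    (G.contDiffOn_JD h).continuousOn.comp_continuous (f := fun t : ℝ => (t, x)) (by fun_prop)
      (fun _ => hx)
  exact h1.clm_apply continuous_const

theorem nc_cont_p {x : VV n} (hx : x ∈ OO n) :
    Continuous fun t => ((G.Z t x, vel g (G.psi t x)) : VV n) :=
  (G.nc_cont_Z h hx).prodMk (G.nc_cont_vel h hx)

theorem nc_cont_second {x : VV n} (hx : x ∈ OO n) :
    Continuous fun t => fderiv ℝ (fderiv ℝ (Lg g)) ((G.Z t x, vel g (G.psi t x)) : VV n) :=
  h.nc_cont_D2.comp_continuous (G.nc_cont_p h hx) (fun t => G.Z_ne h t hx)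

theorem nc_cont_DD {x : VV n} (hx : x ∈ OO n) {η η' : ℝ → E n} (hη : Continuous η)
    (hη' : Continuous η') :
    Continuous fun t => D2 g (G.Z t x, vel g (G.psi t x)) (η t, η' t) (η t, η' t) :=
  ((G.nc_cont_second h hx).clm_apply (hη.prodMk hη')).clm_apply (hη.prodMk hη')

theorem nc_piece {x : VV n} (hx : x ∈ OO n) {a b : ℝ} (hab : a ≤ b) {η η' : ℝ → E n}
    (hη : ∀ t, HasDerivAt η (η' t) t) (hη' : Continuous η') :
    ∃ C δ : ℝ, 0 < δ ∧ ∀ ε : ℝ, 0 ≤ ε → ε ≤ δ →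
      (G.Z a x + ε • η a ≠ 0 ∧ G.Z b x + ε • η b ≠ 0) ∧
      dd g (G.Z a x + ε • η a) (G.Z b x + ε • η b) ≤ (b - a) +
        ε * (g (G.Z b x) (vel g (G.psi b x)) (η b) - g (G.Z a x) (vel g (G.psi a x)) (η a)) +
        ε ^ 2 / 2 * (∫ t in a..b, D2 g (G.Z t x, vel g (G.psi t x)) (η t, η' t) (η t, η' t)) +
        C * ε ^ 3 := by
  have hηc : Continuous η := continuous_iff_continuousAt.2 fun t => (hη t).continuousAt
  have hp := G.nc_cont_p h hx
  have hξ : Continuous fun t => ((η t, η' t) : VV n) := hηc.prodMk hη'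
  obtain ⟨C₀, δ₀, hC₀, hδ₀, hT⟩ := taylor_two nc_open h.contDiffOn_Lg
    (isCompact_Icc (a := a) (b := b) |>.image hp)
    (by rintro _ ⟨t, _, rfl⟩; exact G.Z_ne h t hx)
  obtain ⟨M, hM⟩ := (isCompact_Icc (a := a) (b := b)).exists_bound_of_continuousOn hξ.continuousOn
  have hM0 : 0 ≤ M := (norm_nonneg _).trans (hM a ⟨le_rfl, hab⟩)
  refine ⟨(b - a) * (C₀ * M ^ 3), δ₀ / (M + 1), by positivity, fun ε hε hεδ => ?_⟩
  have key : ∀ t ∈ Icc a b, G.Z t x + ε • η t ≠ 0 ∧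
      Lg g (G.Z t x + ε • η t, vel g (G.psi t x) + ε • η' t) ≤ 1 / 2 +
        ε * fderiv ℝ (Lg g) (G.Z t x, vel g (G.psi t x)) (η t, η' t) +
        ε ^ 2 / 2 * D2 g (G.Z t x, vel g (G.psi t x)) (η t, η' t) (η t, η' t) +
        C₀ * M ^ 3 * ε ^ 3 := by
    intro t ht
    have hm := hM t ht
    have h1 : ε * ‖((η t, η' t) : VV n)‖ ≤ δ₀ := by
      calc ε * ‖((η t, η' t) : VV n)‖ ≤ δ₀ / (M + 1) * (M + 1) := by
            apply mul_le_mul hεδ (by linarith only [hm]) (norm_nonneg _) (by positivity)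
        _ = δ₀ := by field_simp
    obtain ⟨h2, h3⟩ := hT (G.Z t x, vel g (G.psi t x)) ⟨t, ht, rfl⟩ 0 (η t, η' t) ε hε
      (by simpa using h1)
    have e1 : ((G.Z t x, vel g (G.psi t x)) : VV n) + 0 + ε • ((η t, η' t) : VV n) =
        (G.Z t x + ε • η t, vel g (G.psi t x) + ε • η' t) := by simp
    rw [e1] at h2 h3
    refine ⟨h2, ?_⟩
    have e2 : Lg g ((G.Z t x, vel g (G.psi t x)) + 0) = 1 / 2 := by
      rw [add_zero]
      have := h.vel_unit (G.psi_mem h t hx)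
      show 1 / 2 * g (G.psi t x).1 (vel g (G.psi t x)) (vel g (G.psi t x)) = 1 / 2
      rw [this]; norm_num
    rw [e2] at h3
    simp only [map_zero, zero_apply, mul_zero, add_zero, norm_zero,
      zero_add] at h3
    have h4 : C₀ * ε * (ε * ‖((η t, η' t) : VV n)‖) ^ 2 * ‖((η t, η' t) : VV n)‖ ≤
        C₀ * M ^ 3 * ε ^ 3 := by
      have : ‖((η t, η' t) : VV n)‖ ^ 3 ≤ M ^ 3 := pow_le_pow_left₀ (norm_nonneg _) hm 3
      calc C₀ * ε * (ε * ‖((η t, η' t) : VV n)‖) ^ 2 * ‖((η t, η' t) : VV n)‖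
          = C₀ * ‖((η t, η' t) : VV n)‖ ^ 3 * ε ^ 3 := by ring
        _ ≤ C₀ * M ^ 3 * ε ^ 3 := by gcongr
    unfold D2
    linarith only [h3, h4]
  refine ⟨⟨(key a ⟨le_rfl, hab⟩).1, (key b ⟨hab, le_rfl⟩).1⟩, ?_⟩
  have hc : ∀ t, HasDerivAt (fun s => G.Z s x + ε • η s) (vel g (G.psi t x) + ε • η' t) t :=
    fun t => (G.hasDerivAt_Z h t hx).add ((hη t).const_smul ε)
  have hcc : Continuous fun s => G.Z s x + ε • η s := (G.nc_cont_Z h hx).add (hηc.const_smul ε)
  have hcc' : Continuous fun t => vel g (G.psi t x) + ε • η' t :=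
    (G.nc_cont_vel h hx).add (hη'.const_smul ε)
  have i1 := h.dd_le_curve (c := fun s => G.Z s x + ε • η s)
    (c' := fun t => vel g (G.psi t x) + ε • η' t) hab (fun t _ => hc t) hcc'.continuousOn
    (fun t ht => (key t ht).1)
  have i2 := h.len_le_energy (c := fun s => G.Z s x + ε • η s)
    (c' := fun t => vel g (G.psi t x) + ε • η' t) hab hcc.continuousOn hcc'.continuousOn
    (fun t ht => (key t ht).1)
  have c1 : Continuous fun t => fderiv ℝ (Lg g) (G.Z t x, vel g (G.psi t x)) (η t, η' t) :=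
    (h.nc_cont_D1.comp_continuous hp (fun t => G.Z_ne h t hx)).clm_apply hξ
  have c2 := G.nc_cont_DD h hx hηc hη'
  have c3 : ContinuousOn (fun t => Lg g (G.Z t x + ε • η t, vel g (G.psi t x) + ε • η' t))
      (Icc a b) :=
    h.contDiffOn_Lg.continuousOn.comp (hcc.prodMk hcc').continuousOn (fun t ht => (key t ht).1)
  have i3 : (∫ t in a..b, Lg g (G.Z t x + ε • η t, vel g (G.psi t x) + ε • η' t)) ≤
      ∫ t in a..b, (1 / 2 +
        ε * fderiv ℝ (Lg g) (G.Z t x, vel g (G.psi t x)) (η t, η' t) +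
        ε ^ 2 / 2 * D2 g (G.Z t x, vel g (G.psi t x)) (η t, η' t) (η t, η' t) +
        C₀ * M ^ 3 * ε ^ 3) := by
    apply intervalIntegral.integral_mono_on hab
    · exact (c3.mono (by rw [uIcc_of_le hab])).intervalIntegrable
    · exact Continuous.intervalIntegrable (by fun_prop) _ _
    · exact fun t ht => (key t ht).2
  have i4 : (∫ t in a..b, fderiv ℝ (Lg g) (G.Z t x, vel g (G.psi t x)) (η t, η' t)) =
      g (G.Z b x) (vel g (G.psi b x)) (η b) - g (G.Z a x) (vel g (G.psi a x)) (η a) :=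
    intervalIntegral.integral_eq_sub_of_hasDerivAt
      (f := fun s => g (G.Z s x) (vel g (G.psi s x)) (η s))
      (fun t _ => G.first_var h t hx (hη t)) (c1.intervalIntegrable _ _)
  rw [intervalIntegral.integral_add (Continuous.intervalIntegrable (by fun_prop) _ _)
      (Continuous.intervalIntegrable (by fun_prop) _ _),
    intervalIntegral.integral_add (Continuous.intervalIntegrable (by fun_prop) _ _)
      (Continuous.intervalIntegrable (by fun_prop) _ _),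
    intervalIntegral.integral_add (Continuous.intervalIntegrable (by fun_prop) _ _)
      (Continuous.intervalIntegrable (by fun_prop) _ _),
    intervalIntegral.integral_const_mul, intervalIntegral.integral_const_mul, i4,
    intervalIntegral.integral_const, intervalIntegral.integral_const, smul_eq_mul,
    smul_eq_mul] at i3
  linarith only [i1, i2, i3, i1, i2, i3]

end Geo

end Pool.Agent.Work.MP_8c604c_gt.H
end
end

-- merged part: Pool.Agent.Work.MP_8c604c_gt.H.NC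
section
/-!
No conjugate points before pi/2 (Jacobi).
Hints. Suppose JH t0 x (0,u) = 0, u not in Bs x. Let J = JJ . x (0,u) - c Z = JJ . x xi with xi = (0,u) - c x, so that J t0 = 0,
J 0 = - c z is vertical. By star and om_fibre-type nondegeneracy (om_psi, om_fibre) g(J' t0, J' t0) > 0. For s < t0 close to t0
let eta = J on [0,s], eta t = ((t1 - t)/(t1 - s)) J s on [s,t1], t0 < t1 < pi/2. Second variation = [PP xi (J)]_0^s + O(|J s|^2)
= -(t0 - s) g(J',J') + O((t0-s)^2) < 0 (PP 0 xi (J 0) = 0 by gauge invariance). By taylor_two (y = 0), first_var and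
len_le_energy the two-piece curve Z + eps eta has length < t1, contradicting dd_Z via dd_triangle and dd_le_curve.
-/

set_option maxSynthPendingDepth 3

open Set Filter Topology MeasureTheory
open scoped ContDiff Quaternion

noncomputable section
namespace Pool.Agent.Work.MP_8c604c_gt.H

variable {n : ℕ} {g : Met n}

theorem nc_om_sub (x a b δ : VV n) : om g x (a - b) δ = om g x a δ - om g x b δ := by
  simp only [om, map_sub, Prod.fst_sub, sub_apply]
  ring

theorem nc_smul_mem (x : VV n) (c : ℍ) : c • x ∈ Bdir x :=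
  mem_Bdir.2 ⟨c, 0, 0, by ext1 <;> simp⟩

namespace Geo
variable (G : Geo g) (h : IsMetric g)
include h

/-- A fibre vector in the kernel of the symplectic form is trivial. -/
theorem nc_fibre_ker {x : VV n} (hx : x ∈ OO n) {u : E n} (hu : ∀ δ, om g x (0, u) δ = 0) :
    u ∈ Bs x := by
  have hs := h.spd_pos hx
  have h1 := hu (u - g x.1 (vel g x) u • vel g x, 0)
  rw [om_fibre h hx] at h1
  have h2 := (mul_eq_zero.1 h1).resolve_left (inv_ne_zero hs.ne')
  have hv := h.vel_unit hx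
  have hsym := h.symm x.1 u (vel g x) hx.1
  have h3 : g x.1 (u - g x.1 (vel g x) u • vel g x) (u - g x.1 (vel g x) u • vel g x) = 0 := by
    simp only [map_sub, map_smul, sub_apply, smul_apply,
      smul_eq_mul] at h2 ⊢
    rw [hv, hsym] at h2 ⊢
    linarith only [h2]
  obtain ⟨c, hc⟩ := (hor_eq_zero_iff hx.1 _).1 (h.hor_eq_zero hx.1 h3)
  set a := g x.1 (vel g x) u
  refine mem_Bs.2 ⟨c - ((a * (spd g x)⁻¹ : ℝ) : ℍ) * nu x.1 x.2, a * (spd g x)⁻¹, ?_⟩
  have e : u = c • x.1 + a • vel g x := by rw [← hc]; abel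
  rw [e, vel, hor_def, smul_smul, smul_sub, sub_smul, mul_smul _ (nu x.1 x.2), coe_smul]
  abel

/-- At a zero of a nontrivial Jacobi field the derivative is not vertical. -/
theorem nc_pos {x : VV n} (hx : x ∈ OO n) {t : ℝ} {u : E n} {c : ℍ}
    (h0 : G.JJ t x ((0, u) - c • x) = 0) (hu : u ∉ Bs x) :
    0 < g (G.Z t x) (G.JD t x ((0, u) - c • x)) (G.JD t x ((0, u) - c • x)) := by
  have hZ := G.Z_ne h t hx
  refine lt_of_le_of_ne (h.nonneg hZ _) fun e => hu ?_
  obtain ⟨c', hc'⟩ := (hor_eq_zero_iff hZ _).1 (h.hor_eq_zero hZ e.symm)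
  refine nc_fibre_ker h hx fun δ => ?_
  have h1 := G.om_inv h t hx ((0, u) - c • x) δ
  rw [nc_om_sub, om_Bdir h hx (nc_smul_mem x c), G.PP_apply h t hx, h0, hc', h.vert _ _ _ hZ]
    at h1
  simpa using h1.symm

theorem nc_PP_zero {x : VV n} (hx : x ∈ OO n) (ξ : VV n) {c : ℍ} (h0 : G.JJ 0 x ξ = c • x.1) :
    G.PP 0 x ξ (G.JJ 0 x ξ) = 0 := by
  have hZ : G.Z 0 x = x.1 := by rw [Geo.Z, G.psi_zero h hx]
  rw [G.PP_apply h 0 hx, h0, hZ, h.vert' _ _ hx.1, h.fderiv_vert_arg c hx.1, smul_smul,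
    h.vert' _ _ hx.1]
  simp

/-- The second variation of the linear piece is quadratically small. -/
theorem nc_lin_bound {x : VV n} (hx : x ∈ OO n) {t₀ t₁ : ℝ} (h01 : t₀ < t₁) :
    ∃ C : ℝ, ∀ s ∈ Icc 0 t₀, ∀ w : E n,
      (∫ t in s..t₁, D2 g (G.Z t x, vel g (G.psi t x))
        (((t₁ - t) / (t₁ - s)) • w, (-1 / (t₁ - s)) • w)
        (((t₁ - t) / (t₁ - s)) • w, (-1 / (t₁ - s)) • w)) ≤ C * ‖w‖ ^ 2 := by
  obtain ⟨M, hM⟩ := (isCompact_Icc (a := 0) (b := t₁)).exists_bound_of_continuousOn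
    (G.nc_cont_second h hx).continuousOn
  refine ⟨t₁ * (|M| * (1 + 1 / (t₁ - t₀)) ^ 2), fun s hs w => ?_⟩
  have hst : s < t₁ := lt_of_le_of_lt hs.2 h01
  have hd : 0 < t₁ - s := by linarith
  have hd0 : 0 < t₁ - t₀ := by linarith
  have key : ∀ t ∈ Icc s t₁, D2 g (G.Z t x, vel g (G.psi t x))
        (((t₁ - t) / (t₁ - s)) • w, (-1 / (t₁ - s)) • w)
        (((t₁ - t) / (t₁ - s)) • w, (-1 / (t₁ - s)) • w) ≤
        |M| * (1 + 1 / (t₁ - t₀)) ^ 2 * ‖w‖ ^ 2 := by
    intro t ht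
    have hm := (hM t ⟨hs.1.trans ht.1, ht.2⟩).trans (le_abs_self M)
    have hq : 0 < 1 / (t₁ - t₀) := by positivity
    have hn : ‖((((t₁ - t) / (t₁ - s)) • w, (-1 / (t₁ - s)) • w) : VV n)‖ ≤
        (1 + 1 / (t₁ - t₀)) * ‖w‖ := by
      rw [Prod.norm_def]
      apply max_le
      · rw [norm_smul, Real.norm_eq_abs, abs_of_nonneg (div_nonneg (by linarith [ht.2]) hd.le)]
        have : (t₁ - t) / (t₁ - s) ≤ 1 := (div_le_one hd).2 (by linarith [ht.1])
        exact mul_le_mul_of_nonneg_right (by linarith only [hq, this]) (norm_nonneg _)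
      · rw [norm_smul, Real.norm_eq_abs, abs_div, abs_neg, abs_one, abs_of_pos hd]
        have : 1 / (t₁ - s) ≤ 1 / (t₁ - t₀) := one_div_le_one_div_of_le hd0 (by linarith [hs.2])
        exact mul_le_mul_of_nonneg_right (by linarith only [this]) (norm_nonneg _)
    refine (le_abs_self _).trans ?_
    rw [← Real.norm_eq_abs]
    refine (ContinuousLinearMap.le_opNorm₂ _ _ _).trans ?_
    calc _ ≤ |M| * ((1 + 1 / (t₁ - t₀)) * ‖w‖) * ((1 + 1 / (t₁ - t₀)) * ‖w‖) := by gcongr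
      _ = _ := by ring
  have hc := G.nc_cont_DD h hx (η := fun t => ((t₁ - t) / (t₁ - s)) • w)
    (η' := fun _ => (-1 / (t₁ - s)) • w) (by fun_prop) (by fun_prop)
  have i1 := intervalIntegral.integral_mono_on (μ := volume) hst.le (hc.intervalIntegrable _ _)
    (continuous_const.intervalIntegrable _ _) key
  refine i1.trans ?_
  rw [intervalIntegral.integral_const, smul_eq_mul, mul_assoc t₁]
  exact mul_le_mul_of_nonneg_right (by linarith only [hs, hs.1]) (by positivity)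

end Geo

theorem nc_neg_left {F : ℝ → ℝ} {F' t₀ : ℝ} (hF : HasDerivAt F F' t₀) (hp : 0 < F')
    (h0 : F t₀ = 0) (ht : 0 < t₀) : ∃ s ∈ Ioo 0 t₀, F s < 0 := by
  have h1 : Tendsto (slope F t₀) (𝓝[<] t₀) (𝓝 F') :=
    (hasDerivAt_iff_tendsto_slope.1 hF).mono_left (nhdsLT_le_nhdsNE t₀)
  have h2 : ∀ᶠ s in 𝓝[<] t₀, 0 < slope F t₀ s := h1.eventually (lt_mem_nhds hp)
  obtain ⟨s, hs1, hs2⟩ := (h2.and (Ioo_mem_nhdsLT ht)).exists
  refine ⟨s, hs2, ?_⟩
  rw [slope_def_field, h0, sub_zero] at hs1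
  have : s - t₀ < 0 := by linarith [hs2.2]
  rcases div_pos_iff.1 hs1 with h | h
  · linarith [h.2]
  · exact h.1

theorem nc_small {A C δ : ℝ} (hA : A < 0) (hδ : 0 < δ) :
    ∃ ε : ℝ, 0 ≤ ε ∧ ε ≤ δ ∧ ε ^ 2 / 2 * A + C * ε ^ 3 < 0 := by
  have hq : 0 < -A / (4 * (|C| + 1)) := div_pos (by linarith) (by positivity)
  refine ⟨min δ (-A / (4 * (|C| + 1))), (lt_min hδ hq).le, min_le_left _ _, ?_⟩
  set ε := min δ (-A / (4 * (|C| + 1)))
  have hε : 0 < ε := lt_min hδ hq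
  have h1 : ε ≤ -A / (4 * (|C| + 1)) := min_le_right _ _
  rw [le_div_iff₀ (by positivity)] at h1
  have h2 : C * ε ≤ (|C| + 1) * ε :=
    mul_le_mul_of_nonneg_right (by linarith [le_abs_self C]) hε.le
  have h3 : A / 2 + C * ε < 0 := by linarith only [hA, h1, h2]
  have h4 : ε ^ 2 / 2 * A + C * ε ^ 3 = ε ^ 2 * (A / 2 + C * ε) := by ring
  rw [h4]
  exact mul_neg_of_pos_of_neg (by positivity) h3

theorem Geo.nc_fderiv_ex_vert (G : Geo g) {q : E n} (hq : q ≠ 0) (u₀ : E n) (c : ℍ) :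
    fderiv ℝ (G.ex q) (u₀ + c • q) = fderiv ℝ (G.ex q) u₀ := by
  rw [← fderiv_comp_add_right]
  congr 1
  funext u
  exact G.ex_add_vert hq u c

theorem Geo.nc_diff_ex (G : Geo g) {q : E n} (hq : q ≠ 0) (u₀ : E n) :
    DifferentiableAt ℝ (G.ex q) u₀ := by
  have h1 : ContDiffAt ℝ ∞ (fun p : VV n => G.ex p.1 p.2) (q, u₀) :=
    G.contDiffOn_ex.contDiffAt (nc_open.mem_nhds hq)
  have h2 : DifferentiableAt ℝ (fun u : E n => ((q, u) : VV n)) u₀ := by fun_prop
  exact (h1.differentiableAt (by simp)).comp u₀ h2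

theorem Geo.nc_fderiv_ex_kill (G : Geo g) {q : E n} (hq : q ≠ 0) (u₀ : E n) (c : ℍ) :
    fderiv ℝ (G.ex q) u₀ (c • q) = 0 := by
  have h1 : HasDerivAt (fun τ : ℝ => u₀ + τ • (c • q)) (c • q) 0 := by
    simpa using ((hasDerivAt_id (0 : ℝ)).smul_const (c • q)).const_add u₀
  have h2 : HasFDerivAt (G.ex q) (fderiv ℝ (G.ex q) u₀) (u₀ + (0 : ℝ) • (c • q)) := by
    rw [zero_smul, add_zero]
    exact (G.nc_diff_ex hq u₀).hasFDerivAt
  have h3 := h2.comp_hasDerivAt (0 : ℝ) h1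
  have h4 : (G.ex q ∘ fun τ : ℝ => u₀ + τ • (c • q)) = fun _ => G.ex q u₀ := by
    funext τ
    simp only [Function.comp]
    rw [← coe_smul, smul_smul, G.ex_add_vert hq]
  rw [h4] at h3
  exact h3.unique (hasDerivAt_const _ _)

namespace Bl
variable {G : Geo g} (B : Bl g G)
include B

theorem no_conj {x : VV n} (hx : x ∈ OO n) {t : ℝ} (ht : t ∈ Ioo 0 (Real.pi / 2)) {u : E n}
    (hu : G.JH t x (0, u) = 0) : u ∈ Bs x := by
  by_contra hB
  have h := B.met
  have hZ := G.Z_ne h t hx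
  obtain ⟨c, hc⟩ := (hor_eq_zero_iff hZ (G.JJ t x (0, u))).1 hu
  set ξ : VV n := (0, u) - c • x with hξ
  have hJ : ∀ s, G.JJ s x ξ = G.JJ s x (0, u) - c • G.Z s x := fun s => by
    rw [hξ, map_sub, G.JJ_gauge h s hx]
  have h0 : G.JJ t x ξ = 0 := by rw [hJ, hc, sub_self]
  have hJ0 : G.JJ 0 x ξ = (-c) • x.1 := by
    rw [G.JJ_zero h hx, hξ]
    simp
  have hZ0 : G.Z 0 x = x.1 := by rw [Geo.Z, G.psi_zero h hx]
  have hpos := G.nc_pos h hx h0 hB
  obtain ⟨C, hC⟩ := G.nc_lin_bound h hx ht.2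
  have hd := fun s => G.hasDerivAt_JJ h s hx ξ
  have hF : HasDerivAt (fun s => G.PP s x ξ (G.JJ s x ξ) + C * ‖G.JJ s x ξ‖ ^ 2)
      (g (G.Z t x) (G.JD t x ξ) (G.JD t x ξ)) t := by
    have h1 := G.var h t hx ξ (hd t)
    have h2 := ((hd t).norm_sq).const_mul C
    refine (h1.add h2).congr_deriv ?_
    rw [h.D2_apply (p := (G.Z t x, vel g (G.psi t x))) hZ, h0]
    simp
  obtain ⟨s, hs, hneg⟩ := nc_neg_left hF hpos (by simp [h0]) ht.1
  have hsp : s < Real.pi / 2 := hs.2.trans ht.2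
  have hd' : 0 < Real.pi / 2 - s := by linarith only [hsp]
  obtain ⟨C₁, δ₁, hδ₁, p₁⟩ := G.nc_piece h hx hs.1.le hd (G.nc_cont_JD h hx ξ)
  obtain ⟨C₂, δ₂, hδ₂, p₂⟩ := G.nc_piece h hx hsp.le
    (η := fun τ => ((Real.pi / 2 - τ) / (Real.pi / 2 - s)) • G.JJ s x ξ)
    (η' := fun _ => (-1 / (Real.pi / 2 - s)) • G.JJ s x ξ)
    (fun τ => by
      have := (((hasDerivAt_id τ).const_sub (Real.pi / 2)).div_const
        (Real.pi / 2 - s)).smul_const (G.JJ s x ξ)
      simpa using this) continuous_const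
  obtain ⟨ε, hε0, hε1, hε⟩ := nc_small (C := C₁ + C₂) hneg (lt_min hδ₁ hδ₂)
  obtain ⟨⟨n₁, n₂⟩, q₁⟩ := p₁ ε hε0 (hε1.trans (min_le_left _ _))
  obtain ⟨-, q₂⟩ := p₂ ε hε0 (hε1.trans (min_le_right _ _))
  have i1 : (∫ τ in (0 : ℝ)..s, D2 g (G.Z τ x, vel g (G.psi τ x)) (G.JJ τ x ξ, G.JD τ x ξ)
      (G.JJ τ x ξ, G.JD τ x ξ)) = G.PP s x ξ (G.JJ s x ξ) - G.PP 0 x ξ (G.JJ 0 x ξ) :=
    intervalIntegral.integral_eq_sub_of_hasDerivAt (f := fun τ => G.PP τ x ξ (G.JJ τ x ξ))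
      (fun τ _ => G.var h τ hx ξ (hd τ))
      ((G.nc_cont_DD h hx (continuous_iff_continuousAt.2 fun τ => (hd τ).continuousAt)
        (G.nc_cont_JD h hx ξ)).intervalIntegrable _ _)
  rw [G.nc_PP_zero h hx ξ hJ0, sub_zero] at i1
  have i2 := hC s ⟨hs.1.le, hs.2.le⟩ (G.JJ s x ξ)
  rw [i1] at q₁
  simp only [div_self hd'.ne', one_smul, sub_self, zero_div, zero_smul, smul_zero, add_zero,
    map_zero] at q₂
  have e0 : G.Z 0 x + ε • G.JJ 0 x ξ = (1 - ε * c) • G.Z 0 x := by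
    rw [hJ0, hZ0, ← coe_smul, smul_smul, sub_smul, one_smul, mul_neg, neg_smul]
    abel
  have hl : (1 - ε * c : ℍ) ≠ 0 := by
    intro e
    apply n₁
    rw [e0, e, zero_smul]
  have e1 : g (G.Z 0 x) (vel g (G.psi 0 x)) (G.JJ 0 x ξ) = 0 := by
    rw [hJ0, hZ0, h.vert' _ _ hx.1]
  have tri := h.dd_triangle n₁ n₂ (G.Z_ne h (Real.pi / 2) hx)
  have e2 : dd g (G.Z 0 x + ε • G.JJ 0 x ξ) (G.Z (Real.pi / 2) x) = Real.pi / 2 := by
    have hp : (0 : ℝ) ≤ Real.pi / 2 := by positivity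
    rw [e0, h.dd_smul_left hl, B.dd_Z hx (by rw [sub_zero, abs_of_nonneg hp]), sub_zero,
      abs_of_nonneg hp]
  rw [e1] at q₁
  rw [e2] at tri
  have i3 := mul_le_mul_of_nonneg_left i2 (by positivity : (0 : ℝ) ≤ ε ^ 2 / 2)
  linarith only [hε, q₁, q₂, tri, i3, q₁, q₂, tri, i3, hε]

theorem nc_pair_small {x : VV n} (hx : x ∈ OO n) {s t : ℝ} (hst : t - s ∈ Ioo 0 (Real.pi / 2))
    {ξ : VV n} (hs : G.JH s x ξ = 0) (ht : G.JH t x ξ = 0) : ξ ∈ Bdir x := by
  have h := B.met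
  have hy := G.psi_mem h s hx
  set y := G.psi s x with hyd
  set ξ' := fderiv ℝ (G.psi s) x ξ with hξ'
  have hJH : ∀ τ, G.JH τ y ξ' = G.JH (τ + s) x ξ := fun τ => by
    have e : G.Z (τ + s) x = G.Z τ y := by rw [Geo.Z, G.psi_add h τ s hx]; rfl
    simp only [Geo.JH, ContinuousLinearMap.comp_apply]
    rw [G.JJ_add h τ s hx, e]
  have h1 : hor y.1 ξ'.1 = 0 := by
    have := hJH 0
    rw [zero_add, hs] at this
    simp only [Geo.JH, ContinuousLinearMap.comp_apply] at this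
    rw [G.JJ_zero h hy, Geo.Z, G.psi_zero h hy] at this
    exact this
  obtain ⟨c, hc⟩ := (hor_eq_zero_iff hy.1 _).1 h1
  have e : ((0, ξ'.2 - c • y.2) : VV n) = ξ' - c • y := by
    ext1
    · simp [hc]
    · simp
  have h2 : G.JH (t - s) y (0, ξ'.2 - c • y.2) = 0 := by
    rw [e, map_sub, hJH, sub_add_cancel, ht, G.JH_Bdir h _ hy (nc_smul_mem y c), sub_zero]
  obtain ⟨c', a, hu⟩ := mem_Bs.1 (B.no_conj hy hst h2)
  have h3 : ξ' ∈ Bdir y := by
    refine mem_Bdir.2 ⟨c, c', a, ?_⟩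
    ext1
    · exact hc
    · show ξ'.2 = c • y.2 + c' • y.1 + a • y.2
      rw [add_assoc, ← hu]
      abel
  have h4 := G.fderiv_psi_Bdir h (-s) hy h3
  rw [hξ', hyd, G.fderiv_psi_neg h s hx, ← G.psi_add h (-s) s hx, neg_add_cancel,
    G.psi_zero h hx] at h4
  exact h4

/-- A field vanishing at two times whose difference is not a multiple of `π/2` is trivial. -/
theorem no_conj_pair {x : VV n} (hx : x ∈ OO n) {s t : ℝ} (hst : t - s ∈ Ioo 0 Real.pi)
    (hne : t - s ≠ Real.pi / 2) {ξ : VV n} (hs : G.JH s x ξ = 0) (ht : G.JH t x ξ = 0) :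
    ξ ∈ Bdir x := by
  rcases lt_or_gt_of_ne hne with hlt | hgt
  · exact B.nc_pair_small hx ⟨hst.1, hlt⟩ hs ht
  · refine B.nc_pair_small hx (s := t) (t := s + Real.pi) ⟨by linarith only [hst, hst.2], by linarith only [hgt]⟩ ht ?_
    rw [B.JH_add_pi s hx, hs, smul_zero]

theorem no_conj' {x : VV n} (hx : x ∈ OO n) {t : ℝ} (ht : t ∈ Ioo 0 Real.pi)
    (hne : t ≠ Real.pi / 2) {u : E n} (hu : G.JH t x (0, u) = 0) : u ∈ Bs x := by
  have h := B.met
  have h0 : G.JH 0 x (0, u) = 0 := by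
    simp only [Geo.JH, ContinuousLinearMap.comp_apply]
    rw [G.JJ_zero h hx]
    simp
  obtain ⟨l, c, a, e⟩ := mem_Bdir.1
    (B.no_conj_pair hx (s := 0) (t := t) (by simpa using ht) (by simpa using hne) h0 hu)
  have e1 : (0 : E n) = l • x.1 := congrArg Prod.fst e
  have e2 : u = l • x.2 + c • x.1 + a • x.2 := congrArg Prod.snd e
  have hl : l = 0 := (smul_eq_zero.1 e1.symm).resolve_right hx.1
  exact mem_Bs.2 ⟨c, a, by rw [e2, hl, zero_smul, zero_add]⟩

/-- The exponential map is an immersion on the open ball. -/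
theorem ex_immersion {q u₀ u : E n} (hq : q ≠ 0) (h0 : √(g q u₀ u₀) < Real.pi / 2)
    (hu : hor (G.ex q u₀) (fderiv ℝ (G.ex q) u₀ u) = 0) : hor q u = 0 := by
  have h := B.met
  by_cases hh : hor q u₀ = 0
  · obtain ⟨c, hc⟩ := (hor_eq_zero_iff hq _).1 hh
    have e : u₀ = 0 + c • q := by rw [hc, zero_add]
    rw [e, G.nc_fderiv_ex_vert hq, G.ex_add_vert hq, G.ex_zero hq,
      (G.hasFDerivAt_ex_zero hq).fderiv, horL_apply, hor_of_nu (nu_hor hq u)] at hu
    exact hu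
  · have hx : ((q, u₀) : VV n) ∈ OO n := mem_OO.2 ⟨hq, hh⟩
    set x : VV n := (q, u₀) with hxd
    have hs := h.spd_pos hx
    have hlt : spd g x < Real.pi / 2 := h0
    have e : u₀ = spd g x • vel g x + nu q u₀ • q := h.snd_eq hx
    have e1 : fderiv ℝ (G.ex q) u₀ = fderiv ℝ (G.ex x.1) (spd g x • vel g x) := by
      conv_lhs => rw [e]
      exact G.nc_fderiv_ex_vert hq _ _
    have e2 : G.ex q u₀ = G.Z (spd g x) x := G.ex_eq_Z h hx
    rw [e1, e2, G.fderiv_ex h _ hx hs, div_self hs.ne', one_smul] at hu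
    have hZ := G.Z_ne h (spd g x) hx
    obtain ⟨c, hc⟩ := (hor_eq_zero_iff hZ _).1 hu
    have h1 := h.vert' c (vel g (G.psi (spd g x) x)) hZ
    have hv : g (G.Z (spd g x) x) (vel g (G.psi (spd g x) x)) (vel g (G.psi (spd g x) x)) = 1 :=
      h.vel_unit (G.psi_mem h _ hx)
    rw [← hc, map_add, map_smul, hv, G.al_inv h _ hx] at h1
    have h2 : g x.1 (vel g x) u = 0 := by simpa [al] using h1
    rw [h2, zero_smul, zero_add] at hu
    obtain ⟨c', a, hb⟩ := mem_Bs.1 (B.no_conj hx ⟨hs, hlt⟩ hu)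
    have h3 : g x.1 (vel g x) x.2 = spd g x := by
      conv_lhs => rw [h.snd_eq hx]
      rw [map_add, map_smul, h.vel_unit hx, h.vert' _ _ hx.1]
      simp
    rw [hb, map_add, h.vert' _ _ hx.1, map_smul, h3, zero_add, smul_eq_mul] at h2
    have ha : a = 0 := (mul_eq_zero.1 h2).resolve_right hs.ne'
    exact (hor_eq_zero_iff hq _).2 ⟨c', by rw [hb, ha, zero_smul, add_zero]⟩

omit B in
theorem _root_.Pool.Agent.Work.MP_8c604c_gt.H.Geo.hasFDerivAt_Ex (G : Geo g) {q : E n} (hq : q ≠ 0)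
    (u₀ : E n) : HasFDerivAt (G.Ex q) ((‖q‖⁻¹ • (1 + nu q u₀)) • fderiv ℝ (G.ex q) u₀ +
      (‖q‖⁻¹ • nuL q).smulRight (G.ex q u₀)) u₀ :=
  ((((nuL q).hasFDerivAt (x := u₀)).const_add 1).const_smul ‖q‖⁻¹).smul
    (G.nc_diff_ex hq u₀).hasFDerivAt

theorem det_Ex_ne {q u₀ : E n} (hq : q ≠ 0) (h0 : √(g q u₀ u₀) < Real.pi / 2)
    (h1 : 1 + nu q u₀ ≠ 0) : (fderiv ℝ (G.Ex q) u₀).det ≠ 0 := by
  have hE := G.hasFDerivAt_Ex hq u₀
  have hn : ‖q‖⁻¹ ≠ 0 := inv_ne_zero (norm_ne_zero_iff.2 hq)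
  have hex := G.ex_ne hq u₀
  intro hdet
  have hker := LinearMap.det_eq_zero_iff_ker_ne_bot.1 hdet
  apply hker
  rw [LinearMap.ker_eq_bot']
  intro w hw
  have hw1 : fderiv ℝ (G.Ex q) u₀ w = 0 := hw
  rw [hE.fderiv] at hw1
  simp only [add_apply, smul_apply,
    ContinuousLinearMap.smulRight_apply, nuL_apply, smul_assoc] at hw1
  rw [← smul_add] at hw1
  have hw2 := (smul_eq_zero.1 hw1).resolve_left hn
  have hw3 : hor q w = 0 := by
    apply B.ex_immersion hq h0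
    refine (hor_eq_zero_iff hex _).2 ⟨(1 + nu q u₀)⁻¹ * -nu q w, ?_⟩
    rw [mul_smul, neg_smul, ← eq_neg_of_add_eq_zero_left hw2, inv_smul_smul₀ h1]
  obtain ⟨c, hc⟩ := (hor_eq_zero_iff hq _).1 hw3
  rw [hc, G.nc_fderiv_ex_kill hq, smul_zero, zero_add, nu_smul, nu_self hq, mul_one] at hw2
  rw [hc, (smul_eq_zero.1 hw2).resolve_right hex, zero_smul]

end Bl

end Pool.Agent.Work.MP_8c604c_gt.H
end
end

-- merged part: Pool.Agent.Work.MP_8c604c_gt.H.BKG1
section
/-!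
The Jacobian of the completed exponential map. Port of ../BKG1.lean (copy its lemmas, do not import it).
Now Ex q u = (|q|^(-1) . (1 + nu q u)) . ex q u, derivative Geo.hasFDerivAt_Ex (H/NC). With c = 1 + nu q u nonzero,
D Ex q u a = (|q|^(-1) . c) . ((c^(-1) * nu q a) . ex q u + D ex q u a), so by GG_inv the pulled back form is that at hor q u composed with the map
R a = hor q a + (c^(-1) * nu q a) . q, whose determinant is |c|^(-4) (bdet_comp for GG g q and the vertical frame q, qi q, qj q, qk q; or GG g q pulled back by R).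
jac_smul: Ex (l q) (l u) = (|l|^(-1) . l) . Ex q u (nu_smul_smul, ex_smul), det_csmul, detG_smul.
-/

set_option maxSynthPendingDepth 3

open Set Filter Topology MeasureTheory
open scoped ContDiff Quaternion

noncomputable section
namespace Pool.Agent.Work.MP_8c604c_gt.H

open Real

variable {n : ℕ} {g : Met n}

/-- The Gram determinant of a family with as many members as the dimension. -/
theorem bkg1_exists_gram {ι : Type} [Fintype ι] [DecidableEq ι] (hι : Fintype.card ι = 4 * n + 4)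
    (f : ι → E n) : ∃ c : ℝ, ∀ B : E n →L[ℝ] E n →L[ℝ] ℝ,
      (Matrix.of fun a b => B (f a) (f b)).det = c * bdet B := by
  obtain ⟨e⟩ : Nonempty (Fin (Module.finrank ℝ (E n)) ≃ ι) :=
    ⟨Fintype.equivOfCardEq (by rw [Fintype.card_fin, finrank_E, hι])⟩
  let L : E n →L[ℝ] E n := LinearMap.toContinuousLinearMap
    ((stdOrthonormalBasis ℝ (E n)).toBasis.constr ℝ fun i => f (e i))
  have hL : ∀ i, L (stdOrthonormalBasis ℝ (E n) i) = f (e i) := fun i =>
    (stdOrthonormalBasis ℝ (E n)).toBasis.constr_basis ℝ (fun i => f (e i)) i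
  refine ⟨L.det ^ 2, fun B => ?_⟩
  rw [← bdet_comp, ← Matrix.det_submatrix_equiv_self e]
  unfold bdet
  congr 1
  ext i j
  simp [ContinuousLinearMap.bilinearComp_apply, hL]

/-- Splitting off a unit vector. -/
theorem bkg1_gram_unit {κ : Type} [Fintype κ] [DecidableEq κ] (B : E n →L[ℝ] E n →L[ℝ] ℝ) (v : E n)
    (w : κ → E n) (h1 : B v v = 1) (h0 : ∀ i, B (w i) v = 0) :
    (Matrix.of fun a b : Unit ⊕ κ =>
      B (Sum.elim (fun _ => v) w a) (Sum.elim (fun _ => v) w b)).det =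
      (Matrix.of fun i j => B (w i) (w j)).det := by
  have e : (Matrix.of fun a b : Unit ⊕ κ =>
      B (Sum.elim (fun _ => v) w a) (Sum.elim (fun _ => v) w b)) =
      Matrix.fromBlocks 1 (Matrix.of fun _ j => B v (w j)) 0
        (Matrix.of fun i j => B (w i) (w j)) := by
    ext a b
    rcases a with a | a <;> rcases b with b | b <;> simp [h1, h0]
  rw [e, Matrix.det_fromBlocks_zero₂₁, Matrix.det_one, one_mul]

/-- The standard basis of the quaternions. -/
def bkg1_e : Fin 4 → ℍ := ![1, qi, qj, qk]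

theorem bkg1_e_inner (a b : Fin 4) :
    inner ℝ (bkg1_e a) (bkg1_e b) = (1 : Matrix (Fin 4) (Fin 4) ℝ) a b := by
  rw [Quaternion.inner_def]
  fin_cases a <;> fin_cases b <;> simp [bkg1_e, qi, qj, qk]

theorem bkg1_e_sum (p q : ℍ) :
    ∑ a, inner ℝ (bkg1_e a) p * inner ℝ (bkg1_e a) q = inner ℝ p q := by
  simp [bkg1_e, Fin.sum_univ_four, Quaternion.inner_def, qi, qj, qk]

/-- Splitting off the vertical space. -/
theorem bkg1_gram_vert (h : IsMetric g) {ι : Type} [Fintype ι] [DecidableEq ι] {z : E n} (hz : z ≠ 0)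
    (w : ι → E n) :
    (Matrix.of fun a b : Fin 4 ⊕ ι => GG g z (Sum.elim (fun k => bkg1_e k • z) w a)
      (Sum.elim (fun k => bkg1_e k • z) w b)).det = (Matrix.of fun i j => g z (w i) (w j)).det := by
  have a1 : ∀ c : ℍ, nu z (c • z) = c := fun c => by rw [nu_smul, nu_self hz, mul_one]
  let N : Matrix (Fin 4) ι ℝ := Matrix.of fun a j => inner ℝ (bkg1_e a) (nu z (w j))
  have e : (Matrix.of fun a b : Fin 4 ⊕ ι => GG g z (Sum.elim (fun k => bkg1_e k • z) w a)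
      (Sum.elim (fun k => bkg1_e k • z) w b)) =
      Matrix.fromBlocks 1 N N.transpose
        ((Matrix.of fun i j => g z (w i) (w j)) + N.transpose * N) := by
    ext a b
    rcases a with a | a <;> rcases b with b | b
    · simp only [Matrix.of_apply, Sum.elim_inl, Matrix.fromBlocks_apply₁₁]
      rw [GG_apply, h.vert _ _ _ hz, a1, a1, zero_add, bkg1_e_inner]
    · simp only [Matrix.of_apply, Sum.elim_inl, Sum.elim_inr, Matrix.fromBlocks_apply₁₂, N]
      rw [GG_apply, h.vert _ _ _ hz, a1, zero_add]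
    · simp only [Matrix.of_apply, Sum.elim_inl, Sum.elim_inr, Matrix.fromBlocks_apply₂₁, N,
        Matrix.transpose_apply]
      rw [GG_apply, h.vert' _ _ hz, a1, zero_add, real_inner_comm]
    · simp only [Matrix.of_apply, Sum.elim_inr, Matrix.fromBlocks_apply₂₂, N, Matrix.add_apply,
        Matrix.mul_apply, Matrix.transpose_apply]
      rw [GG_apply, bkg1_e_sum]
  rw [e, Matrix.det_fromBlocks_one₁₁, add_sub_cancel_right]

theorem bkg1_det_comm {X Y : Type} [AddCommGroup X] [Module ℝ X] [FiniteDimensional ℝ X]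
    [AddCommGroup Y] [Module ℝ Y] [FiniteDimensional ℝ Y] (A : Y →ₗ[ℝ] X) (B : X →ₗ[ℝ] Y) :
    LinearMap.det (LinearMap.id + A ∘ₗ B) = LinearMap.det (LinearMap.id + B ∘ₗ A) := by
  let b := Module.finBasis ℝ X
  let b' := Module.finBasis ℝ Y
  rw [← LinearMap.det_toMatrix b, ← LinearMap.det_toMatrix b', map_add, map_add,
    LinearMap.toMatrix_id, LinearMap.toMatrix_id, LinearMap.toMatrix_comp b b' b,
    LinearMap.toMatrix_comp b' b b', Matrix.det_one_add_mul_comm]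

/-- The determinant of a vertical stretching. -/
theorem bkg1_det_stretch {q : E n} (hq : q ≠ 0) (d : ℍ) (R : E n →L[ℝ] E n)
    (hR : ∀ a, R a = hor q a + (d * nu q a) • q) : R.det = ‖d‖ ^ 4 := by
  let A : E 0 →ₗ[ℝ] E n :=
    { toFun := fun x => ((d - 1) * x 0) • q
      map_add' := fun x y => by simp [mul_add, add_smul]
      map_smul' := fun r x => by simp [mul_smul_comm, smul_assoc] }
  let B : E n →ₗ[ℝ] E 0 :=
    { toFun := fun a => WithLp.toLp 2 fun _ => nu q a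
      map_add' := fun x y => by ext i : 1; simp [nu_add]
      map_smul' := fun r x => by ext i : 1; simp [nu_rsmul] }
  have e1 : (R : E n →ₗ[ℝ] E n) = LinearMap.id + A ∘ₗ B := by
    refine LinearMap.ext fun a => ?_
    show R a = a + ((d - 1) * nu q a) • q
    rw [hR, hor_def, sub_mul, one_mul, sub_smul]
    abel
  have e2 : LinearMap.id + B ∘ₗ A = ((d • ContinuousLinearMap.id ℝ (E 0) : E 0 →L[ℝ] E 0) :
      E 0 →ₗ[ℝ] E 0) := by
    refine LinearMap.ext fun x => ?_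
    ext i : 1
    obtain rfl : i = 0 := Fin.fin_one_eq_zero i
    show x 0 + nu q (((d - 1) * x 0) • q) = d * x 0
    rw [nu_smul, nu_self hq, mul_one, sub_mul, one_mul, add_sub_cancel]
  have e3 := det_csmul (n := 0) d
  unfold ContinuousLinearMap.det at e3 ⊢
  rw [e1, bkg1_det_comm, e2, e3]

theorem bkg1_det_smul (c : ℍ) (T : E n →L[ℝ] E n) : (c • T).det = ‖c‖ ^ (4 * n + 4) * T.det := by
  have e : c • T = (c • ContinuousLinearMap.id ℝ (E n)).comp T := by
    ext a : 1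
    rfl
  rw [e, ← det_csmul]
  exact LinearMap.det_comp _ _

theorem bkg1_sqrt_detG (h : IsMetric g) {c : ℍ} (hc : c ≠ 0) {z : E n} (hz : z ≠ 0) :
    √(detG g (c • z)) * ‖c‖ ^ (4 * n + 4) = √(detG g z) := by
  rw [← h.detG_smul hc hz, Real.sqrt_mul (h.detG_pos (smul_ne_zero hc hz)).le,
    show 8 * n + 8 = (4 * n + 4) * 2 by ring, pow_mul, Real.sqrt_sq (by positivity)]

namespace Geo
variable (G : Geo g) (h : IsMetric g)

theorem bkg1_Ex_ne {q : E n} (hq : q ≠ 0) {u : E n} (hu : 1 + nu q u ≠ 0) : G.Ex q u ≠ 0 :=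
  smul_ne_zero (smul_ne_zero (inv_ne_zero (norm_ne_zero_iff.2 hq)) hu) (G.ex_ne hq u)

theorem bkg1_fderiv_Ex_apply {q : E n} (hq : q ≠ 0) (u a : E n) :
    fderiv ℝ (G.Ex q) u a =
      (‖q‖⁻¹ • (1 + nu q u)) • fderiv ℝ (G.ex q) u a + (‖q‖⁻¹ • nu q a) • G.ex q u := by
  rw [(G.hasFDerivAt_Ex hq u).fderiv]
  rfl

theorem jac_nonneg (q u : E n) : 0 ≤ G.jac q u := by
  unfold jac
  positivity

theorem norm_Ex {q : E n} (hq : q ≠ 0) (u : E n) : ‖G.Ex q u‖ = ‖1 + nu q u‖ := by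
  have := norm_ne_zero_iff.2 hq
  unfold Ex
  rw [norm_smul, norm_smul, G.norm_ex hq, norm_inv, norm_norm]
  field_simp

include h

theorem bkg1_jac_sq {q : E n} (hq : q ≠ 0) {u : E n} (hu : 1 + nu q u ≠ 0) :
    G.jac q u ^ 2 * detG g q =
      bdet ((GG g (G.Ex q u)).bilinearComp (fderiv ℝ (G.Ex q) u) (fderiv ℝ (G.Ex q) u)) := by
  have h1 := h.detG_pos hq
  have h2 := h.detG_pos (G.bkg1_Ex_ne hq hu)
  rw [bdet_comp]
  unfold jac
  rw [div_pow, mul_pow, sq_abs, Real.sq_sqrt h1.le, Real.sq_sqrt h2.le, div_mul_cancel₀ _ h1.ne']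
  rfl

theorem jac_smul {l : ℍ} (hl : l ≠ 0) {q : E n} (hq : q ≠ 0) (u : E n) :
    G.jac (l • q) (l • u) = G.jac q u := by
  have hlq : l • q ≠ 0 := smul_ne_zero hl hq
  have hl' : ‖l‖ ≠ 0 := norm_ne_zero_iff.2 hl
  set μ : ℍ := ‖l‖⁻¹ • l with hμ
  have hμ1 : ‖μ‖ = 1 := by rw [hμ, norm_smul, norm_inv, norm_norm, inv_mul_cancel₀ hl']
  have hμ0 : μ ≠ 0 := by rw [← norm_ne_zero_iff, hμ1]; exact one_ne_zero
  have e0 : ∀ y, G.Ex (l • q) (l • y) = μ • G.Ex q y := fun y => by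
    unfold Ex
    rw [G.ex_smul hl hq, nu_smul_smul, norm_smul, smul_smul, smul_smul, hμ]
    congr 1
    rw [smul_mul_smul_comm, smul_mul_assoc, mul_inv, add_mul, mul_add, one_mul, mul_one,
      inv_mul_cancel_right₀ hl]
  let S : E n →L[ℝ] E n := l⁻¹ • ContinuousLinearMap.id ℝ (E n)
  have hS : ∀ y, S y = l⁻¹ • y := fun y => rfl
  have e1 : G.Ex (l • q) = μ • (G.Ex q ∘ S) := by
    funext y
    rw [Pi.smul_apply, Function.comp_apply, ← e0, hS, smul_inv_smul₀ hl]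
  have e2 : S (l • u) = u := by rw [hS, inv_smul_smul₀ hl]
  have d1 : HasFDerivAt (G.Ex q) (fderiv ℝ (G.Ex q) u) (S (l • u)) := by
    rw [e2]; exact (G.hasFDerivAt_Ex hq u).differentiableAt.hasFDerivAt
  have d2 := (d1.comp (l • u) S.hasFDerivAt).const_smul μ
  rw [← e1] at d2
  have k1 : (fderiv ℝ (G.Ex (l • q)) (l • u)).det =
      (fderiv ℝ (G.Ex q) u).det * (‖l‖ ^ (4 * n + 4))⁻¹ := by
    rw [d2.fderiv, bkg1_det_smul, hμ1, one_pow, one_mul, ← inv_pow, ← norm_inv, ← det_csmul]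
    exact LinearMap.det_comp _ _
  have k2 : detG g (G.Ex (l • q) (l • u)) = detG g (G.Ex q u) := by
    rw [e0]
    by_cases h0 : G.Ex q u = 0
    · rw [h0, smul_zero]
    · rw [← h.detG_smul hμ0 h0, hμ1, one_pow, mul_one]
  have k3 := bkg1_sqrt_detG h hl hq
  have k4 : √(detG g (l • q)) ≠ 0 := (Real.sqrt_pos.2 (h.detG_pos hlq)).ne'
  unfold jac
  rw [k1, k2, ← k3, abs_mul, abs_inv, abs_pow, abs_norm]
  field_simp

theorem jac_hor {q : E n} (hq : q ≠ 0) {u : E n} (hu : 1 + nu q u ≠ 0) :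
    G.jac q u * ‖1 + nu q u‖ ^ 4 = G.jac q (hor q u) := by
  set c : ℍ := 1 + nu q u with hc
  have hc' : ‖c‖ ≠ 0 := norm_ne_zero_iff.2 hu
  have h0 : 1 + nu q (hor q u) ≠ 0 := by rw [nu_hor hq, add_zero]; exact one_ne_zero
  let R : E n →L[ℝ] E n := horL q + ((ContinuousLinearMap.lsmul ℝ ℍ).flip q).comp
    (c⁻¹ • nuL q)
  have hR : ∀ a, R a = hor q a + (c⁻¹ * nu q a) • q := fun a => rfl
  have e0 : G.Ex q u = c • G.Ex q (hor q u) := by
    unfold Ex
    rw [nu_hor hq, add_zero, G.ex_hor hq, smul_smul, mul_smul_comm, mul_one]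
  have e1 : fderiv ℝ (G.ex q) (hor q u) = fderiv ℝ (G.ex q) u := by
    rw [hor_def, sub_eq_add_neg, ← neg_smul, G.nc_fderiv_ex_vert hq]
  have e2 : fderiv ℝ (G.Ex q) u = c • (fderiv ℝ (G.Ex q) (hor q u)).comp R := by
    ext a : 1
    rw [ContinuousLinearMap.smul_apply, ContinuousLinearMap.comp_apply, G.bkg1_fderiv_Ex_apply hq,
      G.bkg1_fderiv_Ex_apply hq, e1, G.ex_hor hq, nu_hor hq, add_zero, hR, map_add,
      G.nc_fderiv_ex_kill hq, add_zero, hor_def, map_sub, G.nc_fderiv_ex_kill hq, sub_zero, nu_add,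
      ← hor_def, nu_hor hq, zero_add, nu_smul, nu_self hq, mul_one, smul_add c, smul_smul, smul_smul,
      mul_smul_comm, mul_smul_comm, mul_one, mul_inv_cancel_left₀ hu]
  have k1 : (fderiv ℝ (G.Ex q) u).det =
      ‖c‖ ^ (4 * n + 4) * ((fderiv ℝ (G.Ex q) (hor q u)).det * (‖c‖ ^ 4)⁻¹) := by
    rw [e2, bkg1_det_smul, ← inv_pow, ← norm_inv, ← bkg1_det_stretch hq c⁻¹ R hR]
    congr 1
    exact LinearMap.det_comp _ _
  have k2 := bkg1_sqrt_detG h hu (G.bkg1_Ex_ne hq h0)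
  unfold jac
  rw [k1, ← k2, e0, abs_mul, abs_mul, abs_inv, abs_pow, abs_pow, abs_norm]
  field_simp

theorem th_inv (τ : ℝ) : Inv fun x => G.th x τ := by
  intro l m c x hl hm hx
  have e := G.jac_smul h hl hx.1 (τ • vel g x)
  show G.th (act l m c x) τ = G.th x τ
  unfold th
  rw [h.vel_eqv l m c x hl hm hx, smul_comm τ l, ← e]
  rfl

theorem continuousOn_jac :
    ContinuousOn (fun p : VV n => G.jac p.1 p.2) {p | p.1 ≠ 0 ∧ 1 + nu p.1 p.2 ≠ 0} := by
  have ho : IsOpen {p : VV n | p.1 ≠ 0} := isOpen_ne.preimage continuous_fst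
  have hs : {p : VV n | p.1 ≠ 0 ∧ 1 + nu p.1 p.2 ≠ 0} ⊆ {p | p.1 ≠ 0} := fun p hp => hp.1
  have c1 : ContinuousOn (fderiv ℝ fun p : VV n => G.Ex p.1 p.2) {p | p.1 ≠ 0} :=
    G.contDiffOn_Ex.continuousOn_fderiv_of_isOpen ho (by simp)
  have c2 : ContinuousOn (fun p : VV n => (fderiv ℝ (fun p : VV n => G.Ex p.1 p.2) p).comp
      (ContinuousLinearMap.inr ℝ (E n) (E n))) {p | p.1 ≠ 0} :=
    c1.clm_comp continuousOn_const
  have c3 : ContinuousOn (fun p : VV n => fderiv ℝ (G.Ex p.1) p.2) {p | p.1 ≠ 0} := by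
    refine c2.congr fun p hp => ?_
    have h1 : ContDiffAt ℝ ∞ (fun p : VV n => G.Ex p.1 p.2) (p.1, p.2) :=
      G.contDiffOn_Ex.contDiffAt (ho.mem_nhds hp)
    exact ((h1.differentiableAt (by simp)).hasFDerivAt.comp p.2
      (hasFDerivAt_prodMk_right p.1 p.2)).fderiv
  have c4 : ContinuousOn (fun p : VV n => detG g (G.Ex p.1 p.2))
      {p | p.1 ≠ 0 ∧ 1 + nu p.1 p.2 ≠ 0} :=
    h.continuousOn_detG.comp (G.contDiffOn_Ex.continuousOn.mono hs)
      fun p hp => G.bkg1_Ex_ne hp.1 hp.2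
  have c5 : ContinuousOn (fun p : VV n => detG g p.1) {p | p.1 ≠ 0} :=
    h.continuousOn_detG.comp continuousOn_fst fun p hp => hp
  unfold jac
  exact ((((ContinuousLinearMap.continuous_det.comp_continuousOn c3).abs).mono hs).mul c4.sqrt).div
    (c5.sqrt.mono hs) fun p hp => (Real.sqrt_pos.2 (h.detG_pos hp.1)).ne' 

theorem continuousOn_th : ContinuousOn (fun p : VV n × ℝ => G.th p.1 p.2) {p | p.1 ∈ OO n} := by
  have c1 : ContinuousOn (fun p : VV n × ℝ => vel g p.1) {p | p.1 ∈ OO n} :=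
    h.contDiffOn_vel.continuousOn.comp continuousOn_fst fun p hp => hp
  have c2 : ContinuousOn (fun p : VV n × ℝ => ((p.1.1, p.2 • vel g p.1) : VV n))
      {p | p.1 ∈ OO n} :=
    (continuous_fst.comp continuous_fst).continuousOn.prodMk (continuousOn_snd.smul c1)
  unfold th
  refine (continuousOn_snd.pow _).mul ((G.continuousOn_jac h).comp c2 fun p hp => ?_)
  have hq := (show p.1 ∈ OO n from hp).1
  refine ⟨hq, ?_⟩
  show 1 + nu p.1.1 (p.2 • vel g p.1) ≠ 0
  rw [nu_rsmul, h.nu_vel hq, smul_zero, add_zero]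
  exact one_ne_zero

theorem th_spd {x : VV n} (hx : x ∈ OO n) :
    G.th x (spd g x) = spd g x ^ (4 * n - 1) * G.jac x.1 (hor x.1 x.2) := by
  unfold th
  rw [vel, smul_inv_smul₀ (h.spd_pos hx).ne']

/-- The density as a ratio of Gram determinants. -/
theorem th_link (hn : 1 ≤ n) {x : VV n} (hx : x ∈ OO n) {τ : ℝ} (hτ : 0 < τ) {κ : Type} [Fintype κ]
    [DecidableEq κ] (hκ : Fintype.card κ = 4 * n - 1) (u : κ → E n)
    (hu : ∀ i, g x.1 (u i) x.2 = 0) :
    G.th x τ ^ 2 * (Matrix.of fun i j => g x.1 (u i) (u j)).det =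
      (Matrix.of fun i j => g (G.Z τ x) (spd g x • G.JJ τ x (0, u i))
        (spd g x • G.JJ τ x (0, u j))).det := by
  have hq := hx.1
  have hZ := G.Z_ne h τ hx
  have hψ := G.psi_mem h τ hx
  have hc : Fintype.card (Fin 4 ⊕ (Unit ⊕ κ)) = 4 * n + 4 := by
    simp only [Fintype.card_sum, Fintype.card_fin, Fintype.card_unit, hκ]
    omega
  have huv : ∀ i, g x.1 (u i) (vel g x) = 0 := fun i => by
    unfold vel
    rw [map_smul, h.hor_right hq, hu i, smul_zero]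
  have hvu : ∀ i, g x.1 (vel g x) (u i) = 0 := fun i => by rw [h.symm _ _ _ hq, huv]
  have hvB : vel g x ∈ Bs x := by
    refine mem_Bs.2 ⟨-((spd g x)⁻¹ • nu x.1 x.2), (spd g x)⁻¹, ?_⟩
    unfold vel
    rw [hor_def, smul_sub, neg_smul, smul_assoc]
    abel
  have hcB : ∀ c : ℍ, c • x.1 ∈ Bs x := fun c => mem_Bs.2 ⟨c, 0, by simp⟩
  have hp : nu x.1 (τ • vel g x) = 0 := by
    rw [nu_rsmul, h.nu_vel hq, smul_zero]
  have hp1 : 1 + nu x.1 (τ • vel g x) ≠ 0 := by rw [hp, add_zero]; exact one_ne_zero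
  set r : ℍ := ‖x.1‖⁻¹ • (1 : ℍ) with hr
  have hr0 : r ≠ 0 := smul_ne_zero (inv_ne_zero (norm_ne_zero_iff.2 hq)) one_ne_zero
  have hE : G.Ex x.1 (τ • vel g x) = r • G.Z τ x := by
    unfold Ex
    rw [hp, add_zero, G.ex_vel h τ hx]
  have hT : ∀ a, fderiv ℝ (G.Ex x.1) (τ • vel g x) a = r • (nu x.1 a • G.Z τ x +
      (g x.1 (vel g x) a • vel g (G.psi τ x) + (spd g x / τ) • G.JJ τ x (0, a))) := fun a => by
    rw [G.bkg1_fderiv_Ex_apply hq, hp, add_zero, G.ex_vel h τ hx, G.fderiv_ex h τ hx hτ,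
      smul_add r (nu x.1 a • G.Z τ x), add_comm, smul_smul r, hr, smul_mul_assoc, one_mul]
  have hTc : ∀ c : ℍ, fderiv ℝ (G.Ex x.1) (τ • vel g x) (c • x.1) = r • (c • G.Z τ x) := fun c => by
    rw [hT, nu_smul, nu_self hq, mul_one, h.vert' c _ hq, G.JJ_Bs h τ hx (hcB c)]
    simp
  obtain ⟨c, hgram⟩ := bkg1_exists_gram hc
    (Sum.elim (fun k => bkg1_e k • x.1) (Sum.elim (fun _ => vel g x) u))
  have k1 := hgram (GG g x.1)
  rw [bkg1_gram_vert h hq, bkg1_gram_unit _ _ _ (h.vel_unit hx) huv] at k1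
  have k2 := hgram ((GG g (G.Ex x.1 (τ • vel g x))).bilinearComp
    (fderiv ℝ (G.Ex x.1) (τ • vel g x)) (fderiv ℝ (G.Ex x.1) (τ • vel g x)))
  let w : κ → E n := fun i => nu x.1 (u i) • G.Z τ x + (spd g x / τ) • G.JJ τ x (0, u i)
  have hF : ∀ a : Fin 4 ⊕ (Unit ⊕ κ), fderiv ℝ (G.Ex x.1) (τ • vel g x)
      (Sum.elim (fun k => bkg1_e k • x.1) (Sum.elim (fun _ => vel g x) u) a) =
      r • Sum.elim (fun k => bkg1_e k • G.Z τ x)
        (Sum.elim (fun _ => vel g (G.psi τ x)) w) a := by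
    rintro (a | a | a)
    · exact hTc _
    · simp only [Sum.elim_inr, Sum.elim_inl]
      rw [hT, h.nu_vel hq, h.vel_unit hx, G.JJ_Bs h τ hx hvB]
      simp
    · simp only [Sum.elim_inr]
      rw [hT, hvu]
      simp [w]
  have hwv : ∀ i, g (G.Z τ x) (w i) (vel g (G.psi τ x)) = 0 := fun i => by
    rw [h.symm _ _ _ hZ]
    simp only [w, map_add, map_smul]
    rw [h.vert' _ _ hZ, G.al_inv h τ hx]
    simp [al]
  have hww : ∀ i j, g (G.Z τ x) (w i) (w j) = τ⁻¹ ^ 2 *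
      g (G.Z τ x) (spd g x • G.JJ τ x (0, u i)) (spd g x • G.JJ τ x (0, u j)) := fun i j => by
    simp only [w, map_add, map_smul, ContinuousLinearMap.add_apply, ContinuousLinearMap.smul_apply,
      smul_eq_mul]
    rw [h.vert _ _ _ hZ, h.vert _ _ _ hZ, h.vert' _ _ hZ]
    ring
  have e1 : (Matrix.of fun a b : Fin 4 ⊕ (Unit ⊕ κ) =>
      ((GG g (G.Ex x.1 (τ • vel g x))).bilinearComp
        (fderiv ℝ (G.Ex x.1) (τ • vel g x)) (fderiv ℝ (G.Ex x.1) (τ • vel g x)))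
        (Sum.elim (fun k => bkg1_e k • x.1) (Sum.elim (fun _ => vel g x) u) a)
        (Sum.elim (fun k => bkg1_e k • x.1) (Sum.elim (fun _ => vel g x) u) b)) =
      Matrix.of fun a b : Fin 4 ⊕ (Unit ⊕ κ) => GG g (G.Z τ x)
        (Sum.elim (fun k => bkg1_e k • G.Z τ x) (Sum.elim (fun _ => vel g (G.psi τ x)) w) a)
        (Sum.elim (fun k => bkg1_e k • G.Z τ x) (Sum.elim (fun _ => vel g (G.psi τ x)) w) b) := by
    ext a b
    simp only [Matrix.of_apply, ContinuousLinearMap.bilinearComp_apply]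
    rw [hF, hF, hE, h.GG_inv hr0 hZ]
  have e2 : (Matrix.of fun i j => g (G.Z τ x) (w i) (w j)) = τ⁻¹ ^ 2 •
      Matrix.of fun i j => g (G.Z τ x) (spd g x • G.JJ τ x (0, u i))
        (spd g x • G.JJ τ x (0, u j)) := by
    ext i j
    rw [Matrix.smul_apply, Matrix.of_apply, Matrix.of_apply, hww, smul_eq_mul]
  rw [e1, bkg1_gram_vert h hZ, bkg1_gram_unit (g (G.Z τ x)) _ _ (h.vel_unit hψ) hwv, e2,
    Matrix.det_smul, hκ, ← G.bkg1_jac_sq h hq hp1] at k2
  have k3 : (τ ^ (4 * n - 1)) ^ 2 * (τ⁻¹ ^ 2) ^ (4 * n - 1) = 1 := by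
    rw [← pow_mul, ← pow_mul, mul_comm 2 (4 * n - 1), ← mul_pow, mul_inv_cancel₀ hτ.ne', one_pow]
  unfold th
  unfold detG at k2
  rw [k1, mul_pow, mul_assoc, mul_left_comm (G.jac x.1 (τ • vel g x) ^ 2), ← k2, ← mul_assoc, k3,
    one_mul]

end Geo

theorem Bl.jac_pos {G : Geo g} (B : Bl g G) {q u : E n} (hq : q ≠ 0) (hu : √(g q u u) < π / 2)
    (h1 : 1 + nu q u ≠ 0) : 0 < G.jac q u := by
  unfold Geo.jac
  exact div_pos (mul_pos (abs_pos.2 (B.det_Ex_ne hq hu h1))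
    (Real.sqrt_pos.2 (B.met.detG_pos (G.bkg1_Ex_ne hq h1)))) (Real.sqrt_pos.2 (B.met.detG_pos hq))

end Pool.Agent.Work.MP_8c604c_gt.H
end
end

-- merged part: Pool.Agent.Work.MP_8c604c_gt.B.Pr
section
/-!
The projector map `pr` from `E n` minus `0` onto `MH n`.
Plan. (pr z) (i,j) = |z|^(-2) star (z i) * z j. prS z0 p is the row vector z0 times the matrix p; prS z0 (pr z) = nu z z0 . z.
pr_eq_iff: apply prS z2 to both sides. dpr_smul, dpr_vert: differentiate pr_smul (chain rule along the linear map u -> c . u, and along t -> (1 + t c) . z).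
dpr_eq_zero: differentiate y -> prS z (pr y) = nu y z . y at y = z in the direction u: the derivative is u + (a quaternion) . z.
-/

set_option maxSynthPendingDepth 3

open Set Filter Topology
open scoped ContDiff Quaternion

noncomputable section
namespace Pool.Agent.Work.MP_8c604c_gt.H

open T B

variable {n : ℕ}

theorem contDiffOn_pr : ContDiffOn ℝ ∞ (pr : E n → AM n) {0}ᶜ := by
  have h : ContDiff ℝ ∞ (star : ℍ → ℍ) := (LinearMap.toContinuousLinearMap
    { toFun := star, map_add' := star_add, map_smul' := fun r a => by simp }).contDiff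
  refine PiLp.contDiff_toLp.comp_contDiffOn (contDiffOn_pi.2 fun i => ?_)
  exact ((contDiff_norm_sq ℝ).contDiffOn.inv fun z hz => pow_ne_zero 2 (norm_ne_zero_iff.2 hz)).smul
    ((h.comp (contDiff_piLp_apply 2)).mul (contDiff_piLp_apply 2)).contDiffOn

theorem contDiffOn_dpr : ContDiffOn ℝ ∞ (fun z : E n => fderiv ℝ (pr : E n → AM n) z) {0}ᶜ := by
  exact contDiffOn_pr.fderiv_of_isOpen isOpen_compl_singleton le_rfl

theorem hasFDerivAt_pr {z : E n} (hz : z ≠ 0) : HasFDerivAt pr (fderiv ℝ pr z) z := by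
  exact ((contDiffOn_pr.contDiffAt (isOpen_compl_singleton.mem_nhds hz)).differentiableAt
    (by simp)).hasFDerivAt

theorem pr_mem {z : E n} (hz : z ≠ 0) : pr z ∈ MH n := ⟨z, hz, rfl⟩

theorem pr_smul {c : ℍ} (hc : c ≠ 0) (z : E n) : pr (c • z) = pr z := by
  ext1 i
  have := norm_ne_zero_iff.2 hc
  simp only [pr, PiLp.smul_apply, smul_eq_mul, star_mul, norm_smul]
  rw [mul_assoc, ← mul_assoc (star c), q_star_mul, Quaternion.coe_mul_eq_smul, mul_smul_comm,
    smul_smul]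
  congr 1
  field_simp

/-- A row vector times a matrix. -/
def Pr_S (z : E n) : AM n →L[ℝ] E n := LinearMap.toContinuousLinearMap
  { toFun := fun p => WithLp.toLp 2 fun j => ∑ i, z i * p (i, j)
    map_add' := fun p q => by ext1 j; simp [mul_add, Finset.sum_add_distrib]
    map_smul' := fun r p => by ext1 j; simp [Finset.smul_sum] }

theorem Pr_S_pr (w z : E n) : Pr_S w (pr z) = nu z w • z := by
  ext1 j
  simp [Pr_S, pr, nu_def, hm, Finset.smul_sum, Finset.sum_mul, mul_assoc]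

theorem pr_eq_iff {z z' : E n} (hz : z ≠ 0) (hz' : z' ≠ 0) :
    pr z' = pr z ↔ ∃ c : ℍ, c ≠ 0 ∧ z' = c • z := by
  refine ⟨fun h => ?_, by rintro ⟨c, hc, rfl⟩; exact pr_smul hc z⟩
  have h1 := congrArg (Pr_S z') h
  rw [Pr_S_pr, Pr_S_pr, nu_self hz', one_smul] at h1
  exact ⟨_, fun e => hz' (by rw [h1, e, zero_smul]), h1⟩

theorem dpr_smul {c : ℍ} (hc : c ≠ 0) {z : E n} (hz : z ≠ 0) (u : E n) :
    fderiv ℝ pr (c • z) (c • u) = fderiv ℝ pr z u := by
  have h := (hasFDerivAt_pr (smul_ne_zero hc hz)).comp z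
    (c • ContinuousLinearMap.id ℝ (E n)).hasFDerivAt
  exact congrArg (fun L => L u)
    ((h.congr_of_eventuallyEq (.of_forall fun y => (pr_smul hc y).symm)).unique (hasFDerivAt_pr hz))

theorem dpr_vert {z : E n} (hz : z ≠ 0) (c : ℍ) : fderiv ℝ pr z (c • z) = 0 := by
  have h0 : HasFDerivAt pr (fderiv ℝ pr z) ((1 : ℍ) • z) := (one_smul ℍ z).symm ▸ hasFDerivAt_pr hz
  have h := h0.comp 1 ((ContinuousLinearMap.lsmul ℝ ℍ).flip z).hasFDerivAt
  exact congrArg (fun L => L c) (h.unique ((hasFDerivAt_const (pr z) 1).congr_of_eventuallyEq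
    ((eventually_ne_nhds one_ne_zero).mono fun a ha => pr_smul ha z)))

theorem dpr_hor {z : E n} (hz : z ≠ 0) (u : E n) : fderiv ℝ pr z (hor z u) = fderiv ℝ pr z u := by
  rw [hor_def, map_sub, dpr_vert hz, sub_zero]

theorem dpr_eq_zero {z : E n} (hz : z ≠ 0) (u : E n) : fderiv ℝ pr z u = 0 ↔ hor z u = 0 := by
  refine ⟨fun h => ?_, fun h => by rw [← dpr_hor hz, h, map_zero]⟩
  have h1 := (((contDiffOn_nuL.clm_apply (contDiffOn_const (c := z))).contDiffAt
    (isOpen_compl_singleton.mem_nhds hz)).differentiableAt (by simp)).hasFDerivAt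
  have h2 := congrArg (fun L => L u) (((Pr_S z).hasFDerivAt.comp z (hasFDerivAt_pr hz)).unique
    ((h1.smul (hasFDerivAt_id z)).congr_of_eventuallyEq (.of_forall (Pr_S_pr z))))
  simp only [ContinuousLinearMap.comp_apply, h, map_zero, add_apply, nuL_apply,
    nu_self hz, one_smul, ContinuousLinearMap.id_apply, ContinuousLinearMap.smulRight_apply,
    id] at h2
  exact (hor_eq_zero_iff hz u).2 ⟨_, (eq_neg_of_add_eq_zero_left h2.symm).trans (neg_smul _ _).symm⟩

theorem dpr_inj {z u u' : E n} (hz : z ≠ 0) (hu : nu z u = 0) (hu' : nu z u' = 0)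
    (h : fderiv ℝ pr z u = fderiv ℝ pr z u') : u = u' := by
  have h1 := (dpr_eq_zero hz (u - u')).1 (by rw [map_sub, h, sub_self])
  rwa [hor_of_nu (by rw [nu_sub, hu, hu', sub_self]), sub_eq_zero] at h1

theorem exists_ne_zero : ∃ z : E n, z ≠ 0 := by
  exact exists_ne 0

open Classical in
/-- A vector on the line of a projector matrix. -/
def rep (p : AM n) : E n :=
  if h : p ∈ MH n then Exists.choose h else (exists_ne_zero (n := n)).choose

theorem rep_ne (p : AM n) : rep p ≠ 0 := by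
  unfold rep
  split_ifs with h
  exacts [h.choose_spec.1, exists_ne_zero.choose_spec]

theorem pr_rep {p : AM n} (hp : p ∈ MH n) : pr (rep p) = p := by
  rw [rep, dif_pos hp]
  exact hp.choose_spec.2

theorem rep_pr {z : E n} (hz : z ≠ 0) : ∃ c : ℍ, c ≠ 0 ∧ rep (pr z) = c • z := by
  exact (pr_eq_iff hz (rep_ne _)).1 (pr_rep (pr_mem hz))

theorem MH_eq : MH n = pr '' Metric.sphere (0 : E n) 1 := by
  refine Subset.antisymm ?_ (image_mono fun z hz => ne_zero_of_mem_unit_sphere ⟨z, hz⟩)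
  rintro _ ⟨z, hz, rfl⟩
  have := norm_ne_zero_iff.2 hz
  exact ⟨((‖z‖⁻¹ : ℝ) : ℍ) • z, by simp [norm_smul, this], pr_smul (coe_ne_zero (inv_ne_zero this)) z⟩

/-- Continuity on pairs of points of projective space is checked upstairs. -/
theorem desc_pair {P Y : Type} [TopologicalSpace P] [TopologicalSpace Y]
    {s : Set ((AM n × AM n) × P)} (hs : ∀ y ∈ s, y.1.1 ∈ MH n ∧ y.1.2 ∈ MH n)
    {f : (AM n × AM n) × P → Y}
    (hf : ContinuousOn (fun y : VV n × P => f ((pr y.1.1, pr y.1.2), y.2))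
      {y | y.1.1 ≠ 0 ∧ y.1.2 ≠ 0 ∧ ((pr y.1.1, pr y.1.2), y.2) ∈ s}) : ContinuousOn f s := by
  have h0 : Metric.sphere (0 : E n) 1 ⊆ {0}ᶜ := fun z hz => ne_zero_of_mem_unit_sphere ⟨z, hz⟩
  have hc := (contDiffOn_pr (n := n)).continuousOn.mono h0
  refine desc ((isCompact_sphere (0 : E n) 1).prod (isCompact_sphere (0 : E n) 1))
    (q := fun y => (pr y.1, pr y.2)) (hc.prodMap hc) (fun y hy => ?_)
    (hf.mono fun y hy => ⟨h0 hy.1.1, h0 hy.1.2, hy.2⟩)
  obtain ⟨⟨a, ha, e⟩, b, hb, e'⟩ := MH_eq (n := n) ▸ hs y hy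
  exact ⟨(a, b), ⟨ha, hb⟩, Prod.ext e e'⟩

/-- The vector representing a linear form in the Euclidean structure. -/
def fl (n : ℕ) : (E n →L[ℝ] ℝ) →L[ℝ] E n :=
  ∑ i, (ContinuousLinearMap.apply ℝ ℝ (stdOrthonormalBasis ℝ (E n) i)).smulRight
    (stdOrthonormalBasis ℝ (E n) i)

theorem inner_fl (φ : E n →L[ℝ] ℝ) (u : E n) : inner ℝ (fl n φ) u = φ u := by
  conv_rhs => rw [← (stdOrthonormalBasis ℝ (E n)).sum_repr' u]
  simp only [fl, sum_apply, ContinuousLinearMap.smulRight_apply, ContinuousLinearMap.apply_apply,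
    sum_inner, real_inner_smul_left, map_sum, map_smul, smul_eq_mul, mul_comm]

/-- The map `u ↦ nu z u • η`, a left linear map that sends `z` to `η`. -/
def tv (z η : E n) : E n →L[ℝ] E n := ((ContinuousLinearMap.lsmul ℝ ℍ).flip η).comp (nuL z)

theorem tv_apply (z η u : E n) : tv z η u = nu z u • η := rfl

theorem tv_self {z : E n} (hz : z ≠ 0) (η : E n) : tv z η z = η := by
  rw [tv_apply, nu_self hz, one_smul]

theorem tv_smul (c : ℍ) (z η u : E n) : tv z η (c • u) = c • tv z η u := by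
  rw [tv_apply, tv_apply, nu_smul, mul_smul]

end Pool.Agent.Work.MP_8c604c_gt.H
end
end

-- merged part: Pool.Agent.Work.MP_8c604c_gt.B.Defs
section
/-!
Definitions of block B: closed geodesics as loops, the index form on equivariant fields, the negative bundle, the push.
-/

set_option maxSynthPendingDepth 3

open Set Filter Topology MeasureTheory
open scoped ContDiff Quaternion

noncomputable section
namespace Pool.Agent.Work.MP_8c604c_gt.H

open T B Real

variable {n : ℕ} {g : Met n}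

/-- The velocity of a loop at time `0`. -/
def vl (c : LM n) : AM n := deriv (fun t => c (cs t)) 0

namespace Geo
variable (G : Geo g)

/-- The closed geodesic of `x` as a loop. -/
def lp (x : VV n) : LM n := mkL fun t => pr (G.Z t x)

/-- The set of closed geodesics. -/
def SS : Set (LM n) := G.lp '' OO n

/-- An initial condition of a closed geodesic. -/
def sec (c : LM n) : VV n := Classical.epsilon fun x => x ∈ OO n ∧ G.lp x = c

/-- The derivative along the flow. -/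
def dt (ξ : VV n → E n) (x : VV n) : E n := deriv (fun s => ξ (G.psi s x)) 0

/-- The density of the second variation. -/
def q2 (ξ η : VV n → E n) (x : VV n) : ℝ :=
  D2 g (x.1, vel g x) (ξ x, G.dt ξ x) (η x, G.dt η x)

/-- The index form of the closed geodesic of `x`. -/
def ix (ξ η : VV n → E n) (x : VV n) : ℝ := ∫ t in (0 : ℝ)..π, G.q2 ξ η (G.psi t x)

/-- The value at time `0` of a Jacobi field with value `η` at time `π/2`. -/
def bkL (x : VV n) : E n →L[ℝ] E n :=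
  (G.JJ (-(π / 2)) (G.psi (π / 2) x)).comp
    ((ContinuousLinearMap.id ℝ (E n)).prod (ContinuousLinearMap.lsmul ℝ ℍ (nu x.1 x.2)))

theorem bkL_apply (x : VV n) (η : E n) :
    G.bkL x η = G.JJ (-(π / 2)) (G.psi (π / 2) x) (η, nu x.1 x.2 • η) := rfl

/-- The defect of a field: its value at time `0` minus the transported value at time `π/2`. -/
def rho (ξ : VV n → E n) (x : VV n) : E n := ξ x - G.bkL x (ξ (G.psi (π / 2) x))

/-- The component of the defect in the conjugate directions. -/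
def rK (ξ : VV n → E n) (x : VV n) : E n :=
  ‖x.1‖ ^ 2 • (G.KS x).starProjection (fl n (g x.1 (G.rho ξ x)))

/-- Horizontal vectors whose geodesics pass through the same cut point. -/
def WS (x : VV n) : Submodule ℝ (E n) :=
  LinearMap.ker (nuL x.1 : E n →ₗ[ℝ] ℍ) ⊓
    LinearMap.ker ((G.JH (π / 2) x).comp (ContinuousLinearMap.inr ℝ (E n) (E n)) : E n →ₗ[ℝ] E n)

end Geo

/-- Smooth equivariant fields normal to the geodesics. -/
structure Fld (g : Met n) (ξ : VV n → E n) : Prop where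
  smooth : ContDiffOn ℝ ∞ ξ (OO n)
  eqv : Eqv ξ
  perp : ∀ x ∈ OO n, g x.1 (vel g x) (ξ x) = 0

/-- A finite family `X` of fields, the negative bundle `K` of the index form on it, and its
identification `R` with the conjugate directions. -/
structure ND (G : Geo g) (k : ℕ) where
  N : ℕ
  X : VV n → RN N →L[ℝ] E n
  smooth : ContDiffOn ℝ ∞ X (OO n)
  fld : ∀ a, Fld g fun x => X x a
  K : VV n → RN N →L[ℝ] RN N
  cK : ContinuousOn K (OO n)
  invK : Inv K
  psiK : ∀ t, ∀ x ∈ OO n, K (G.psi t x) = K x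
  idK : ∀ x ∈ OO n, ∀ a, K x (K x a) = K x a
  syK : ∀ x ∈ OO n, ∀ a b, inner ℝ (K x a) b = inner ℝ a (K x b)
  rkK : ∀ x ∈ OO n, Module.finrank ℝ (LinearMap.range (K x : RN N →ₗ[ℝ] RN N)) = k
  δ : ℝ
  δ_pos : 0 < δ
  neg : ∀ x ∈ OO n, ∀ a, K x a = a →
    G.ix (fun y => X y a) (fun y => X y a) x ≤ -(δ * ‖a‖ ^ 2)
  R : VV n → RN N →L[ℝ] E n
  cR : ContinuousOn R (OO n)
  eqvR : ∀ a, Eqv fun x => R x a
  memR : ∀ x ∈ OO n, ∀ a, R x a ∈ G.KS x
  surjR : ∀ x ∈ OO n, ∀ u ∈ G.KS x, ∃ a, K x a = a ∧ R x a = u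
  posR : ∀ x ∈ OO n, ∀ a, 0 ≤ g x.1 (R x a) (G.rho (fun y => X y a) x)

namespace ND
variable {G : Geo g} {k : ℕ} (D : ND G k)

/-- The negative bundle over the closed geodesics. -/
def KL (c : LM n) : RN D.N →L[ℝ] RN D.N := D.K (G.sec c)

/-- The identification with tangent vectors. -/
def BL (c : LM n) : RN D.N →L[ℝ] AM n := (fderiv ℝ pr (G.sec c).1).comp (D.R (G.sec c))

end ND

/-- The push of the closed geodesics in the negative directions, continued to constant loops. -/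
structure PD {G : Geo g} {k : ℕ} (D : ND G k) where
  Hh : ℝ × LM n × RN D.N → LM n
  cH : ContinuousOn Hh (Icc 0 1 ×ˢ unitK G.SS D.KL)
  memH : ∀ s ∈ Icc (0 : ℝ) 1, ∀ y ∈ unitK G.SS D.KL, ∀ θ, Hh (s, y) θ ∈ MH n
  eqH : ∀ s ∈ Icc (0 : ℝ) 1, ∀ y ∈ unitK G.SS D.KL, ∀ θ,
    Hh (s, sh θ y.1, y.2) = sh θ (Hh (s, y))
  H1 : ∀ y ∈ unitK G.SS D.KL, ∀ θ, Hh (1, y) θ = Hh (1, y) 1
  short : ∀ s ∈ Ioc (0 : ℝ) 1, ∀ y ∈ unitK G.SS D.KL, ∀ θ,
    (Hh (s, y) 1, Hh (s, y) θ) ∉ cutS G.SS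
  ε : ℝ
  ε_pos : 0 < ε
  push : ∀ s ∈ Icc (0 : ℝ) (1 / 2), ∀ x ∈ OO n, ∀ a, D.K x a = a → ‖a‖ = 1 → ∀ t,
    Hh (s, G.lp x, a) (cs t) = pr (G.Z t x + (s * ε) • D.X (G.psi t x) a)

/-- The family that joins the push of size `e` at `x` to the broken geodesics. -/
structure QD {G : Geo g} {k : ℕ} (D : ND G k) (x : VV n) (e : ℝ) where
  Q : ℝ × RN D.N → LM n
  cQ : ContinuousOn Q (Icc 0 1 ×ˢ {a | D.K x a = a ∧ ‖a‖ ≤ 1})
  memQ : ∀ τ ∈ Icc (0 : ℝ) 1, ∀ a, D.K x a = a → ‖a‖ ≤ 1 → ∀ θ, Q (τ, a) θ ∈ MH n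
  Q0 : ∀ a, D.K x a = a → ‖a‖ ≤ 1 → ∀ t ∈ Icc 0 π,
    Q (0, a) (cs t) = pr (G.Z t x + e • D.X (G.psi t x) a)
  Qb : ∀ τ ∈ Icc (0 : ℝ) 1, ∀ a, D.K x a = a → ‖a‖ = 1 → ∀ θ,
    (Q (τ, a) 1, Q (τ, a) θ) ∉ cutS G.SS
  ε : ℝ
  ε_ne : ε ≠ 0
  Q1 : ∀ a, D.K x a = a → ‖a‖ ≤ 1 → ∀ t ∈ Icc 0 (π / 2),
    Q (1, a) (cs (t + π / 4)) =
      pr (G.Z t (G.Z (π / 4) x, vel g (G.psi (π / 4) x) + ε • D.R (G.psi (π / 4) x) a)) ∧
    Q (1, a) (cs (t - π / 4)) = pr (G.Z (t - π / 4) x)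

end Pool.Agent.Work.MP_8c604c_gt.H
end
end

-- merged part: Pool.Agent.Work.MP_8c604c_gt.C.Count
section
/-!
The signed count of the cone map in the affine chart is bounded by the topology.
Plan. exists_e: b = (stdOrthonormalBasis of EA n).reindex (finCongr finrank_EA), e w = (sum of (w j).re . b j, sum of (w j).im . b j); LinearEquiv.toContinuousLinearEquiv.
cone_act: spd_act, f_inv. ae_chart: Z = union over i of the images under cone o sc i of the null sets U0 minus Dm i (Dm_ae, addHaar_image_eq_zero_of_differentiableOn_of_addHaar_eq_zero);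
if x.1 0 = 0 pick i with x.1 i not 0, y = rho (sw2 i x), sc i y = act l 1 c x (sc0_rho, sw2_act, sw2_sw2), (sc i y).1 0 = l * x.1 0 = 0.
count_bound: TD.count_le for w' = e.symm w, L y = e.symm o D (cone o sc0) y, the determinant is that of a conjugate (LinearMap.det_conj).
Reg.all: c = lp x, x' = (x.1, r . vel g x) = act 1 (r / spd) (..) x (snd_eq), cone x' = w, y = rho x', pr_smul, dpr_smul, dpr_vert.
Reg.der: F y = e.symm (cone (sc0 y)); from pr_eq_iff, dpr_smul, dpr_eq_zero, hor_eq_zero_iff: sc0 y = act l (r / spd g x) c x.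
-/

set_option maxSynthPendingDepth 3

open Set Filter Topology MeasureTheory
open scoped ContDiff Quaternion

noncomputable section
namespace Pool.Agent.Work.MP_8c604c_gt.C

open H T TopologicalSpace Lam Om

variable {n : ℕ}

theorem exists_e (n : ℕ) : ∃ e : (Fin (4 * n) → ℂ) ≃L[ℝ] CH n, ∀ w, e (Complex.I • w) = Jc (e w) := by
  let φ : (Fin (4 * n) → ℝ) ≃ₗ[ℝ] EA n := (Module.finBasisOfFinrankEq ℝ (EA n) finrank_EA).equivFun.symm
  let e : (Fin (4 * n) → ℂ) ≃ₗ[ℝ] CH n :=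
    { toFun := fun w => (φ fun j => (w j).re, φ fun j => (w j).im)
      invFun := fun y j => ⟨φ.symm y.1 j, φ.symm y.2 j⟩
      map_add' := fun a b => Prod.ext (map_add φ (fun j => (a j).re) fun j => (b j).re)
        (map_add φ (fun j => (a j).im) fun j => (b j).im)
      map_smul' := fun r a => by
        refine Prod.ext ((congrArg φ ?_).trans (map_smul φ r fun j => (a j).re))
          ((congrArg φ ?_).trans (map_smul φ r fun j => (a j).im)) <;> ext j <;> simp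
      left_inv := fun w => by
        ext j : 1
        simp
      right_inv := fun y => by simp }
  refine ⟨e.toContinuousLinearEquiv, fun w => ?_⟩
  refine Prod.ext ((congrArg φ ?_).trans (map_neg φ fun j => (w j).im)) (congrArg φ ?_) <;> ext j <;> simp

/-- The topological data `D` come from the metric `g`. -/
structure Lnk (g : Met n) (D : TD n) (lp : VV n → LM n) : Prop where
  mem : ∀ c, c ∈ D.S ↔ ∃ x ∈ OO n, c = lp x
  foot : ∀ x ∈ OO n, lp x 1 = pr x.1
  vel : ∀ x ∈ OO n, D.vel (lp x) = fderiv ℝ pr x.1 (vel g x)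

theorem FD.cone_act {g : Met n} (h : IsMetric g) (P : FD g) {l : ℍ} {m : ℝ} (c : ℍ) {x : VV n}
    (hl : l ≠ 0) (hm : 0 < m) (hx : x ∈ OO n) : P.cone (act l m c x) = m • P.cone x := by
  rw [FD.cone, FD.cone, h.spd_act c hl hm hx.1, P.f_inv l m c x hl hm hx, mul_smul]

theorem Count_diff {g : Met n} (h : IsMetric g) (P : FD g) {x : VV n} (hx : x ∈ OO n) :
    DifferentiableAt ℝ P.cone x :=
  ((h.contDiffOn_spd.smul P.f_smooth).contDiffAt (isOpen_OO.mem_nhds hx)).differentiableAt (by simp)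

theorem Count_dpr {g : Met n} {x : VV n} (hx : x ∈ OO n) (r : ℝ) :
    fderiv ℝ pr x.1 ((r / spd g x) • x.2) = r • fderiv ℝ pr x.1 (vel g x) := by
  rw [vel, map_smul, map_smul, dpr_hor hx.1, smul_smul, div_eq_mul_inv]

theorem FD.ae_chart {g : Met n} (h : IsMetric g) (P : FD g) :
    ∀ᵐ w : CH n, ∀ x ∈ OO n, P.cone x = w → x.1 0 ≠ 0 := by
  have h1 : ∀ i : Fin (n + 1), volume ((fun y => P.cone (sc i y)) '' {y : CH n | y.2 ≠ 0 ∧ y ∉ Dm i}) = 0 :=
    fun i => addHaar_image_eq_zero_of_differentiableOn_of_addHaar_eq_zero volume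
      (fun y hy => (DifferentiableAt.comp (g := P.cone) (f := sc i) y (Count_diff h P (sw2_mem i (sc0_mem hy.1)))
        ((sw2 i).differentiableAt.comp y (hasFDerivAt_sc0 y).differentiableAt)).differentiableWithinAt)
      (measure_mono_null (fun y hy => hy.2) (Dm_ae i))
  filter_upwards [ae_all_iff.2 fun i => measure_eq_zero_iff_ae_notMem.1 (h1 i)] with w hw x hx e h0
  obtain ⟨i, hi⟩ : ∃ i, x.1 i ≠ 0 := by
    by_contra hc
    refine hx.1 ?_
    ext i : 1
    exact not_not.1 fun h2 => hc ⟨i, h2⟩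
  have h2 : (sw2 i x).1 0 ≠ 0 := (sw_zero i x.1).symm ▸ hi
  have h3 := congrArg (sw2 i) (sc0_rho h2)
  rw [sw2_act, sw2_sw2, ← sc] at h3
  refine hw i ⟨rho (sw2 i x), ⟨rho_ne (sw2_mem i hx) h2, fun h4 => h4 ?_⟩, ?_⟩
  · rw [h3]
    simp [act, h0]
  · simp only [h3]
    rw [P.cone_act h _ (inv_ne_zero h2) one_pos hx, one_smul, e]

theorem count_bound (hn : 2 ≤ n) (hc : CountLe n) {g : Met n} (h : IsMetric g) {D : TD n} {lp : VV n → LM n}
    (L : Lnk g D lp) (P : FD g) (e : (Fin (4 * n) → ℂ) ≃L[ℝ] CH n)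
    (hΦ : ∀ x ∈ OO n, e (D.Φ (lp x)) = P.f x) :
    ∀ᵐ w : CH n, ∀ T : Finset (CH n), (∀ y, y ∈ T ↔ y ∈ {y : CH n | y.2 ≠ 0} ∧ P.cone (sc0 y) = w) →
      (∀ y ∈ T, (fderiv ℝ (fun y => P.cone (sc0 y)) y).det ≠ 0) →
      |∑ y ∈ T, (SignType.sign (fderiv ℝ (fun y => P.cone (sc0 y)) y).det : ℝ)| ≤
        ((4 * n).choose (2 * n) : ℝ) - (4 * n).choose (2 * n - 1) := by
  have : Nontrivial (EA n) := Module.nontrivial_of_finrank_pos (R := ℝ) (by rw [finrank_EA]; omega)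
  have : (𝓝[≠] (0 : CH n)).NeBot := Module.punctured_nhds_neBot ℝ (CH n) 0
  have : NullSingletonClass (volume : Measure (CH n)) := Measure.IsAddHaarMeasure.nullSingletonClass _
  filter_upwards [P.ae_chart h, (Set.countable_singleton (0 : CH n)).ae_notMem volume] with w hw h0 T hT hd
  have key : ∀ x ∈ OO n, ∀ r : ℝ, (r / spd g x) • P.cone x = e (r • D.Φ (lp x)) := fun x hx r => by
    rw [FD.cone, smul_smul, div_mul_cancel₀ _ (h.spd_pos hx).ne', map_smul, hΦ x hx]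
  have R : D.Reg (e.symm w) T fun y => (e.symm : CH n →L[ℝ] Fin (4 * n) → ℂ).comp
      (fderiv ℝ (fun y => P.cone (sc0 y)) y) := by
    refine ⟨fun h1 => h0 (e.symm.map_eq_zero_iff.1 h1), fun c hc r hr h1 => ?_,
      fun y => e.symm (P.cone (sc0 y)), fun y c hc r hr h1 h2 => ?_, fun y hy => ?_⟩
    · obtain ⟨x, hx, rfl⟩ := (L.mem c).1 hc
      have hm := div_pos hr (h.spd_pos hx)
      have hx' := act_mem 0 one_ne_zero hm hx
      have h2 : P.cone (act 1 (r / spd g x) 0 x) = w := by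
        rw [P.cone_act h _ one_ne_zero hm hx, key x hx, h1, e.apply_symm_apply]
      have h3 := hw _ hx' h2
      have h4 := sc0_rho h3
      have h5 := congrArg Prod.fst h4
      have h6 := congrArg Prod.snd h4
      refine ⟨rho (act 1 (r / spd g x) 0 x), (hT _).2 ⟨rho_ne hx' h3, ?_⟩, ?_, ?_⟩
      · rw [h4, P.cone_act h _ (inv_ne_zero h3) one_pos hx', one_smul, h2]
      · rw [L.foot x hx, show aff _ = _ from h5]
        simp only [act, one_smul]
        exact (pr_smul (inv_ne_zero (by simpa [act] using h3)) _).symm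
      · rw [L.vel x hx, show aff _ = _ from h5, show aff0 _ = _ from h6, ← Count_dpr hx]
        simp only [act, one_smul, zero_smul, add_zero]
        rw [dpr_smul (inv_ne_zero (by simpa [act] using h3)) hx.1, map_add, dpr_vert hx.1, add_zero]
    · obtain ⟨x, hx, rfl⟩ := (L.mem c).1 hc
      rw [L.foot x hx] at h1
      obtain ⟨l, hl, h3⟩ := (pr_eq_iff hx.1 (aff_ne y.1)).1 h1.symm
      rw [L.vel x hx, ← Count_dpr hx, h3, ← smul_inv_smul₀ hl (aff0 y.2), dpr_smul hl hx.1, ← sub_eq_zero,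
        ← map_sub, dpr_eq_zero hx.1, hor_eq_zero_iff hx.1] at h2
      obtain ⟨c, h4⟩ := h2
      have h5 : sc0 y = act l (r / spd g x) c x := Prod.ext h3 (by
        simp only [sc0, act]
        rw [← h4, add_sub_cancel, smul_inv_smul₀ hl])
      simp only [h5]
      rw [P.cone_act h _ hl (div_pos hr (h.spd_pos hx)) hx, key x hx, e.symm_apply_apply]
    · obtain ⟨h1, h2⟩ := (hT y).1 hy
      refine ⟨h1, congrArg e.symm h2, (e.symm : CH n →L[ℝ] Fin (4 * n) → ℂ).hasFDerivAt.comp y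
        ((Count_diff h P (sc0_mem h1)).comp y (hasFDerivAt_sc0 y).differentiableAt).hasFDerivAt, ?_⟩
      exact e.symm.injective.comp (ContinuousLinearMap.toContinuousLinearEquivOfDetNeZero _ (hd y hy)).injective
  have H := hc D R e
  have e1 : ∀ A : CH n →L[ℝ] CH n, (((e.symm : CH n →L[ℝ] Fin (4 * n) → ℂ).comp A).comp
      (e : (Fin (4 * n) → ℂ) →L[ℝ] CH n)).det = A.det := fun A =>
    LinearMap.det_conj (A : CH n →ₗ[ℝ] CH n) e.symm.toLinearEquiv
  simpa only [e1] using H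

end Pool.Agent.Work.MP_8c604c_gt.C
end
end
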