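import Pool.Agent.Work.MP_8c604c_gt.C.Change

-- merged part: Pool.Agent.Work.MP_8c604c_gt.C.Sto
section
/-!
The theorem of Stokes for basic forms, in the affine chart.
Plan. exists_pu: p i x = smoothTransition (2 (n+1) |x.1 i|^2 / |x.1|^2 - 1) is invariant, at least one of them is 1 (EuclideanSpace.norm_sq_eq / PiLp.norm_sq_eq_of_L2, pigeonhole),
phi i = fn (p i / sum of the p j). exists_cpt: s (sc i y) is continuous and positive on the compact set |y.1|^2 <= R, |y.2| = 1, and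
sc i (a, m b) = act 1 m 0 (sc i (a, b)); K = image of (closed ball x sphere) x Icc under the scaling (model: ../Stokes.lean, stokes_cpt).
supp: pull (sec i) (sg * (phi i * kappa)) vanishes off K (ev_pull, ev_mul, ev_sg, wt_eq_zero; (sc i y).1 i = 1, norm_sw, norm_aff).
integrable_den: sg * kappa = sum of sg * (phi i * kappa), change, integrable_top. int_den_d: sg * d kappa = - sum of d (sg * (phi i * kappa)) (d_mul, d_sg, IsOne.inv),
d_pull, supp_d, integrable_top, change, stokes, integral_finsetSum.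
-/

set_option maxSynthPendingDepth 3

open Set Filter Topology MeasureTheory
open scoped ContDiff Quaternion

noncomputable section
namespace Pool.Agent.Work.MP_8c604c_gt.C

open H T TopologicalSpace Lam Om

variable {n : ℕ}

section Gen
variable {V : Type} [NormedAddCommGroup V] [NormedSpace ℝ V] [FiniteDimensional ℝ V]
  [MeasurableSpace V] [BorelSpace V]

theorem stokes (μ : Measure V) [μ.IsAddHaarMeasure] {U : Opens V} (γ : Om U) {K : Set V}
    (hK : IsCompact K) (hKU : K ⊆ U) (h0 : ∀ x ∉ K, ev γ x = 0) :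
    ∫ x, top (ev (d γ) x) ∂μ = 0 := by
  have hz : ∀ x ∉ K, ev γ =ᶠ[𝓝 x] fun _ => 0 := fun x hx =>
    Filter.eventually_of_mem (hK.isClosed.isOpen_compl.mem_nhds hx) h0
  have hs : ContDiff ℝ ∞ (ev γ) := contDiff_iff_contDiffAt.2 fun x => by
    by_cases hx : x ∈ K
    · exact γ.smooth.contDiffAt (U.isOpen.mem_nhds (hKU hx))
    · exact contDiffAt_const.congr_of_eventuallyEq (hz x hx)
  have hc : HasCompactSupport (ev γ) := HasCompactSupport.intro hK h0
  have h1 : ∀ x, ev (d γ) x = dop (fderiv ℝ (ev γ) x) := fun x => by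
    by_cases hx : x ∈ U
    · exact ev_d γ hx
    · rw [ev_of_not_mem _ hx, (hz x fun h => hx (hKU h)).fderiv_eq, fderiv_fun_const, Pi.zero_apply,
        map_zero]
  have hi : Integrable (fderiv ℝ (ev γ)) μ :=
    (hs.continuous_fderiv (by simp)).integrable_of_hasCompactSupport (hc.fderiv ℝ)
  have h2 : ∫ x, fderiv ℝ (ev γ) x ∂μ = 0 := by
    ext v
    rw [ContinuousLinearMap.integral_apply hi]
    have := integral_smul_fderiv_eq_neg_fderiv_smul_of_integrable (μ := μ) (f := fun _ : V => (1 : ℝ))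
      (g := ev γ) (v := v) (by simp) (by simpa using hi.apply_continuousLinearMap v)
      (by simpa using hs.continuous.integrable_of_hasCompactSupport hc)
      (fun _ _ => differentiableAt_const _) (fun x _ => hs.differentiable (by simp) x)
    simpa using this
  have h3 := (top.comp dop).integral_comp_comm hi
  rw [h2, map_zero] at h3
  simp only [h1]
  exact h3

theorem integrable_top (μ : Measure V) [μ.IsAddHaarMeasure] {U : Opens V} (γ : Om U) {K : Set V}
    (hK : IsCompact K) (hKU : K ⊆ U) (h0 : ∀ x ∉ K, ev γ x = 0) :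
    Integrable (fun x => top (ev γ x)) μ := by
  have hs : Continuous (ev γ) := continuous_iff_continuousAt.2 fun x => by
    by_cases hx : x ∈ K
    · exact γ.smooth.continuousOn.continuousAt (U.isOpen.mem_nhds (hKU hx))
    · exact continuousAt_const.congr
        (Filter.eventually_of_mem (hK.isClosed.isOpen_compl.mem_nhds hx) fun y hy => (h0 y hy).symm)
  have hi : Integrable (ev γ) μ :=
    hs.integrable_of_hasCompactSupport (HasCompactSupport.intro hK h0)
  exact top.integrable_comp hi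

omit [MeasurableSpace V] [BorelSpace V] in
theorem supp_d {U : Opens V} (γ : Om U) {K : Set V} (hK : IsClosed K)
    (h0 : ∀ x ∉ K, ev γ x = 0) : ∀ x ∉ K, ev (d γ) x = 0 := by
  intro x hx
  by_cases hU : x ∈ U
  · have hz : ev γ =ᶠ[𝓝 x] fun _ => 0 := Filter.eventually_of_mem (hK.isOpen_compl.mem_nhds hx) h0
    rw [ev_d γ hU, hz.fderiv_eq, fderiv_fun_const, Pi.zero_apply, map_zero]
  · exact ev_of_not_mem _ hU

end Gen

theorem sto_ev_sum {V : Type} [NormedAddCommGroup V] [NormedSpace ℝ V] [FiniteDimensional ℝ V]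
    {U : Opens V} {ι : Type} (t : Finset ι) (a : ι → Om U) (x : V) :
    ev (∑ i ∈ t, a i) x = ∑ i ∈ t, ev (a i) x :=
  map_sum (AddMonoidHom.mk' (fun a : Om U => ev a x) fun a b => ev_add a b x) a t

/-- Bump functions on the charts. -/
def sto_p (i : Fin (n + 1)) (x : VV n) : ℝ :=
  Real.smoothTransition (2 * (n + 1) * ‖x.1 i‖ ^ 2 / ‖x.1‖ ^ 2 - 1)

theorem sto_smooth (i : Fin (n + 1)) : ContDiffOn ℝ ∞ (sto_p i) (UO n) := by
  have h1 : ContDiff ℝ ∞ fun x : VV n => ‖x.1 i‖ ^ 2 :=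
    (contDiff_norm_sq ℝ).comp ((PiLp.proj 2 (𝕜 := ℝ) (fun _ : Fin (n + 1) => ℍ) i).contDiff.comp
      contDiff_fst)
  have h2 : ContDiff ℝ ∞ fun x : VV n => ‖x.1‖ ^ 2 := (contDiff_norm_sq ℝ).comp contDiff_fst
  exact Real.smoothTransition.contDiff.comp_contDiffOn
    (((contDiff_const.mul h1).contDiffOn.div h2.contDiffOn fun x hx =>
      pow_ne_zero _ (norm_ne_zero_iff.2 hx.1)).sub contDiffOn_const)

theorem sto_inv (i : Fin (n + 1)) : H.Inv (sto_p i) := fun l m c x hl _ _ => by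
  have e1 : ‖(act l m c x).1 i‖ = ‖l‖ * ‖x.1 i‖ := norm_mul l (x.1 i)
  have e2 : ‖(act l m c x).1‖ = ‖l‖ * ‖x.1‖ := norm_smul l x.1
  have := norm_ne_zero_iff.2 hl
  rw [sto_p, sto_p, e1, e2, mul_pow, mul_pow, mul_left_comm,
    mul_div_mul_left _ _ (pow_ne_zero 2 this)]

theorem sto_pos {x : VV n} (hx : x ∈ OO n) : ∃ i, 0 < sto_p i x := by
  have h0 := pow_pos (norm_pos_iff.2 hx.1) 2
  by_contra! h
  have k : ∀ i, 2 * (n + 1) * ‖x.1 i‖ ^ 2 ≤ ‖x.1‖ ^ 2 := fun i => by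
    by_contra! k
    exact (h i).not_gt (Real.smoothTransition.pos_of_pos (sub_pos.2 ((one_lt_div h0).2 k)))
  have k2 := Finset.sum_le_sum fun i (_ : i ∈ Finset.univ) => k i
  rw [← Finset.mul_sum, ← PiLp.norm_sq_eq_of_L2] at k2
  simp only [Finset.sum_const, Finset.card_univ, Fintype.card_fin, nsmul_eq_mul] at k2
  push_cast at k2
  have : (0 : ℝ) < (n + 1) * ‖x.1‖ ^ 2 := by positivity
  linarith

/-- A basic partition of unity. -/
theorem exists_pu (n : ℕ) : ∃ φ : Fin (n + 1) → Om (UO n), ∑ i, φ i = 1 ∧ ∀ i,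
    φ i ∈ (actB n).Basic ∧ ∀ x ∈ OO n, ev (φ i) x ≠ 0 → ‖x.1‖ ^ 2 ≤ 2 * (n + 1) * ‖x.1 i‖ ^ 2 := by
  have pos : ∀ x ∈ OO n, 0 < ∑ j, sto_p j x := fun x hx =>
    Finset.sum_pos' (fun j _ => Real.smoothTransition.nonneg _)
      ((sto_pos hx).imp fun j h => ⟨Finset.mem_univ _, h⟩)
  refine ⟨fun i => fn (fun x => sto_p i x / ∑ j, sto_p j x) ((sto_smooth i).div
    (ContDiffOn.sum fun j _ => sto_smooth j) fun x hx => (pos x hx).ne'), ?_, fun i => ⟨?_, ?_⟩⟩
  · refine Om.ext fun x hx => ?_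
    rw [sto_ev_sum, ev_one hx, Finset.sum_congr rfl fun i _ => ev_fn _ _ hx, ← map_sum,
      ← Finset.sum_div, div_self (pos x hx).ne', map_one]
  · refine fn_basic _ fun l m c x hl hm hx => ?_
    simp only [sto_inv _ l m c x hl hm hx]
  · intro x hx h
    rw [ev_fn _ _ hx] at h
    by_contra k
    refine h ?_
    rw [sto_p, Real.smoothTransition.zero_of_nonpos, zero_div, map_zero]
    rw [sub_nonpos, div_le_one (pow_pos (norm_pos_iff.2 hx.1) 2)]
    exact (not_le.1 k).le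

theorem sto_sc (i : Fin (n + 1)) (a b : EA n) (m : ℝ) :
    sc i (a, m • b) = act 1 m 0 (sc i (a, b)) := by
  refine Prod.ext (one_smul _ _).symm ?_
  show sw i (a0L n (m • b)) = (1 : ℍ) • (m • sw i (a0L n b) + (0 : ℍ) • _)
  rw [map_smul, map_smul, one_smul, zero_smul, add_zero]

theorem exists_cpt {s : VV n → ℝ} (hs : Adm s) (i : Fin (n + 1)) (R : ℝ) :
    ∃ K : Set (CH n), IsCompact K ∧ K ⊆ U0 n ∧ ∀ y : CH n, y.2 ≠ 0 → ‖y.1‖ ^ 2 ≤ R →
      Real.log (s (sc i y)) ∈ Icc (0 : ℝ) 1 → y ∈ K := by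
  have hS : ∀ y ∈ Metric.closedBall (0 : EA n) √R ×ˢ Metric.sphere (0 : EA n) 1, y.2 ≠ 0 :=
    fun y hy => Metric.ne_of_mem_sphere hy.2 one_ne_zero
  have cs : ContinuousOn (fun y => s (sc i y)) (U0 n) :=
    hs.smooth.continuousOn.comp (sec i).smooth.continuousOn (sec i).maps
  have ps : ∀ y : CH n, y.2 ≠ 0 → 0 < s (sc i y) := fun y hy => hs.pos _ ((sec i).maps hy)
  refine ⟨(fun p : ℝ × CH n => (p.2.1, (p.1 / s (sc i p.2)) • p.2.2)) ''
    (Icc 1 (Real.exp 1) ×ˢ Metric.closedBall 0 √R ×ˢ Metric.sphere 0 1), ?_, ?_, ?_⟩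
  · refine (isCompact_Icc.prod ((isCompact_closedBall _ _).prod
      (isCompact_sphere _ _))).image_of_continuousOn (continuousOn_snd.fst.prodMk
        ((continuousOn_fst.div (cs.comp continuousOn_snd fun p hp => hS _ hp.2)
          fun p hp => (ps _ (hS _ hp.2)).ne').smul continuousOn_snd.snd))
  · rintro _ ⟨p, hp, rfl⟩
    exact smul_ne_zero (div_pos (one_pos.trans_le hp.1.1) (ps _ (hS _ hp.2))).ne' (hS _ hp.2)
  · intro y hy hR hl
    have n0 := norm_pos_iff.2 hy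
    have u0 : ‖y.2‖⁻¹ • y.2 ≠ 0 := smul_ne_zero (inv_ne_zero n0.ne') hy
    have e : s (sc i y) = ‖y.2‖ * s (sc i (y.1, ‖y.2‖⁻¹ • y.2)) := by
      rw [← hs.hom 1 _ 0 (sc i (y.1, ‖y.2‖⁻¹ • y.2)) one_ne_zero n0 ((sec i).maps u0), ← sto_sc,
        smul_inv_smul₀ n0.ne']
    refine ⟨(s (sc i y), y.1, ‖y.2‖⁻¹ • y.2), ⟨⟨(Real.log_nonneg_iff (ps y hy)).1 hl.1,
      (Real.log_le_iff_le_exp (ps y hy)).1 hl.2⟩, ?_, ?_⟩, Prod.ext rfl ?_⟩
    · exact mem_closedBall_zero_iff.2 (Real.le_sqrt_of_sq_le hR)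
    · exact mem_sphere_zero_iff_norm.2 (norm_smul_inv_norm hy)
    · show (s (sc i y) / s (sc i (y.1, ‖y.2‖⁻¹ • y.2))) • ‖y.2‖⁻¹ • y.2 = y.2
      rw [e, mul_div_cancel_right₀ _ (ps (y.1, ‖y.2‖⁻¹ • y.2) u0).ne', smul_inv_smul₀ n0.ne']

theorem sto_den_sum (γ : Fin (n + 1) → Om (UO n)) (y : CH n) :
    den (∑ i, γ i) y = ∑ i, den (γ i) y := by
  simp only [den, map_sum, sto_ev_sum]

theorem sto_dec {s : VV n → ℝ} (hs : Adm s) {κ : Om (UO n)} (h : κ ∈ (actB n).Basic) :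
    ∃ γ : Fin (n + 1) → Om (UO n), sg hs * κ = ∑ i, γ i ∧ ∀ i, γ i ∈ (actC n).Basic ∧
      ∃ K : Set (CH n), IsCompact K ∧ K ⊆ U0 n ∧ ∀ y ∉ K, ev (pull (sec i) (γ i)) y = 0 := by
  obtain ⟨φ, e, hφ⟩ := exists_pu n
  refine ⟨fun i => sg hs * (φ i * κ), by rw [← Finset.mul_sum, ← Finset.sum_mul, e, one_mul],
    fun i => ⟨mul_mem (sg_basic hs) (basic_le (mul_mem (hφ i).1 h)), ?_⟩⟩
  obtain ⟨K, k1, k2, k3⟩ := exists_cpt hs i (2 * (n + 1))
  refine ⟨K, k1, k2, fun y hy => ?_⟩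
  by_cases hU : y ∈ U0 n
  swap
  · exact ev_of_not_mem _ hU
  have hx : sc i y ∈ OO n := (sec i).maps hU
  rw [ev_pull _ _ hU, ev_mul, ev_mul]
  show lmap _ (ev (sg hs) (sc i y) * (ev (φ i) (sc i y) * _)) = 0
  by_cases h0 : ev (φ i) (sc i y) = 0
  · rw [h0, zero_mul, mul_zero, map_zero]
  have h1 := (hφ i).2 _ hx h0
  have e1 : (sc i y).1 = sw i (aff y.1) := rfl
  rw [e1, norm_sw, norm_aff, sw_self, aff_zero, norm_one, one_pow, mul_one] at h1
  rw [ev_sg hs hx, wt_eq_zero fun k => hy (k3 y hU (by linarith) k), zero_div, zero_smul, zero_mul,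
    map_zero]

theorem integrable_den {s : VV n → ℝ} (hs : Adm s) {κ : Om (UO n)} (h : κ ∈ (actB n).Basic) :
    Integrable (den (sg hs * κ)) := by
  obtain ⟨γ, e, hγ⟩ := sto_dec hs h
  rw [e, funext (sto_den_sum γ)]
  refine integrable_finsetSum _ fun i _ => ?_
  obtain ⟨h1, K, k1, k2, k3⟩ := hγ i
  exact (change h1 (integrable_top volume _ k1 k2 k3)).1

theorem int_den_d {s : VV n → ℝ} (hs : Adm s) {κ : Om (UO n)} (h : κ ∈ (actB n).Basic) :
    ∫ y, den (sg hs * d κ) y = 0 := by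
  obtain ⟨γ, e, hγ⟩ := sto_dec hs h
  have e1 : sg hs * d κ = ∑ i, d (-γ i) := by
    rw [← map_sum, Finset.sum_neg_distrib, ← e, map_neg, d_mul, d_sg, zero_mul, zero_add,
      (sg_one hs).inv, neg_mul, neg_neg]
  have key : ∀ i, Integrable (den (d (-γ i))) ∧ ∫ y, den (d (-γ i)) y = 0 := fun i => by
    obtain ⟨h1, K, k1, k2, k3⟩ := hγ i
    have k4 : ∀ y ∉ K, ev (pull (sec i) (-γ i)) y = 0 := fun y hy => by
      rw [map_neg, Form_neg, k3 y hy, neg_zero]
    have e2 : deni i (d (-γ i)) = fun y => top (ev (d (pull (sec i) (-γ i))) y) := by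
      rw [d_pull]; rfl
    have := change ((actC n).d_mem (neg_mem h1)) (i := i)
      (e2 ▸ integrable_top volume _ k1 k2 (supp_d _ k1.isClosed k4))
    exact ⟨this.1, by rw [this.2, e2]; exact stokes volume _ k1 k2 k4⟩
  rw [e1, funext (sto_den_sum _), integral_finsetSum _ fun i _ => (key i).1]
  exact Finset.sum_eq_zero fun i _ => (key i).2

end Pool.Agent.Work.MP_8c604c_gt.C
end
end

-- merged part: Pool.Agent.Work.MP_8c604c_gt.C.Conn
section
/-!
The contact volume does not depend on the connection form.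
Plan. den_apply: ev_pull, hasFDerivAt_sc0. den_basic: ctr (0, y.2) (lmap D0 a) = lmap D0 (ctr (0, aff0 y.2) a) = 0 (ctr_lmap, basic_horizontal, mem_Bdir), top_eq_zero_of_ctr.
den_hor: S = kernel of xi -> ctr xi (lmap D0 a) contains (0, y.2) and xi with v = D0 xi + (l z, l w + c z), l = v.1 0, c = v.2 0 (aff0_tl), xi.1 is not 0;
so finrank S >= 2 (span of (0, y.2) < S, Submodule.finrank_lt_finrank_of_lt, finrank_span_singleton), Lam.top_horizontal with a list of length one.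
conn_indep: e = d a, e' = d a' are central (IsOne.commute_d), b = a' - a, R = sum of e'^i e^(m-1-i), e'^m - e^m = (d b) R (Commute.geom_sum₂_mul), d R = 0,
a' e'^m - a e^m = b (e'^m + e R) - d (a b R); the first form is killed by X (ctr_mul), den_hor, int_den_d, integrable_den.
-/

set_option maxSynthPendingDepth 3

open Set Filter Topology MeasureTheory
open scoped ContDiff Quaternion

noncomputable section
namespace Pool.Agent.Work.MP_8c604c_gt.C

open H T TopologicalSpace Lam Om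

variable {n : ℕ}

theorem den_apply (γ : Om (UO n)) {y : CH n} (hy : y.2 ≠ 0) :
    den γ y = top (lmap (D0 n) (ev γ (sc0 y))) := by
  rw [den, ev_pull _ _ (show y ∈ U0 n from hy), ← (hasFDerivAt_sc0 y).fderiv]
  rfl

theorem den_zero (γ : Om (UO n)) {y : CH n} (hy : y.2 = 0) : den γ y = 0 := by
  rw [den, ev_of_not_mem _ (show y ∉ U0 n from fun h => h hy), map_zero]

theorem den_add (γ γ' : Om (UO n)) (y : CH n) : den (γ + γ') y = den γ y + den γ' y := by
  rw [den, den, den, map_add, ev_add, map_add]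

theorem conn_ne {y : CH n} (hy : y.2 ≠ 0) : ((0, y.2) : CH n) ≠ 0 :=
  fun e => hy (congrArg Prod.snd e)

theorem conn_rad {γ : Om (UO n)} (h : γ ∈ (actB n).Basic) {y : CH n} (hy : y.2 ≠ 0) :
    ctr ((0, y.2) : CH n) (lmap (D0 n) (ev γ (sc0 y))) = 0 := by
  rw [ctr_lmap, basic_horizontal h (sc0_mem hy), map_zero]
  refine mem_Bdir.2 ⟨0, 0, 1, ?_⟩
  simp [D0, sc0, ← a0L_apply]

theorem den_basic {γ : Om (UO n)} (h : γ ∈ (actB n).Basic) (y : CH n) : den γ y = 0 := by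
  by_cases hy : y.2 = 0
  · exact den_zero γ hy
  · rw [den_apply γ hy]
    exact top_eq_zero_of_ctr (conn_ne hy) (conn_rad h hy)

theorem conn_lift {γ : Om (UO n)} (h : γ ∈ (actB n).Basic) {y : CH n} (hy : y.2 ≠ 0) {v : VV n}
    (h1 : ∀ c : ℍ, v.1 ≠ c • (sc0 y).1) (h2 : ctr v (ev γ (sc0 y)) = 0) :
    ∃ ξ : CH n, ξ.1 ≠ 0 ∧ ctr ξ (lmap (D0 n) (ev γ (sc0 y))) = 0 := by
  let w : VV n := (v.1 0 • (sc0 y).1,
    v.1 0 • (sc0 y).2 + v.2 0 • (sc0 y).1 + (0 : ℝ) • (sc0 y).2)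
  have hw : w ∈ Bdir (sc0 y) := mem_Bdir.2 ⟨_, _, _, rfl⟩
  have e1 : aff0 (tl n (v - w).1) = (v - w).1 := aff0_tl (by simp [w, sc0, aff_zero])
  have e2 : aff0 (tl n (v - w).2) = (v - w).2 :=
    aff0_tl (by simp [w, sc0, aff_zero, aff0_zero])
  refine ⟨(tl n (v - w).1, tl n (v - w).2), fun e => h1 (v.1 0) ?_, ?_⟩
  · rw [show tl n (v - w).1 = 0 from e, ← a0L_apply, map_zero] at e1
    exact sub_eq_zero.1 e1.symm
  · have e3 : D0 n (tl n (v - w).1, tl n (v - w).2) = v - w := Prod.ext e1 e2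
    rw [ctr_lmap, e3, map_sub, _root_.sub_apply, h2,
      basic_horizontal h (sc0_mem hy) hw, sub_zero, map_zero]

theorem den_hor {θ γ : Om (UO n)} (hθ : IsOne θ) (h : γ ∈ (actB n).Basic)
    (h' : ∀ x ∈ OO n, ∃ v : VV n, (∀ c : ℍ, v.1 ≠ c • x.1) ∧ ctr v (ev γ x) = 0) (y : CH n) :
    den (θ * γ) y = 0 := by
  by_cases hy : y.2 = 0
  · exact den_zero _ hy
  obtain ⟨v, h1, h2⟩ := h' _ (sc0_mem hy)
  obtain ⟨ξ, h3, h4⟩ := conn_lift h hy h1 h2
  obtain ⟨φ, hφ⟩ := hθ _ (sc0_mem hy)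
  let S : Submodule ℝ (CH n) :=
    LinearMap.ker (ctr.flip (lmap (D0 n) (ev γ (sc0 y)))).toLinearMap
  have hS (u : CH n) : u ∈ S ↔ ctr u (lmap (D0 n) (ev γ (sc0 y))) = 0 := Iff.rfl
  have hlt : Submodule.span ℝ {((0, y.2) : CH n)} < S := by
    refine lt_of_le_of_ne ((Submodule.span_singleton_le_iff_mem _ _).2
      ((hS _).2 (conn_rad h hy))) fun e => h3 ?_
    have h5 : ξ ∈ Submodule.span ℝ {((0, y.2) : CH n)} := e ▸ (hS ξ).2 h4
    obtain ⟨r, hr⟩ := Submodule.mem_span_singleton.1 h5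
    rw [← hr]
    simp
  have h6 := Submodule.finrank_lt_finrank_of_lt hlt
  rw [finrank_span_singleton (conn_ne hy)] at h6
  have h7 := top_horizontal (fun u hu => (hS u).1 hu) [φ.comp (D0 n)] h6
  rw [den_apply _ hy, ev_mul, hφ, map_mul, lmap_io]
  simpa using h7

section Alg
variable {V : Type} [NormedAddCommGroup V] [NormedSpace ℝ V] [FiniteDimensional ℝ V]
  {U : Opens V}

/-- Forms killed at a point by a vector. -/
def connK {x : V} (hx : x ∈ U) (v : V) : Subalgebra ℝ (Om U) where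
  carrier := {γ | ctr v (ev γ x) = 0}
  mul_mem' {a b} ha hb := by
    change ctr v (ev (a * b) x) = 0
    rw [ev_mul, ctr_mul, (ha : ctr v (ev a x) = 0), (hb : ctr v (ev b x) = 0), zero_mul, mul_zero,
      add_zero]
  add_mem' {a b} ha hb := by
    change ctr v (ev (a + b) x) = 0
    rw [ev_add, map_add, (ha : ctr v (ev a x) = 0), (hb : ctr v (ev b x) = 0), add_zero]
  algebraMap_mem' r := by
    change ctr v (ev (algebraMap ℝ _ r) x) = 0
    rw [Form_alg r hx, ctr_algebraMap]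

/-- Closed forms. -/
def connZ (U : Opens V) : Subring (Om U) where
  carrier := {γ | d γ = 0}
  mul_mem' {a b} ha hb := by
    change d (a * b) = 0
    rw [d_mul, (ha : d a = 0), (hb : d b = 0), zero_mul, mul_zero, add_zero]
  add_mem' {a b} ha hb := by
    change d (a + b) = 0
    rw [map_add, (ha : d a = 0), (hb : d b = 0), add_zero]
  one_mem' := d_one
  zero_mem' := map_zero d
  neg_mem' {a} ha := by
    change d (-a) = 0
    rw [map_neg, (ha : d a = 0), neg_zero]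

theorem conn_id {a a' : Om U} (o : IsOne a) (o' : IsOne a') (m : ℕ) :
    a' * d a' ^ m + d (a * ((a' - a) * ∑ i ∈ Finset.range m, d a' ^ i * d a ^ (m - 1 - i))) =
      a * d a ^ m + (a' - a) *
        (d a' ^ m + d a * ∑ i ∈ Finset.range m, d a' ^ i * d a ^ (m - 1 - i)) := by
  have h1 := (o'.commute_d (d a)).mul_geom_sum₂ m
  have h2 : d (∑ i ∈ Finset.range m, d a' ^ i * d a ^ (m - 1 - i)) = 0 :=
    (connZ U).sum_mem fun i _ =>
      (connZ U).mul_mem ((connZ U).pow_mem (d_d a') _) ((connZ U).pow_mem (d_d a) _)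
  rw [d_mul, d_mul, h2, mul_zero, add_zero, map_sub, h1, o.inv, ← mul_assoc (d a),
    (o.commute_d (a' - a)).eq]
  noncomm_ring

end Alg

theorem conn_indep {s : VV n → ℝ} (hs : Adm s) {a a' : Om (UO n)} (o : IsOne a) (o' : IsOne a')
    (b : a ∈ (actB n).Basic) (b' : a' ∈ (actB n).Basic)
    (hX : ∀ x ∈ OO n, ∃ v : VV n, (∀ c : ℍ, v.1 ≠ c • x.1) ∧ ctr v (ev a x) = 1 ∧
      ctr v (ev a' x) = 1 ∧ ctr v (ev (d a) x) = 0 ∧ ctr v (ev (d a') x) = 0) (m : ℕ) :
    ∫ y, den (sg hs * (a' * d a' ^ m)) y = ∫ y, den (sg hs * (a * d a ^ m)) y := by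
  have e := (actB n).d_mem b
  have e' := (actB n).d_mem b'
  have hR : ∑ i ∈ Finset.range m, d a' ^ i * d a ^ (m - 1 - i) ∈ (actB n).Basic :=
    sum_mem fun i _ => mul_mem (pow_mem e' _) (pow_mem e _)
  have hκ := mul_mem b (mul_mem (sub_mem b' b) hR)
  have h0 := den_hor (sg_one hs) (mul_mem (sub_mem b' b) (add_mem (pow_mem e' m) (mul_mem e hR)))
    fun x hx => by
      obtain ⟨v, h1, h2, h3, h4, h5⟩ := hX x hx
      have k : d a ∈ connK (U := UO n) hx v := h4
      have k' : d a' ∈ connK (U := UO n) hx v := h5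
      have kb : a' - a ∈ connK (U := UO n) hx v := by
        change ctr v (ev (a' - a) x) = 0
        rw [ev_sub, map_sub, h2, h3, sub_self]
      exact ⟨v, h1, mul_mem kb (add_mem (pow_mem k' m) (mul_mem k
        (sum_mem fun i _ => mul_mem (pow_mem k' _) (pow_mem k _))))⟩
  have h1 := integral_add (integrable_den hs (mul_mem b' (pow_mem e' m)))
    (integrable_den hs ((actB n).d_mem hκ))
  rw [int_den_d hs hκ, add_zero] at h1
  rw [← h1]
  refine integral_congr_ae (Eventually.of_forall fun y => ?_)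
  beta_reduce
  rw [← den_add, ← mul_add, conn_id o o' m, mul_add, den_add, h0, add_zero]

end Pool.Agent.Work.MP_8c604c_gt.C
end
end

-- merged part: Pool.Agent.Work.MP_8c604c_gt.C.Flow
section
/-!
Both one-forms are connection forms for the flow.
Plan. Apply conn_indep with v = X x (alF_basic, alP_basic, isOne_one1, IsOne.pull).
FD.indep: F : Flw (UO n) from D.psi, X = F.X, (X x).1 = vel g x (Flw.hasDerivAt); alF is invariant, ctr X alF = 1 (vel_unit), Flw.cartan (model ../Top.lean ctx, ../TopA.lean 288).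
For alP: D f X = 2 Jc f (differentiate f_rot at 0), ev_pull, ctr_lmap, ctr_io, B0 f (2 Jc f) = nr^2 = 1; d alP = pull (d lam0), ev_d_one1, ctr_dop_io:
ctr (2 Jc f) (d lam0) = io (-2 <f, .>), which vanishes on the image of D f because nr f = 1 near x.
-/

set_option maxSynthPendingDepth 3

open Set Filter Topology MeasureTheory
open scoped ContDiff Quaternion

noncomputable section
namespace Pool.Agent.Work.MP_8c604c_gt.C

open H T TopologicalSpace Lam Om

variable {n : ℕ}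

/-- The flow of the data. -/
def Flow_F {g : Met n} (D : FD g) : Flw (UO n) where
  big := ⟨fun p => D.ψ p.1 p.2, D.ψ_smooth.mono fun _ hp => hp.2, fun p hp => D.ψ_mem p.1 p.2 hp.2⟩
  zero := D.ψ_zero
  add := D.ψ_add

theorem Flow_der {g : Met n} (D : FD g) {x : VV n} (hx : x ∈ OO n) :
    HasDerivAt (fun s => D.ψ s x) ((Flow_F D).X x) 0 := by
  have h0 := (Flow_F D).hasDerivAt 0 (x := x) hx
  rwa [(Flow_F D).zero x hx] at h0

theorem Flow_fst {g : Met n} (D : FD g) {x : VV n} (hx : x ∈ OO n) :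
    ((Flow_F D).X x).1 = vel g x :=
  ((ContinuousLinearMap.fst ℝ (E n) (E n)).hasFDerivAt.comp_hasDerivAt (0 : ℝ)
    (Flow_der D hx)).unique (D.ψ_vel x hx)

theorem Flow_alX {g : Met n} (h : IsMetric g) (D : FD g) {x : VV n} (hx : x ∈ OO n) :
    ctr ((Flow_F D).X x) (ev (alF h) x) = 1 := by
  have e : al g x ((Flow_F D).X x) = 1 := by
    change g x.1 (vel g x) ((Flow_F D).X x).1 = 1
    rw [Flow_fst D hx, h.vel_unit hx]
  rw [alF, ev_one1 (U := UO n) _ _ hx, ctr_io, e, map_one]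

theorem Flow_inv {g : Met n} (h : IsMetric g) (D : FD g) : (Flow_F D).Inv (alF h) := fun t =>
  Om.ext fun x hx => by
    rw [alF, ev_pull _ _ hx, ev_one1 _ _ (((Flow_F D).tm t).maps hx), lmap_io, ev_one1 _ _ hx]
    congr 1
    exact ContinuousLinearMap.ext fun δ => D.ψ_al t x hx δ

theorem Flow_dalX {g : Met n} (h : IsMetric g) (D : FD g) {x : VV n} (hx : x ∈ OO n) :
    ctr ((Flow_F D).X x) (ev (d (alF h)) x) = 0 := by
  have e : (Flow_F D).iX (alF h) = 1 := Om.ext fun y hy => by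
    rw [Flw.iX, ev_ctrF _ _ _ hy, Flow_alX h D hy, ev_one hy]
  have c := (Flow_F D).cartan (Flow_inv h D)
  rw [e, d_one, add_zero] at c
  rw [← ev_ctrF (U := UO n) _ (Flow_F D).X_smooth _ hx, ← Flw.iX, c, ev_zero]

theorem Flow_sq {w : CH n} (h : nr w = 1) : ‖w.1‖ ^ 2 + ‖w.2‖ ^ 2 = 1 := by
  have h0 : 0 ≤ ‖w.1‖ ^ 2 + ‖w.2‖ ^ 2 := by positivity
  rw [← Real.sq_sqrt h0, show √(‖w.1‖ ^ 2 + ‖w.2‖ ^ 2) = 1 from h, one_pow]

theorem Flow_dat {g : Met n} (D : FD g) {x : VV n} (hx : x ∈ OO n) :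
    HasFDerivAt D.f (fderiv ℝ D.f x) x :=
  (fj_diff D.fM hx).hasFDerivAt

theorem Flow_fX {g : Met n} (D : FD g) {x : VV n} (hx : x ∈ OO n) :
    fderiv ℝ D.f x ((Flow_F D).X x) = (2 : ℝ) • Jc (D.f x) := by
  have h1 : HasFDerivAt D.f (fderiv ℝ D.f x) (D.ψ 0 x) := by
    rw [D.ψ_zero x hx]
    exact Flow_dat D hx
  have h2 := h1.comp_hasDerivAt (0 : ℝ) (Flow_der D hx)
  have h3 : HasDerivAt (fun t : ℝ => 2 * t) 2 0 := by
    simpa using (hasDerivAt_id (0 : ℝ)).const_mul 2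
  have h4 := (h3.cos.smul_const (D.f x)).add (h3.sin.smul_const (Jc (D.f x)))
  have h5 := h2.unique (h4.congr_of_eventuallyEq (Eventually.of_forall fun t => D.f_rot t x hx))
  simpa using h5

theorem Flow_tan {g : Met n} (D : FD g) {x : VV n} (hx : x ∈ OO n) (δ : VV n) :
    inner ℝ (D.f x).1 (fderiv ℝ D.f x δ).1 + inner ℝ (D.f x).2 (fderiv ℝ D.f x δ).2 = 0 := by
  have h1 := (Flow_dat D hx).fst.norm_sq.add (Flow_dat D hx).snd.norm_sq
  have h2 : HasFDerivAt (fun _ : VV n => (1 : ℝ)) (0 : VV n →L[ℝ] ℝ) x := hasFDerivAt_const _ _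
  have h3 := h1.unique (h2.congr_of_eventuallyEq
    (eventually_of_mem (isOpen_OO.mem_nhds hx) fun y hy => Flow_sq (D.f_unit y hy)))
  have h4 := congrArg (fun L : VV n →L[ℝ] ℝ => L δ) h3
  simp only [add_apply, smul_apply, ContinuousLinearMap.comp_apply, innerSL_apply_apply, zero_apply,
    ContinuousLinearMap.coe_fst', ContinuousLinearMap.coe_snd', nsmul_eq_mul] at h4
  push_cast at h4
  linarith

theorem Flow_alPX {g : Met n} (D : FD g) {x : VV n} (hx : x ∈ OO n) :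
    ctr ((Flow_F D).X x) (ev D.alP x) = 1 := by
  have e : B0 n (D.f x) ((2 : ℝ) • Jc (D.f x)) = 1 := by
    have q := Flow_sq (D.f_unit x hx)
    rw [B0_apply]
    simp only [Jc, Prod.smul_fst, Prod.smul_snd, inner_smul_right, inner_neg_right,
      real_inner_self_eq_norm_sq]
    linarith
  rw [FD.alP, ev_pull D.fM _ hx, ctr_lmap, lam0, ev_one1 _ _ (D.fM.maps hx), ctr_io]
  change lmap _ (algebraMap ℝ _ (B0 n (D.f x) (fderiv ℝ D.f x ((Flow_F D).X x)))) = 1
  rw [Flow_fX D hx, e, map_one, map_one]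

theorem Flow_dalPX {g : Met n} (D : FD g) {x : VV n} (hx : x ∈ OO n) :
    ctr ((Flow_F D).X x) (ev (d D.alP) x) = 0 := by
  rw [FD.alP, d_pull, ev_pull D.fM _ hx, ctr_lmap, lam0, ev_d_one1 _ _ (D.fM.maps hx),
    (B0 n).fderiv, ctr_dop_io, lmap_io, ← map_zero (io (V := VV n))]
  congr 1
  refine ContinuousLinearMap.ext fun δ => ?_
  change B0 n (fderiv ℝ D.f x ((Flow_F D).X x)) (fderiv ℝ D.f x δ) -
    B0 n (fderiv ℝ D.f x δ) (fderiv ℝ D.f x ((Flow_F D).X x)) = 0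
  have t := Flow_tan D hx δ
  rw [Flow_fX D hx, B0_apply, B0_apply]
  simp only [Jc, Prod.smul_fst, Prod.smul_snd, real_inner_smul_left, real_inner_smul_right,
    inner_neg_right, inner_neg_left]
  rw [real_inner_comm (D.f x).1, real_inner_comm (D.f x).2]
  linarith

theorem FD.indep {g : Met n} (h : IsMetric g) (D : FD g) (m : ℕ) :
    ∫ y, den (sg (adm_spd h) * (D.alP * d D.alP ^ m)) y =
      ∫ y, den (sg (adm_spd h) * (alF h * d (alF h) ^ m)) y := by
  refine conn_indep (adm_spd h) (isOne_one1 _ _) ((isOne_one1 _ _).pull _) (alF_basic h)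
    D.alP_basic (fun x hx => ⟨(Flow_F D).X x, fun c hc => ?_, Flow_alX h D hx, Flow_alPX D hx,
      Flow_dalX h D hx, Flow_dalPX D hx⟩) m
  have e := h.vel_unit hx
  rw [← Flow_fst D hx, hc, h.vert c _ _ hx.1] at e
  exact zero_ne_one e

end Pool.Agent.Work.MP_8c604c_gt.C
end
end
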