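import Pool.Agent.Work.MP_8c604c_gt.C.Change
import Pool.Agent.Work.MP_8c604c_gt.C.Flow

-- merged part: Pool.Agent.Work.MP_8c604c_gt.C.Leg
section
/-!
Linear algebra: the Legendre map in the chart, the Gram determinant in the chart.
Plan. legendre: copy of ../NVolAux.lean nvol_legendre with E n replaced by EA n (finrank_EA). Second part: with D = innerSL o snd and B1 d d' = <d.2, d'.1> the form B0 + B1 is
symmetric, so dop (io B0) = - dop (io B1) (dop_symm), Even.neg_pow, cdet of the inner product is 1.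
dop_symm: dop_apply, expand io (S (bas i)) in the basis cob (aux_sum_cob), the double sum equals its negative (io_anti, Finset.sum_comm).
-/

set_option maxSynthPendingDepth 3

open Set Filter Topology MeasureTheory
open scoped ContDiff Quaternion

noncomputable section
namespace Pool.Agent.Work.MP_8c604c_gt.C

open H T TopologicalSpace Lam Om

variable {n : ℕ}

/-- Gram determinant in an orthonormal basis of the chart. -/
def cdet (B : EA n →L[ℝ] EA n →L[ℝ] ℝ) : ℝ :=
  (Matrix.of fun i j => B (stdOrthonormalBasis ℝ (EA n) i) (stdOrthonormalBasis ℝ (EA n) j)).det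

theorem cdet_comp (B : EA n →L[ℝ] EA n →L[ℝ] ℝ) (T : EA n →L[ℝ] EA n) :
    cdet (B.bilinearComp T T) = T.det ^ 2 * cdet B := by
  set b := (stdOrthonormalBasis ℝ (EA n)).toBasis with hb
  have e : ∀ C : EA n →L[ℝ] EA n →L[ℝ] ℝ,
      cdet C = (LinearMap.toMatrix₂ b b C.toLinearMap₁₂).det := fun C => by
    unfold cdet; congr 1; ext i j; simp [hb]
  have e2 : (B.bilinearComp T T).toLinearMap₁₂ =
      B.toLinearMap₁₂.compl₁₂ (T : EA n →ₗ[ℝ] EA n) T := by
    ext u w; rfl
  rw [e, e, e2, LinearMap.toMatrix₂_compl₁₂ b b b b, Matrix.det_mul, Matrix.det_mul,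
    Matrix.det_transpose, LinearMap.det_toMatrix]
  change T.det * _ * T.det = _
  ring

theorem cdet_inner : cdet (innerSL ℝ (E := EA n)) = 1 := by
  have : (Matrix.of fun i j => (innerSL ℝ (E := EA n) : EA n →L[ℝ] EA n →L[ℝ] ℝ)
      (stdOrthonormalBasis ℝ (EA n) i) (stdOrthonormalBasis ℝ (EA n) j)) = 1 := by
    ext i j
    simp [Matrix.one_apply, (stdOrthonormalBasis ℝ (EA n)).inner_eq_ite]
  rw [cdet, this, Matrix.det_one]

theorem dop_symm {V : Type} [NormedAddCommGroup V] [NormedSpace ℝ V] [FiniteDimensional ℝ V]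
    {S : V →L[ℝ] V →L[ℝ] ℝ} (h : ∀ u v, S u v = S v u) : dop (io.comp S) = 0 := by
  have e : dop (io.comp S) =
      ∑ i, ∑ j, S (bas V i) (bas V j) • (io (cob V i) * io (cob V j)) := by
    rw [dop_apply]
    refine Finset.sum_congr rfl fun i _ => ?_
    rw [ContinuousLinearMap.comp_apply]
    conv_lhs => rw [← aux_sum_cob (S (bas V i))]
    simp only [map_sum, map_smul, Finset.mul_sum, mul_smul_comm]
  have e' : dop (io.comp S) = -dop (io.comp S) := by
    conv_lhs => rw [e, Finset.sum_comm]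
    rw [e, ← Finset.sum_neg_distrib]
    refine Finset.sum_congr rfl fun i _ => ?_
    rw [← Finset.sum_neg_distrib]
    refine Finset.sum_congr rfl fun j _ => ?_
    rw [h, io_anti, smul_neg]
  have e2 : (2 : ℝ) • dop (io.comp S) = 0 := by
    rw [two_smul]
    exact add_eq_zero_iff_eq_neg.2 e'
  exact (smul_eq_zero.1 e2).resolve_left two_ne_zero

theorem Leg_sum {V : Type} [NormedAddCommGroup V] [NormedSpace ℝ V] [FiniteDimensional ℝ V]
    {N : ℕ} (p q : Fin N → V →L[ℝ] ℝ) (L : V →L[ℝ] V) :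
    dop (∑ i, ((p i).comp L).smulRight (io ((q i).comp L))) =
      lmap L (∑ i, io (p i) * io (q i)) := by
  rw [map_sum, map_sum]
  simp only [dop_smulRight, map_mul, lmap_io]

theorem Leg_aux (n : ℕ) : ∃ c : ℝ, c ≠ 0 ∧ ∀ D : CH n →L[ℝ] EA n →L[ℝ] ℝ,
    ∀ B : CH n →L[ℝ] CH n →L[ℝ] ℝ, (∀ δ δ', B δ δ' = D δ δ'.1) →
      top (dop (io.comp B) ^ (4 * n)) = c * cdet (D.comp (ContinuousLinearMap.inr ℝ _ _)) := by
  classical
  let b := stdOrthonormalBasis ℝ (EA n)
  let p : Fin (Module.finrank ℝ (EA n)) → CH n →L[ℝ] ℝ := fun i =>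
    (innerSL ℝ (b i)).comp (ContinuousLinearMap.snd ℝ _ _)
  let q : Fin (Module.finrank ℝ (EA n)) → CH n →L[ℝ] ℝ := fun i =>
    (innerSL ℝ (b i)).comp (ContinuousLinearMap.fst ℝ _ _)
  have hz : ∀ u : EA n, (∀ i, inner ℝ (b i) u = 0) → u = 0 := fun u hu => by
    rw [← b.sum_repr' u]
    simp [hu]
  refine ⟨_, top_sum_pow_ne (by rw [Module.finrank_prod, two_mul]) p q
    fun v h1 h2 => Prod.ext (hz _ h2) (hz _ h1), fun D B hB => ?_⟩
  let L : CH n →L[ℝ] CH n := (ContinuousLinearMap.fst ℝ _ _).prod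
    (∑ i, (D.flip (b i)).smulRight (b i))
  have hL : ∀ δ i, inner ℝ (b i) (L δ).2 = D δ (b i) := fun δ i => by
    simp only [L, ContinuousLinearMap.prod_apply, sum_apply,
      ContinuousLinearMap.smulRight_apply, ContinuousLinearMap.flip_apply]
    exact b.orthonormal.inner_right_fintype _ i
  have e1 : dop (io.comp B) = lmap L (∑ i, io (p i) * io (q i)) := by
    have : io.comp B = ∑ i, ((p i).comp L).smulRight (io ((q i).comp L)) := by
      refine ContinuousLinearMap.ext fun δ => ?_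
      simp only [ContinuousLinearMap.comp_apply, sum_apply,
        ContinuousLinearMap.smulRight_apply, ← map_smul, ← map_sum]
      refine congrArg io (ContinuousLinearMap.ext fun δ' => ?_)
      rw [hB, ← b.sum_repr' δ'.1, map_sum, sum_apply]
      refine Finset.sum_congr rfl fun i _ => ?_
      rw [map_smul, ← hL, smul_eq_mul, mul_comm]
      rfl
    rw [this, Leg_sum]
  have e2 : L.det = cdet (D.comp (ContinuousLinearMap.inr ℝ _ _)) := by
    have hM : LinearMap.toMatrix (b.toBasis.prod b.toBasis) (b.toBasis.prod b.toBasis)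
        (L : CH n →ₗ[ℝ] CH n) = Matrix.fromBlocks 1 0 (Matrix.of fun i j => D (b j, 0) (b i))
          (Matrix.of fun i j => D (0, b i) (b j)).transpose := by
      ext (i | i) (j | j)
      · simp [LinearMap.toMatrix_apply, L, Matrix.one_apply]
      · simp [LinearMap.toMatrix_apply, L]
      · simp [LinearMap.toMatrix_apply, OrthonormalBasis.repr_apply_apply, hL]
      · simp [LinearMap.toMatrix_apply, OrthonormalBasis.repr_apply_apply, hL]
    rw [ContinuousLinearMap.det, ← LinearMap.det_toMatrix (b.toBasis.prod b.toBasis), hM,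
      Matrix.det_fromBlocks_zero₁₂, Matrix.det_one, one_mul, Matrix.det_transpose]
    rfl
  rw [e1, ← map_pow, top_lmap, e2, mul_comm, ← finrank_EA]

theorem legendre (n : ℕ) : ∃ c : ℝ, c ≠ 0 ∧ top (dop (io.comp (B0 n)) ^ (4 * n)) = c ∧
    ∀ (D : CH n →L[ℝ] EA n →L[ℝ] ℝ) (B : CH n →L[ℝ] CH n →L[ℝ] ℝ), (∀ δ δ', B δ δ' = D δ δ'.1) →
      top (dop (io.comp B) ^ (4 * n)) = c * cdet (D.comp (ContinuousLinearMap.inr ℝ _ _)) := by
  obtain ⟨c, hc, h⟩ := Leg_aux n
  refine ⟨c, hc, ?_, h⟩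
  let B1 : CH n →L[ℝ] CH n →L[ℝ] ℝ := (innerSL ℝ (E := EA n)).bilinearComp
    (ContinuousLinearMap.snd ℝ _ _) (ContinuousLinearMap.fst ℝ _ _)
  have hB1 : ∀ u v, B1 u v = inner ℝ u.2 v.1 := fun _ _ => rfl
  have h1 := h ((innerSL ℝ (E := EA n)).comp (ContinuousLinearMap.snd ℝ _ _)) B1 fun _ _ => rfl
  have h2 : ((innerSL ℝ (E := EA n)).comp (ContinuousLinearMap.snd ℝ (EA n) (EA n))).comp
      (ContinuousLinearMap.inr ℝ _ _) = innerSL ℝ (E := EA n) :=
    ContinuousLinearMap.ext fun _ => rfl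
  have h3 : dop (io.comp (B0 n + B1)) = 0 := dop_symm fun u v => by
    simp only [add_apply, B0_apply, hB1]
    rw [real_inner_comm u.1 v.2, real_inner_comm u.2 v.1]
    ring
  rw [ContinuousLinearMap.comp_add, map_add, add_eq_zero_iff_eq_neg] at h3
  rw [h2, cdet_inner, mul_one] at h1
  rw [h3, Even.neg_pow ⟨2 * n, by ring⟩, h1]

end Pool.Agent.Work.MP_8c604c_gt.C
end
end

-- merged part: Pool.Agent.Work.MP_8c604c_gt.C.Gram
section
/-!
The Gram determinant upstairs equals the Gram determinant in the chart.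
Plan. detG_aff: let z = aff a. T u = (u 0) . z + hor z (aff0 (tl u)) has determinant 1 (T = T1 o T2, T2 u = u + (u 0) . aff0 a, T1 u = u - nu z (u - (u 0) . z) . z, both are 1 + nilpotent:
1 + N with N N = 0 has determinant 1, LinearMap.det of unipotent, or use a block matrix), and GG g z (T u) (T u') = <u 0, u' 0> + g z (aff0 (tl u)) (aff0 (tl u')).
bdet_comp; bdet does not depend on the orthonormal basis (bdet_comp for an isometry, or compare Gram matrices through Basis.toMatrix), use the basis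
(orthonormal basis of the quaternions) + (stdOrthonormalBasis of EA n), block diagonal matrix. Any other route is welcome.
-/

set_option maxSynthPendingDepth 3

open Set Filter Topology MeasureTheory
open scoped ContDiff Quaternion

noncomputable section
namespace Pool.Agent.Work.MP_8c604c_gt.C

open H T TopologicalSpace Lam Om

variable {n : ℕ}

theorem Gram_unip {V W : Type} [AddCommGroup V] [Module ℝ V] [Module.Finite ℝ V] [AddCommGroup W]
    [Module ℝ W] [Module.Finite ℝ W] (f : V →ₗ[ℝ] W) (k : W →ₗ[ℝ] V) (h : f ∘ₗ k = 0) :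
    LinearMap.det (LinearMap.id + k ∘ₗ f) = 1 := by
  rw [← LinearMap.det_toMatrix (Module.finBasis ℝ V), map_add, LinearMap.toMatrix_id,
    LinearMap.toMatrix_comp _ (Module.finBasis ℝ W), Matrix.det_one_add_mul_comm,
    ← LinearMap.toMatrix_comp, h, map_zero, add_zero, Matrix.det_one]

theorem Gram_fam {ι : Type} [Fintype ι] [DecidableEq ι] (v : ι → E n)
    (hι : Fintype.card ι = Module.finrank ℝ (E n)) (B : E n →L[ℝ] E n →L[ℝ] ℝ) :
    (Matrix.of fun i j => B (v i) (v j)).det =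
      (Matrix.of fun i j => innerSL ℝ (E := E n) (v i) (v j)).det * bdet B := by
  let e := (Fintype.equivFinOfCardEq hι).symm
  let T : E n →L[ℝ] E n := LinearMap.toContinuousLinearMap
    ((stdOrthonormalBasis ℝ (E n)).toBasis.constr ℝ fun i => v (e i))
  have hT (i) : T (stdOrthonormalBasis ℝ (E n) i) = v (e i) :=
    (stdOrthonormalBasis ℝ (E n)).toBasis.constr_basis ℝ (fun i => v (e i)) i
  have key (C : E n →L[ℝ] E n →L[ℝ] ℝ) :
      (Matrix.of fun i j => C (v i) (v j)).det = T.det ^ 2 * bdet C := by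
    rw [← bdet_comp, ← Matrix.det_submatrix_equiv_self e, bdet]
    congr 1
    ext i j
    simp only [Matrix.submatrix_apply, Matrix.of_apply, ContinuousLinearMap.bilinearComp_apply, hT]
  rw [key B, key, bdet_inner, mul_one]

theorem Gram_block (B : E n →L[ℝ] E n →L[ℝ] ℝ) (C : EA n →L[ℝ] EA n →L[ℝ] ℝ)
    (h : ∀ u w, B u w = inner ℝ (u 0) (w 0) + C (tl n u) (tl n w)) : bdet B = cdet C := by
  let v : Fin (Module.finrank ℝ ℍ) ⊕ Fin (Module.finrank ℝ (EA n)) → E n :=
    Sum.elim (fun i => stdOrthonormalBasis ℝ ℍ i • aff 0) fun j =>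
      aff0 (stdOrthonormalBasis ℝ (EA n) j)
  have h1 (c : ℍ) : (c • aff (0 : EA n)) 0 = c := mul_one c
  have h2 (c : ℍ) : tl n (c • aff (0 : EA n)) = 0 := by rw [tl_smul, tl_aff, smul_zero]
  have key (B : E n →L[ℝ] E n →L[ℝ] ℝ) (C : EA n →L[ℝ] EA n →L[ℝ] ℝ)
      (h : ∀ u w, B u w = inner ℝ (u 0) (w 0) + C (tl n u) (tl n w)) :
      (Matrix.of fun i j => B (v i) (v j)).det = cdet C := by
    have h3 : (Matrix.of fun i j => B (v i) (v j)) = Matrix.fromBlocks 1 0 0
        (Matrix.of fun i j =>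
          C (stdOrthonormalBasis ℝ (EA n) i) (stdOrthonormalBasis ℝ (EA n) j)) := by
      ext (i | i) (j | j)
      · simp only [v, Matrix.of_apply, Sum.elim_inl, h, h1, h2, map_zero, add_zero,
          Matrix.fromBlocks_apply₁₁, Matrix.one_apply]
        exact orthonormal_iff_ite.1 (stdOrthonormalBasis ℝ ℍ).orthonormal i j
      · simp only [v, Matrix.of_apply, Sum.elim_inl, Sum.elim_inr, h, h2, map_zero, add_zero,
          Matrix.fromBlocks_apply₁₂, aff0_zero, inner_zero_right, Matrix.zero_apply,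
          zero_apply]
      · simp only [v, Matrix.of_apply, Sum.elim_inl, Sum.elim_inr, h, h2, map_zero, add_zero,
          Matrix.fromBlocks_apply₂₁, aff0_zero, inner_zero_left, Matrix.zero_apply]
      · simp only [v, Matrix.of_apply, Sum.elim_inr, h, zero_add, Matrix.fromBlocks_apply₂₂,
          aff0_zero, inner_zero_left, tl_aff0]
    rw [h3, Matrix.det_fromBlocks_zero₂₁, Matrix.det_one, one_mul, cdet]
  have h4 := Gram_fam v (by
    rw [Fintype.card_sum, Fintype.card_fin, Fintype.card_fin, finrank_EA, finrank_E,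
      Quaternion.finrank_eq_four, add_comm]) B
  rw [key B C h, key _ (innerSL ℝ (E := EA n)), cdet_inner, one_mul] at h4
  · exact h4.symm
  · intro u w
    rw [innerSL_apply_apply, innerSL_apply_apply, PiLp.inner_apply, PiLp.inner_apply,
      Fin.sum_univ_succ]
    rfl

theorem detG_aff {g : Met n} (h : IsMetric g) (a : EA n) :
    detG g (aff a) = cdet ((g (aff a)).bilinearComp (a0L n) (a0L n)) := by
  have hz := aff_ne a
  let p0 : E n →L[ℝ] ℍ := PiLp.proj 2 (fun _ : Fin (n + 1) => ℍ) 0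
  let sm (y : E n) : ℍ →L[ℝ] E n := (ContinuousLinearMap.lsmul ℝ ℍ).flip y
  let q : E n →L[ℝ] ℍ := -(nuL (aff a)).comp (.id ℝ _ - (sm (aff a)).comp p0)
  let T₂ : E n →L[ℝ] E n := .id ℝ _ + (sm (aff0 a)).comp p0
  let T₁ : E n →L[ℝ] E n := .id ℝ _ + (sm (aff a)).comp q
  have d₂ : T₂.det = 1 := Gram_unip (p0 : E n →ₗ[ℝ] ℍ) (sm (aff0 a) : ℍ →ₗ[ℝ] E n)
    (LinearMap.ext fun c => mul_zero c)
  have d₁ : T₁.det = 1 := Gram_unip (q : E n →ₗ[ℝ] ℍ) (sm (aff a) : ℍ →ₗ[ℝ] E n)
    (LinearMap.ext fun c => by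
      change -nu (aff a) (c • aff a - (c * 1) • aff a) = 0
      rw [mul_one, sub_self, nu_zero, neg_zero])
  have hT (u : E n) : T₁ (T₂ u) = u 0 • aff a + hor (aff a) (aff0 (tl n u)) := by
    have h1 : T₂ u = u 0 • aff a + aff0 (tl n u) := by
      change u + u 0 • aff0 a = _
      ext i : 1
      refine Fin.cases ?_ (fun j => ?_) i
      · change u 0 + u 0 * 0 = u 0 * 1 + 0
        simp
      · change u j.succ + u 0 * a j = u 0 * a j + u j.succ
        exact add_comm _ _
    have h2 : T₂ u 0 = u 0 := by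
      change u 0 + u 0 * 0 = u 0
      simp
    change T₂ u + (-nu (aff a) (T₂ u - T₂ u 0 • aff a)) • aff a = _
    rw [h2, h1, add_sub_cancel_left, hor_def, neg_smul, add_assoc, ← sub_eq_add_neg]
  have h1 := bdet_comp (GG g (aff a)) T₁
  have h2 := bdet_comp ((GG g (aff a)).bilinearComp T₁ T₁) T₂
  rw [h1, d₁, d₂, one_pow, one_mul, one_mul] at h2
  rw [detG, ← h2]
  refine Gram_block _ _ fun u w => ?_
  have h3 (u : E n) : nu (aff a) (T₁ (T₂ u)) = u 0 := by
    rw [hT, nu_add, nu_smul, nu_self hz, nu_hor hz, mul_one, add_zero]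
  simp only [ContinuousLinearMap.bilinearComp_apply]
  rw [GG_apply, h3, h3, hT, hT, add_comm, map_add, h.vert' _ _ hz, zero_add, map_add, add_apply,
    h.vert _ _ _ hz, zero_add, h.hor_left hz, h.hor_right hz]
  rfl

end Pool.Agent.Work.MP_8c604c_gt.C
end
end

-- merged part: Pool.Agent.Work.MP_8c604c_gt.C.Pts
section
/-!
The two densities in the chart. N = 4n, s = spd g.
Plan. pts_pow: for a basic one-form a and a function u, (d (u a))^N = u^N (d a)^N + N u^(N-1) du a (d a)^(N-1) (d_mul, ../NVolAux.lean nvol_pow or Lam.aux_add_pow), den_basic kills the first term.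
First density: u = s, s a = one1 (g x.1 x.2 o fst); its pull-back to the chart is the one-form y -> (g (aff y.1) (aff0 y.2) o a0L) o fst; d_pull, ev_d_one1, legendre, detG_aff
(model ../NVol.lean nvol_dA, nvol_point). Second density: u = s^2, s^2 alP = pull cone lam0 (B0 (s f) (ds f + s Df) = s^2 B0 f Df because B0 f f = 0),
den ((d (pull cone lam0))^N) = top (lmap (D (cone o sc0)) (dop (io B0)^N)) = det * c (pull_comp, top_lmap). For y.2 = 0 both sides vanish (den_zero, spd = 0, rw0 k 0 = 0).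
-/

set_option maxSynthPendingDepth 3

open Set Filter Topology MeasureTheory
open scoped ContDiff Quaternion

noncomputable section
namespace Pool.Agent.Work.MP_8c604c_gt.C

open H T TopologicalSpace Lam Om

variable {n : ℕ}

theorem FD.contDiffOn_cone {g : Met n} (h : IsMetric g) (D : FD g) :
    ContDiffOn ℝ ∞ D.cone (OO n) := h.contDiffOn_spd.smul D.f_smooth

theorem pts_pow {a : Om (UO n)} (o : IsOne a) (b : a ∈ (actB n).Basic) {u : VV n → ℝ}
    (hu : ContDiffOn ℝ ∞ u (UO n)) (k : ℕ) {y : CH n} (hy : y.2 ≠ 0) :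
    den (d (fn u hu * a) ^ (k + 1)) y = (k + 1) * u (sc0 y) ^ k *
      top (lmap (D0 n) (io (fderiv ℝ u (sc0 y)) * ev (a * d a ^ k) (sc0 y))) := by
  have hx : sc0 y ∈ UO n := sc0_mem hy
  obtain ⟨θ, hθ⟩ := o _ hx
  have e : ev (d (fn u hu * a)) (sc0 y) =
      io (fderiv ℝ u (sc0 y)) * io θ + u (sc0 y) • ev (d a) (sc0 y) := by
    rw [d_mul, (isFn_fn u hu).inv, ev_add, ev_mul, ev_mul, ev_d_fn _ _ hx, ev_fn _ _ hx, hθ,
      Algebra.smul_def]
  have h0 : io (fderiv ℝ u (sc0 y)) * io θ * (io (fderiv ℝ u (sc0 y)) * io θ) = 0 := by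
    rw [← mul_assoc, (aux_commute _ θ (io (fderiv ℝ u (sc0 y)))).eq, ← mul_assoc, io_sq, zero_mul,
      zero_mul]
  have h1 := den_basic (pow_mem ((actB n).d_mem b) (k + 1)) y
  rw [den_apply _ hy, ev_pow _ _ hx] at h1
  rw [den_apply _ hy, ev_pow _ _ hx, e, aux_add_pow (aux_commute _ θ) h0, ev_mul, ev_pow _ _ hx, hθ,
    smul_pow, smul_pow, mul_smul_comm, map_add, map_smul, map_smul, map_smul, map_add, map_smul,
    map_smul, map_smul, h1, smul_zero, zero_add, mul_assoc (io _), smul_eq_mul, smul_eq_mul,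
    mul_assoc]

theorem Pts_sg {s : VV n → ℝ} (hs : Adm s) (κ : Om (UO n)) {y : CH n} (hy : y.2 ≠ 0) :
    den (sg hs * κ) y = wt (Real.log (s (sc0 y))) / s (sc0 y) *
      top (lmap (D0 n) (io (fderiv ℝ s (sc0 y)) * ev κ (sc0 y))) := by
  rw [den_apply _ hy, ev_mul, ev_sg hs (sc0_mem hy), smul_mul_assoc, map_smul, map_smul,
    smul_eq_mul]

theorem Pts_one {c : ℝ} (hL : ∀ (D : CH n →L[ℝ] EA n →L[ℝ] ℝ) (B : CH n →L[ℝ] CH n →L[ℝ] ℝ),
      (∀ δ δ', B δ δ' = D δ δ'.1) →
      top (dop (io.comp B) ^ (4 * n)) = c * cdet (D.comp (ContinuousLinearMap.inr ℝ _ _)))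
    {g : Met n} (h : IsMetric g) (hs : ContDiffOn ℝ ∞ (spd g) (UO n)) {y : CH n} (hy : y.2 ≠ 0) :
    den (d (fn (spd g) hs * alF h) ^ (4 * n)) y = c * detG g (aff y.1) := by
  have hg : ContDiff ℝ ∞ fun y : CH n => g (sc0 y).1 := contDiff_iff_contDiffAt.2 fun y =>
    (h.contDiffAt (aff_ne y.1)).comp y contDiff_sc0.fst.contDiffAt
  have h1 : ContDiff ℝ ∞ fun y : CH n => (g (sc0 y).1 (sc0 y).2).comp (a0L n) :=
    (hg.clm_apply contDiff_sc0.snd).clm_comp contDiff_const
  have h2 : ContDiff ℝ ∞ fun y : CH n => ((g (sc0 y).1 (sc0 y).2).comp (a0L n)).comp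
      (ContinuousLinearMap.fst ℝ (EA n) (EA n)) := h1.clm_comp contDiff_const
  have e : pull (sec0 n) (fn (spd g) hs * alF h) = one1 (U := U0 n) _ h2.contDiffOn := by
    refine Om.ext fun z hz => ?_
    have hx : sc0 z ∈ UO n := sc0_mem hz
    rw [ev_pull _ _ hz, ev_one1 _ _ hz]
    change lmap (fderiv ℝ sc0 z) (ev (fn (spd g) hs * alF h) (sc0 z)) = _
    rw [(hasFDerivAt_sc0 z).fderiv, ev_mul, ev_fn _ _ hx, alF, ev_one1 _ _ hx, ← Algebra.smul_def,
      ← map_smul, lmap_io]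
    refine congrArg io (ContinuousLinearMap.ext fun δ => ?_)
    change spd g (sc0 z) * g (sc0 z).1 (vel g (sc0 z)) (a0L n δ.1) =
      g (sc0 z).1 (sc0 z).2 (a0L n δ.1)
    rw [vel, map_smul, smul_apply, h.hor_left hx.1, smul_eq_mul,
      mul_inv_cancel_left₀ (h.spd_pos hx).ne']
  have hD := (h1.differentiable (by simp) y).hasFDerivAt
  have hy' : y ∈ U0 n := hy
  rw [den, map_pow, ← d_pull, e, ev_pow _ _ hy', ev_d_one1 _ _ hy',
    hL (fderiv ℝ (fun y : CH n => (g (sc0 y).1 (sc0 y).2).comp (a0L n)) y) _ fun δ δ' => ?_,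
    detG_aff h]
  · congr 2
    exact (HasFDerivAt.comp (f := fun w => (y.1, w)) y.2 hD
      (hasFDerivAt_prodMk_right y.1 y.2)).unique
      ((g (aff y.1)).bilinearComp (a0L n) (a0L n)).hasFDerivAt
  · rw [(hD.clm_comp (hasFDerivAt_const _ y)).fderiv]
    simp

theorem Pts_two {g : Met n} (h : IsMetric g) (D : FD g)
    (hs : ContDiffOn ℝ ∞ (fun x => spd g x ^ 2) (UO n)) (k : ℕ) {y : CH n} (hy : y.2 ≠ 0) :
    den (d (fn (fun x => spd g x ^ 2) hs * D.alP) ^ k) y =
      (fderiv ℝ (fun y => D.cone (sc0 y)) y).det * top (dop (io.comp (B0 n)) ^ k) := by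
  let M : SMap (UO n) (⊤ : Opens (CH n)) := ⟨D.cone, D.contDiffOn_cone h, fun _ _ => trivial⟩
  have hT : ∀ w : CH n, w ∈ (⊤ : Opens (CH n)) := fun _ => trivial
  have e : fn (fun x => spd g x ^ 2) hs * D.alP = pull M (lam0 n) := by
    refine Om.ext fun x hx => ?_
    have hO : OO n ∈ 𝓝 x := isOpen_OO.mem_nhds hx
    have d1 := ((h.contDiffOn_spd.contDiffAt hO).differentiableAt (by simp)).hasFDerivAt
    have d2 := ((D.f_smooth.contDiffAt hO).differentiableAt (by simp)).hasFDerivAt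
    have d3 : fderiv ℝ D.cone x = spd g x • fderiv ℝ D.f x +
        (fderiv ℝ (spd g) x).smulRight (D.f x) := (d1.smul d2).fderiv
    rw [ev_mul, ev_fn _ _ hx, FD.alP, ev_pull _ _ hx, ev_pull _ _ hx, lam0, ev_one1 _ _ (hT _),
      ev_one1 _ _ (hT _), lmap_io, lmap_io, ← Algebra.smul_def, ← map_smul]
    refine congrArg io (ContinuousLinearMap.ext fun δ => ?_)
    change spd g x ^ 2 * B0 n (D.f x) (fderiv ℝ D.f x δ) =
      B0 n (spd g x • D.f x) (fderiv ℝ D.cone x δ)
    have h0 : B0 n (D.f x) (D.f x) = 0 := by rw [B0_apply, real_inner_comm, sub_self, mul_zero]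
    rw [d3]
    simp only [map_smul, map_add, add_apply, smul_apply, ContinuousLinearMap.smulRight_apply, h0,
      smul_eq_mul]
    ring
  have hy' : y ∈ U0 n := hy
  rw [e, d_pull, ← map_pow, den, ← pull_comp, ev_pull _ _ hy', top_lmap, ev_pow _ _ (hT _), lam0,
    ev_d_one1 _ _ (hT _), ContinuousLinearMap.fderiv]
  rfl

theorem den_pts (hn : 1 ≤ n) : ∃ c : ℝ, c ≠ 0 ∧ ∀ (g : Met n) (h : IsMetric g),
    (∀ y, den (sg (adm_spd h) * (alF h * d (alF h) ^ (4 * n - 1))) y =
      c * (rw0 (4 * n) (spd g (sc0 y)) * detG g (aff y.1))) ∧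
    ∀ (D : FD g) y, den (sg (adm_spd h) * (D.alP * d D.alP ^ (4 * n - 1))) y =
      c / 2 * (rw0 (8 * n) (spd g (sc0 y)) * (fderiv ℝ (fun y => D.cone (sc0 y)) y).det) := by
  obtain ⟨c, hc, hc2, hL⟩ := legendre n
  obtain ⟨k, hk⟩ : ∃ k, 4 * n = k + 1 := ⟨4 * n - 1, by omega⟩
  have hk2 : 8 * n = 2 * k + 2 := by omega
  have hk0 : (k : ℝ) + 1 ≠ 0 := by positivity
  have hz : ∀ (g : Met n) (y : CH n) (m : ℕ), y.2 = 0 → rw0 (m + 1) (spd g (sc0 y)) = 0 :=
    fun g y m hy => by
      have : (sc0 y).2 = 0 := by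
        change a0L n y.2 = 0
        rw [hy, map_zero]
      rw [spd, this, map_zero, Real.sqrt_zero, rw0, zero_pow m.succ_ne_zero, div_zero]
  refine ⟨c / (k + 1), div_ne_zero hc hk0, fun g h => ⟨fun y => ?_, fun D y => ?_⟩⟩
  · by_cases hy : y.2 = 0
    · rw [den_zero _ hy, hk, hz g y k hy, zero_mul, mul_zero]
    have hs : ContDiffOn ℝ ∞ (spd g) (UO n) := h.contDiffOn_spd
    have h0 := (h.spd_pos (sc0_mem hy)).ne'
    have h1 := Pts_one hL h hs hy
    rw [hk, pts_pow (a := alF h) (isOne_one1 _ _) (alF_basic h) hs k hy] at h1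
    rw [Pts_sg _ _ hy, hk, Nat.add_sub_cancel, rw0]
    generalize top (V := CH n) _ = T at h1 ⊢
    field_simp
    linear_combination wt (Real.log (spd g (sc0 y))) * spd g (sc0 y) * h1
  · by_cases hy : y.2 = 0
    · rw [den_zero _ hy, hk2, hz g y (2 * k + 1) hy, zero_mul, mul_zero]
    have hs : ContDiffOn ℝ ∞ (fun x => spd g x ^ 2) (UO n) := h.contDiffOn_spd.pow 2
    have h0 := (h.spd_pos (sc0_mem hy)).ne'
    have h1 := Pts_two h D hs (4 * n) hy
    have d1 := ((h.contDiffOn_spd.contDiffAt (isOpen_OO.mem_nhds (sc0_mem hy))).differentiableAt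
      (by simp)).hasFDerivAt
    have d2 : fderiv ℝ (fun x => spd g x ^ 2) (sc0 y) =
        (2 * spd g (sc0 y)) • fderiv ℝ (spd g) (sc0 y) := by
      simpa using (d1.pow 2).fderiv
    rw [hc2, hk, pts_pow (a := D.alP) ((isOne_one1 _ _).pull _) D.alP_basic hs k hy, d2, map_smul,
      smul_mul_assoc, map_smul, map_smul, smul_eq_mul] at h1
    rw [Pts_sg _ _ hy, hk, hk2, Nat.add_sub_cancel, rw0]
    generalize top (V := CH n) _ = T at h1 ⊢
    field_simp
    linear_combination wt (Real.log (spd g (sc0 y))) * spd g (sc0 y) * h1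

end Pool.Agent.Work.MP_8c604c_gt.C
end
end
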